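import Pool.Agent.Q290.FW.Mix

/-!
# Quadratic fields: solutions of mixed type, the contradiction
-/

set_option autoImplicit false
set_option linter.all false

namespace Pool.Agent.Q290.FW

open NumberField IsDedekindDomain Polynomial Pool.Agent.Y546.WQ Pool.Agent.Y546

section

variable {K : Type} [Field K] [NumberField K]

/-- the primes above a prime number of a quadratic field -/
theorem two_primes {q : ℕ} (hq : q.Prime) (σ : 𝓞 K →+* 𝓞 K)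
    (hN : ∀ a : 𝓞 K, ((Algebra.norm ℤ a : ℤ) : 𝓞 K) = a * σ a) {P P' : Ideal (𝓞 K)}
    (hP : P.IsPrime) (hP' : P'.IsPrime) (h : ((q : ℕ) : 𝓞 K) ∈ P) (h' : ((q : ℕ) : 𝓞 K) ∈ P') :
    P = P' ∨ P = P'.comap σ := by
  have hb : ∀ P : Ideal (𝓞 K), ((q : ℕ) : 𝓞 K) ∈ P → P ≠ ⊥ := by
    rintro P hP rfl
    rw [Ideal.mem_bot] at hP
    exact hq.ne_zero (by exact_mod_cast hP)
  have hPm := hP.isMaximal (hb P h)
  have hσP : (P'.comap σ).IsPrime := hP'.comap σ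
  have hsub : (P : Set (𝓞 K)) ⊆ P' ∪ P'.comap σ := by
    intro a ha
    have h1 : ((Algebra.norm ℤ a : ℤ) : 𝓞 K) ∈ P := by
      rw [hN]
      exact P.mul_mem_right _ ha
    have h2 : (q : ℤ) ∣ Algebra.norm ℤ a := by
      by_contra hcon
      exact int_notMem P hP q hq h _ hcon h1
    obtain ⟨d, hd⟩ := h2
    have h3 : a * σ a ∈ P' := by
      rw [← hN, hd, Int.cast_mul, Int.cast_natCast]
      exact P'.mul_mem_right _ h'
    exact hP'.mem_or_mem h3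
  rcases Ideal.subset_union.1 hsub with h1 | h1
  · exact Or.inl (hPm.eq_of_le hP'.ne_top h1)
  · exact Or.inr (hPm.eq_of_le hσP.ne_top h1)

/-- a norm prime to `q` -/
theorem norm_odd {q : ℕ} (hq : q.Prime) (σ : 𝓞 K →+* 𝓞 K)
    (hN : ∀ a : 𝓞 K, ((Algebra.norm ℤ a : ℤ) : 𝓞 K) = a * σ a) {w : 𝓞 K}
    (h : ∀ P : Ideal (𝓞 K), P.IsPrime → ((q : ℕ) : 𝓞 K) ∈ P → w ∉ P) :
    ¬ (q : ℤ) ∣ Algebra.norm ℤ w := norm_ncp hq σ hN h

/-- the relation if a pair is not good at two -/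
theorem badT {p : ℕ} [Fact p.Prime] (h5 : 5 ≤ p) (hW : ¬ p ^ 2 ∣ 2 ^ (p - 1) - 1)
    (hK : Module.finrank ℚ K = 2) (σ : 𝓞 K →+* 𝓞 K)
    (hN : ∀ a : 𝓞 K, ((Algebra.norm ℤ a : ℤ) : 𝓞 K) = a * σ a)
    (hT : ∀ a : 𝓞 K, ((Algebra.trace ℤ (𝓞 K) a : ℤ) : 𝓞 K) = a + σ a)
    {E : Type} [Field E] [NumberField E] (c : Cyc p E) {X Y Z : 𝓞 K} (s : SolT p K X Y Z)
    (hn : ∀ P : Ideal (𝓞 K), P.IsPrime → ((2 : ℕ) : 𝓞 K) ∈ P → ¬ (X ∈ P ∧ Y ∈ P ∧ Z ∈ P))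
    (hG : ¬ Good 2 K X Y) :
    ((Algebra.norm ℤ X : ℤ) : ZMod p) = (Algebra.norm ℤ Y : ℤ) := by
  have hpp : p.Prime := Fact.out
  have hσσ := conj_conj σ hT
  have hσ : Function.Injective σ := by
    intro x y hxy
    rw [← hσσ x, ← hσσ y, hxy]
  unfold Good at hG
  push Not at hG
  obtain ⟨P, hP, h2P, g1, g2, g3⟩ := hG
  have h2P' : (2 : 𝓞 K) ∈ P := by exact_mod_cast h2P
  have hlin : ∀ R : Ideal (𝓞 K), R.IsPrime → ((2 : ℕ) : 𝓞 K) ∈ R → X + Y + Z ∈ R := by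
    intro R hR h2R
    have h2R' : (2 : 𝓞 K) ∈ R := by exact_mod_cast h2R
    exact lin_2 hpp h5 R hR h2R' (pow_four σ hN hT R hR h2R') s.eq
  have hXP : X ∉ P := by
    intro h
    exact (two_of hpp s.eq hP (hn P hP h2P) h).1 (g1 h)
  have hYP : Y ∉ P := g2 hXP
  obtain ⟨g4, g5⟩ := g3 hXP hYP
  have hZP : Z ∉ P := by
    intro h
    exact g4 ((Ideal.add_mem_iff_left P h).1 (hlin P hP h2P))
  -- there is only one prime above two
  have huniq : ∀ R : Ideal (𝓞 K), R.IsPrime → ((2 : ℕ) : 𝓞 K) ∈ R → R = P := by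
    intro R hR h2R
    by_contra hne
    have hcard := card_of_ne hK Nat.prime_two P R hP hR h2P h2R (fun h => hne h.symm)
    have hb : P ≠ ⊥ := by
      rintro rfl
      rw [Ideal.mem_bot] at h2P'
      exact two_ne_zero h2P'
    have hPm := hP.isMaximal hb
    let _ : Field (𝓞 K ⧸ P) := Ideal.Quotient.field P
    haveI : Finite (𝓞 K ⧸ P) := Ideal.finiteQuotientOfFreeOfNeBot P hb
    haveI : Fintype (𝓞 K ⧸ P) := Fintype.ofFinite _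
    have h1 : ∀ w : 𝓞 K, w ∉ P → Ideal.Quotient.mk P w = 1 := by
      intro w hw
      have h0 : Ideal.Quotient.mk P w ≠ 0 := fun h => hw (Ideal.Quotient.eq_zero_iff_mem.1 h)
      have := FiniteField.pow_card_sub_one_eq_one (Ideal.Quotient.mk P w) h0
      rw [← Nat.card_eq_fintype_card, hcard] at this
      simpa using this
    apply g5
    rw [← Ideal.Quotient.eq_zero_iff_mem, map_sub, h1 X hXP, h1 Y hYP, sub_self]
  have hodd : ∀ w : 𝓞 K, w ∉ P → Odd (Algebra.norm ℤ w) := by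
    intro w hw
    rw [← Int.not_even_iff_odd, even_iff_two_dvd]
    have := norm_odd Nat.prime_two σ hN (w := w) (fun R hR h2R => by rw [huniq R hR h2R]; exact hw)
    exact_mod_cast this
  have oX := hodd X hXP
  have oY := hodd Y hYP
  have oZ := hodd Z hZP
  have h2 := norm_rel σ hN hT 2 Nat.prime_two (X := X) (Y := Y) (Z := Z) hlin
  have oT : Odd (Algebra.trace ℤ (𝓞 K) (X * σ Y)) := by
    rw [Int.odd_iff] at oX oY oZ ⊢
    have h2' : (2 : ℤ) ∣ Algebra.norm ℤ X + Algebra.norm ℤ Y +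
      Algebra.trace ℤ (𝓞 K) (X * σ Y) - Algebra.norm ℤ Z := by exact_mod_cast h2
    omega
  have hb : ((Algebra.trace ℤ (𝓞 K) (X * σ Y) : ℤ) : 𝓞 K) = X * σ Y + σ X * Y := by
    rw [hT, map_mul, hσσ]
  obtain ⟨f1, f2, f3⟩ := fld Y261.WQ.main Y686.WQ.main p (by omega) E c K hK σ hσ X Y Z s.X0
    s.Y0 s.Z0 s.eq s.cp
    (Algebra.norm ℤ X) (Algebra.trace ℤ (𝓞 K) (X * σ Y)) (Algebra.norm ℤ Y) (hN X) hb (hN Y)
  have hsum : Algebra.norm ℤ X + Algebra.trace ℤ (𝓞 K) (X * σ Y) + Algebra.norm ℤ Y =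
      Algebra.norm ℤ (X + Y) := by
    rw [norm_add' σ hN hT]
    ring
  have hpu : ¬ (p : ℤ) ∣ Algebra.norm ℤ X + Algebra.trace ℤ (𝓞 K) (X * σ Y) +
      Algebra.norm ℤ Y := by
    rw [hsum]
    refine norm_ncp hpp σ hN fun R hR hpR hXY => ?_
    exact s.cp R hR hpR ((Ideal.add_mem_iff_right R hXY).1 (lin_p hpp R hR hpR s.eq))
  have key := wie aUNIT Y447.WQ.main Y474.WQ.main Y388.WQ.HAR.main (by omega) hW c _ _ _ hpu 2
    (Or.inr (Or.inr (Or.inr ⟨oX, oT, oY, rfl⟩))) f1 f3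
  have t2 := two_ne h5
  push_cast at key
  have e : (2 : ZMod p) * (((Algebra.norm ℤ X : ℤ) : ZMod p) - (Algebra.norm ℤ Y : ℤ)) = 0 := by
    linear_combination key
  exact sub_eq_zero.1 ((mul_eq_zero.1 e).resolve_left t2)

/-- the conditions on `p` (and `K`) -/
def Cond (p : ℕ) (d : ℤ) : Prop :=
  ¬ p ^ 2 ∣ 2 ^ (p - 1) - 1 ∨ (¬ p ^ 2 ∣ 3 ^ (p - 1) - 1 ∧ (d % 3 = 0 ∨ d % 3 = 1)) ∨
    (7 ≤ p ∧ ¬ (p : ℤ) ∣ (_root_.bernoulli (p - 3)).num) ∨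
    ((irr p).card + 1) * ((irr p).card + 2) + 3 ≤ p

/-- no solution of mixed type -/
theorem mixO {p : ℕ} (hp : p.Prime) (h5 : 5 ≤ p) (hK : Module.finrank ℚ K = 2)
    (hC : Cond p (NumberField.discr K)) {x y z : 𝓞 K} (hx0 : x ≠ 0) (hy0 : y ≠ 0) (hz0 : z ≠ 0)
    (h : x ^ p + y ^ p + z ^ p = 0)
    (hn : ∀ P : Ideal (𝓞 K), P.IsPrime → ((6 * p : ℕ) : 𝓞 K) ∈ P → ¬ (x ∈ P ∧ y ∈ P ∧ z ∈ P))
    (P₀ P₁ : Ideal (𝓞 K)) (hP₀ : P₀.IsPrime) (hP₁ : P₁.IsPrime) (h₀ : ((p : ℕ) : 𝓞 K) ∈ P₀)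
    (h₁ : ((p : ℕ) : 𝓞 K) ∈ P₁) (hx : x ∉ P₀) (hy : y ∉ P₀) (hz : z ∉ P₀) (hz₁ : z ∈ P₁) :
    False := by
  have hfact : Fact p.Prime := ⟨hp⟩
  have hp2 : p ≠ 2 := by omega
  obtain ⟨σ, hN, hT⟩ := SG.exists_conj hK
  have hσσ := conj_conj σ hT
  have e₁ : P₁ = P₀.comap σ := by
    rcases two_primes hp σ hN hP₁ hP₀ h₁ h₀ with h2 | h2
    · exact absurd (h2 ▸ hz₁) hz
    · exact h2
  have hmp : ∀ P : Ideal (𝓞 K), ((p : ℕ) : 𝓞 K) ∈ P → ((6 * p : ℕ) : 𝓞 K) ∈ P := by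
    intro P hP
    rw [Nat.cast_mul]
    exact P.mul_mem_left _ hP
  have hm2 : ∀ P : Ideal (𝓞 K), ((2 : ℕ) : 𝓞 K) ∈ P → ((6 * p : ℕ) : 𝓞 K) ∈ P := by
    intro P hP
    have e : ((6 * p : ℕ) : 𝓞 K) = ((3 * p : ℕ) : 𝓞 K) * ((2 : ℕ) : 𝓞 K) := by
      rw [← Nat.cast_mul]
      congr 1
      ring
    rw [e]
    exact P.mul_mem_left _ hP
  have hm3 : ∀ P : Ideal (𝓞 K), ((3 : ℕ) : 𝓞 K) ∈ P → ((6 * p : ℕ) : 𝓞 K) ∈ P := by
    intro P hP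
    have e : ((6 * p : ℕ) : 𝓞 K) = ((2 * p : ℕ) : 𝓞 K) * ((3 : ℕ) : 𝓞 K) := by
      rw [← Nat.cast_mul]
      congr 1
      ring
    rw [e]
    exact P.mul_mem_left _ hP
  have hall : ∀ P : Ideal (𝓞 K), P.IsPrime → ((p : ℕ) : 𝓞 K) ∈ P → P = P₀ ∨ P = P₁ := by
    intro P hP hpP
    rw [e₁]
    exact two_primes hp σ hN hP hP₀ hpP h₀
  have hz' : z ^ p + x ^ p + y ^ p = 0 := by rw [← h]; ring
  have h1 := two_of hp hz' hP₁ (fun hh => hn P₁ hP₁ (hmp P₁ h₁) ⟨hh.2.1, hh.2.2, hh.1⟩) hz₁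
  have cx : ∀ P : Ideal (𝓞 K), P.IsPrime → ((p : ℕ) : 𝓞 K) ∈ P → x ∉ P := by
    intro P hP hpP
    rcases hall P hP hpP with rfl | rfl
    · exact hx
    · exact h1.1
  have cy : ∀ P : Ideal (𝓞 K), P.IsPrime → ((p : ℕ) : 𝓞 K) ∈ P → y ∉ P := by
    intro P hP hpP
    rcases hall P hP hpP with rfl | rfl
    · exact hy
    · exact h1.2
  have Sx : SolT p K x z y := ⟨hx0, hz0, hy0, by rw [← h]; ring, cy⟩
  have Sy : SolT p K y z x := ⟨hy0, hz0, hx0, by rw [← h]; ring, cx⟩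
  set A : ZMod p := ((Algebra.norm ℤ x : ℤ) : ZMod p) with hA
  set B : ZMod p := ((Algebra.norm ℤ y : ℤ) : ZMod p) with hB
  have hA0 : A ≠ 0 := fun h0 => norm_ncp hp σ hN cx ((ZMod.intCast_zmod_eq_zero_iff_dvd _ p).1 h0)
  have hB0 : B ≠ 0 := fun h0 => norm_ncp hp σ hN cy ((ZMod.intCast_zmod_eq_zero_iff_dvd _ p).1 h0)
  have hC0 : ((Algebra.norm ℤ z : ℤ) : ZMod p) = 0 := by
    rw [ZMod.intCast_zmod_eq_zero_iff_dvd]
    by_contra hcon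
    apply int_notMem P₁ hP₁ p hp h₁ _ hcon
    rw [hN]
    exact P₁.mul_mem_right _ hz₁
  have hAB : A ≠ B := by
    intro hAB
    have h2 : (p : ℤ) ∣ Algebra.norm ℤ x - Algebra.norm ℤ y := by
      rw [← ZMod.intCast_zmod_eq_zero_iff_dvd]
      push_cast
      rw [← hA, ← hB, hAB, sub_self]
    obtain ⟨d, hd⟩ := h2
    have h3 : x * σ x - y * σ y ∈ P₀ := by
      rw [← hN, ← hN, ← Int.cast_sub, hd, Int.cast_mul, Int.cast_natCast]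
      exact P₀.mul_mem_right _ h₀
    have h4 : σ x + σ y ∈ P₀ := by
      have h5 : x + y ∈ P₁ := (Ideal.add_mem_iff_left P₁ hz₁).1 (lin_p hp P₁ hP₁ h₁ h)
      rw [e₁, Ideal.mem_comap, map_add] at h5
      exact h5
    have h6 := lin_p hp P₀ hP₀ h₀ h
    have h7 : σ x * z ∈ P₀ := by
      have e : σ x * z = σ x * (x + y + z) - (x * σ x - y * σ y) - y * (σ x + σ y) := by ring
      rw [e]
      exact P₀.sub_mem (P₀.sub_mem (P₀.mul_mem_left _ h6) h3) (P₀.mul_mem_left _ h4)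
    rcases hP₀.mem_or_mem h7 with h8 | h8
    · apply h1.1
      rw [e₁, Ideal.mem_comap]
      exact h8
    · exact hz h8
  obtain ⟨E, _, _, ⟨c⟩⟩ := Y978.WQ.main p hp2
  obtain ⟨N, _, _, i, hcard, hD⟩ := Y258.WQ.mainDOWNG p E c K (by omega)
  have hD' : Dn p E N i := hD
  -- the comparison of the exponents at a prime number
  have fin : ∀ q : ℕ, q.Prime → q ≠ p → ¬ p ^ 2 ∣ q ^ (p - 1) - 1 →
      (∀ P : Ideal (𝓞 K), P.IsPrime → ((q : ℕ) : 𝓞 K) ∈ P → ¬ (x ∈ P ∧ y ∈ P ∧ z ∈ P)) →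
      Good q K x z → Good q K y z → False := by
    intro q hq hqp hW hnq g1 g2
    obtain ⟨Q, hQ, hqQ⟩ := exists_above (K := N) q hq
    have r1 := pairT hK σ hN hT hp2 hq hqp hW c i hD' hcard Q hQ hqQ Sx g1
    have r2 := pairT hK σ hN hT hp2 hq hqp hW c i hD' hcard Q hQ hqQ Sy g2
    have hsum := (cnt_sum (q := q) hcard Q hQ hqQ (x := x) (y := y) (z := z) (by
      intro P hP hqP
      refine ⟨fun hh => ?_, fun hh => ?_, fun hh => ?_⟩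
      · exact (two_of hp h hP (hnq P hP hqP) hh.1).1 hh.2
      · exact (two_of hp hz' hP (fun k => hnq P hP hqP ⟨k.2.1, k.2.2, k.1⟩) hh.2).2 hh.1
      · exact (two_of hp h hP (hnq P hP hqP) hh.1).2 hh.2)).1
    rw [hK] at hsum
    rw [hC0] at r1 r2
    exact enum h5 A B hA0 hB0 hAB _ _ _ hsum r1 r2
  have pal : (7 ≤ p ∧ Reg p 3) ∨ ((irr p).card + 1) * ((irr p).card + 2) + 3 ≤ p → False := by
    intro hreg
    have r1 := palT hK σ hN hT h5 c i hD' hcard hreg Sx hA0 hC0 hAB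
    have r2 := palT hK σ hN hT h5 c i hD' hcard hreg Sy hB0 hC0 (fun h => hAB h.symm)
    have t3 := three_ne (p := p) h5
    apply hA0
    have e : (3 : ZMod p) * A = 0 := by
      linear_combination -2 * r1 - r2
    exact (mul_eq_zero.1 e).resolve_left t3
  rcases hC with hW | ⟨hW, hd⟩ | ⟨h7, hB⟩ | hE
  · have hn2 : ∀ P : Ideal (𝓞 K), P.IsPrime → ((2 : ℕ) : 𝓞 K) ∈ P → ¬ (x ∈ P ∧ y ∈ P ∧ z ∈ P) :=
      fun P hP h2P => hn P hP (hm2 P h2P)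
    by_cases g1 : Good 2 K x z
    · by_cases g2 : Good 2 K y z
      · exact fin 2 Nat.prime_two (by omega) hW hn2 g1 g2
      · apply hB0
        rw [hB, badT h5 hW hK σ hN hT c Sy (fun P hP h2P hh => hn2 P hP h2P
          ⟨hh.2.2, hh.1, hh.2.1⟩) g2]
        exact hC0
    · apply hA0
      rw [hA, badT h5 hW hK σ hN hT c Sx (fun P hP h2P hh => hn2 P hP h2P
        ⟨hh.1, hh.2.2, hh.2.1⟩) g1]
      exact hC0
  · have hcube : ∀ P : Ideal (𝓞 K), P.IsPrime → ((3 : ℕ) : 𝓞 K) ∈ P →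
        ∀ w : 𝓞 K, w ^ 3 - w ∈ P := by
      intro P hP h3P w
      obtain ⟨⟨k, hk⟩, -⟩ := int_three hK σ hN hT hd hP h3P w
      exact cube_int h3P hk
    have hn3 : ∀ P : Ideal (𝓞 K), P.IsPrime → ((3 : ℕ) : 𝓞 K) ∈ P → ¬ (x ∈ P ∧ y ∈ P ∧ z ∈ P) :=
      fun P hP h3P => hn P hP (hm3 P h3P)
    exact fin 3 Nat.prime_three (by omega) hW hn3
      (good_three hp hcube Sx.eq fun P hP h3P hh => hn3 P hP h3P ⟨hh.1, hh.2.2, hh.2.1⟩)
      (good_three hp hcube Sy.eq fun P hP h3P hh => hn3 P hP h3P ⟨hh.2.2, hh.1, hh.2.1⟩)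
  · exact pal (Or.inl ⟨h7, reg_three h7 hB⟩)
  · exact pal (Or.inr hE)

end

end Pool.Agent.Q290.FW
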