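import Pool.Agent.Q290.FW.Rel
import Pool.Agent.Y388.WQ.HAR

/-!
# The Stickelberger relations modulo a prime above `q`, pointwise form
-/

set_option autoImplicit false
set_option linter.all false

namespace Pool.Agent.Q290.FW

open NumberField IsDedekindDomain Polynomial Pool.Agent.Y546.WQ Pool.Agent.Y546

/-- the relation modulo a prime above `q` -/
theorem relQp {p : ℕ} [Fact p.Prime] (hp2 : p ≠ 2) {E : Type} [Field E] [NumberField E]
    (c : Cyc p E) {q : ℕ} (hq : q.Prime) (hqp : q ≠ p) (f : Polynomial ℤ) (n : ℤ)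
    (hn : ¬ (q : ℤ) ∣ n) (m a' b : ℕ) (ε : ℤ) (hε : ε = 1 ∨ ε = -1)
    (hpt : ∀ (F : Type) [Field F] [CharP F q] (y : F), y ^ p = 1 → y ≠ 1 →
      y ^ b * f.eval₂ (Int.castRingHom F) y = ε * (y ^ (a' + m) * f.eval₂ (Int.castRingHom F) y⁻¹))
    (hP : ∀ P : Ideal (𝓞 E), P.IsPrime → ((q : ℕ) : 𝓞 E) ∈ P →
      ∀ w : 𝓞 E, (w : E) = aeval c.z f → w ∉ P)
    (a : ℕ) (g : E) (i : ℕ) (hrel : tha c a (aeval c.z f / (n : E)) = c.z ^ i * g ^ p)
    (hW : ¬ p ^ 2 ∣ q ^ (p - 1) - 1) :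
    2 * (i : ZMod p) = ((m : ZMod p) + a' - b) * hsa p a 1 := by
  have hpp : p.Prime := Fact.out
  have hp1 := hpp.one_lt
  have hodd : Odd p := hpp.odd_of_ne_two hp2
  haveI hqf : Fact q.Prime := ⟨hq⟩
  obtain ⟨M, hM', hqM⟩ := exists_above (K := E) q hq
  have hMbot : M ≠ ⊥ := by
    rintro rfl
    rw [Ideal.mem_bot] at hqM
    exact hq.ne_zero (by exact_mod_cast hqM)
  have hM : M.IsMaximal := hM'.isMaximal hMbot
  let _ : Field (𝓞 E ⧸ M) := Ideal.Quotient.field M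
  let φ : 𝓞 E →+* (𝓞 E ⧸ M) := Ideal.Quotient.mk M
  have hqF : ((q : ℕ) : 𝓞 E ⧸ M) = 0 := by
    have : φ ((q : ℕ) : 𝓞 E) = 0 := Ideal.Quotient.eq_zero_iff_mem.2 hqM
    rwa [map_natCast] at this
  haveI hchar : CharP (𝓞 E ⧸ M) q := charP_quot M hM' q hq hqM
  have hn0 : n ≠ 0 := by
    rintro rfl
    exact hn (dvd_zero _)
  have hnF : ((n : ℤ) : 𝓞 E ⧸ M) ≠ 0 := by
    intro h
    exact hn ((CharP.intCast_eq_zero_iff (𝓞 E ⧸ M) q n).1 h)
  -- the root of unity as an integer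
  let zO : 𝓞 E := ⟨c.z, c.prim.isIntegral hpp.pos⟩
  have hzO : (zO : E) = c.z := rfl
  have hzprim : IsPrimitiveRoot zO p :=
    IsPrimitiveRoot.of_map_of_injective (f := algebraMap (𝓞 E) E) c.prim
      (RingOfIntegers.coe_injective)
  set w : 𝓞 E ⧸ M := φ zO with hwdef
  have hw : w ^ p = 1 := by rw [hwdef, ← map_pow, hzprim.pow_eq_one, map_one]
  have hw0 : w ≠ 0 := by
    intro h
    rw [h, zero_pow hpp.ne_zero] at hw
    exact zero_ne_one hw
  have hw1 : w ≠ 1 := by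
    intro h
    have h1 : 1 - zO ∈ M := by
      rw [← Ideal.Quotient.eq_zero_iff_mem, map_sub, map_one]
      rw [hwdef] at h
      exact sub_eq_zero.2 h.symm
    have h2 := p_mem_of_one_sub_mem zO hzprim M h1
    refine int_notMem M hM' q hq hqM (p : ℤ) ?_ (by exact_mod_cast h2)
    intro h3
    have h4 : q ∣ p := by exact_mod_cast h3
    exact hqp ((Nat.prime_dvd_prime_iff_eq hq hpp).1 h4)
  -- the Frobenius
  have hF : ∀ x : 𝓞 E ⧸ M, x ^ q ^ (p - 1) = x := by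
    intro x
    obtain ⟨y, rfl⟩ := Ideal.Quotient.mk_surjective x
    obtain ⟨f, hf⟩ := c.gen (y : E) y.2
    have h1 : y = Polynomial.aeval zO f := by
      apply RingOfIntegers.coe_injective
      have := Polynomial.aeval_algebraMap_apply E zO f
      exact hf.trans this
    have h3 : ∀ ψ : 𝓞 E →+* (𝓞 E ⧸ M), ψ (Polynomial.aeval zO f) =
        Polynomial.eval₂ (Int.castRingHom _) (ψ zO) f := by
      intro ψ
      rw [Polynomial.aeval_def, Polynomial.hom_eval₂]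
      congr 1
      exact RingHom.ext_int _ _
    have h4 := h3 φ
    have h5 := h3 ((iterateFrobenius (𝓞 E ⧸ M) q (p - 1)).comp φ)
    rw [RingHom.comp_apply, RingHom.comp_apply, iterateFrobenius_def, iterateFrobenius_def] at h5
    have h6 : (φ zO) ^ q ^ (p - 1) = φ zO := by
      have e1 : q ^ (p - 1) % p = 1 := by
        have e2 : ((q ^ (p - 1) : ℕ) : ZMod p) = ((1 : ℕ) : ZMod p) := by
          push_cast
          refine ZMod.pow_card_sub_one_eq_one ?_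
          rw [Ne, ZMod.natCast_eq_zero_iff]
          intro hd
          exact hqp ((Nat.prime_dvd_prime_iff_eq hpp hq).1 hd).symm
        rw [ZMod.natCast_eq_natCast_iff] at e2
        have e3 : q ^ (p - 1) % p = 1 % p := e2
        rw [e3, Nat.mod_eq_of_lt hpp.one_lt]
      rw [pow_eq_pow_mod _ hw, e1, pow_one]
    rw [h6, ← h4] at h5
    have h7 : Ideal.Quotient.mk M y = φ (Polynomial.aeval zO f) := by rw [← h1]
    rw [h7]
    exact h5
  -- the two relations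
  obtain ⟨d1, hd1, hr1⟩ := rel_F c hq f n hn0 hP g a i hrel zO hzO hqF φ hnF
  obtain ⟨d2, hd2, hr2⟩ := rel_F c hq f n hn0 hP g a i hrel zO hzO hqF
    (φ.comp (rs c (-1) : 𝓞 E →+* 𝓞 E)) hnF
  have hw' : (φ.comp (rs c (-1) : 𝓞 E →+* 𝓞 E)) zO = w⁻¹ := by
    have e1 : rs c (-1) zO = zO ^ ((-1 : (ZMod p)ˣ) : ZMod p).val := by
      apply RingOfIntegers.coe_injective
      have e2 : ((rs c (-1) zO : 𝓞 E) : E) = c.σ (-1) ((zO : 𝓞 E) : E) := rfl
      refine e2.trans ?_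
      rw [hzO, c.σ_z]
      rfl
    have e3 : (φ.comp (rs c (-1) : 𝓞 E →+* 𝓞 E)) zO = φ (rs c (-1) zO) := rfl
    rw [e3, e1, map_pow, Units.val_neg, Units.val_one]
    apply eq_inv_of_mul_eq_one_left
    rw [← hwdef, ← pow_succ]
    have e4 : (-1 : ZMod p).val + 1 = p := by
      rw [ZMod.neg_val, if_neg one_ne_zero]
      haveI : Fact (1 < p) := ⟨hp1⟩
      rw [ZMod.val_one]
      omega
    rw [e4, hw]
  rw [hw'] at hr2
  rw [← hwdef] at hr1
  have hpw : ∀ k : ℕ, ∏ t ∈ hf p a, (w ^ ((t⁻¹ : (ZMod p)ˣ) : ZMod p).val) ^ k =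
      (w ^ SSa p a) ^ k := by
    intro k
    rw [Finset.prod_pow, Finset.prod_pow_eq_pow_sum]
    rfl
  have hprod : (w ^ SSa p a) ^ b * ((n : 𝓞 E ⧸ M) ^ (hf p a).card * (w ^ i * d1 ^ p)) =
      (ε : 𝓞 E ⧸ M) ^ (hf p a).card * ((w ^ SSa p a) ^ (a' + m) *
        ((n : 𝓞 E ⧸ M) ^ (hf p a).card * ((w⁻¹) ^ i * d2 ^ p))) := by
    rw [← hr1, ← hr2, ← hpw, ← hpw, ← Finset.prod_const, ← Finset.prod_mul_distrib,
      ← Finset.prod_mul_distrib, ← Finset.prod_mul_distrib]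
    refine Finset.prod_congr rfl fun t _ => ?_
    have := hpt (𝓞 E ⧸ M) (w ^ ((t⁻¹ : (ZMod p)ˣ) : ZMod p).val)
      (by rw [← pow_mul, mul_comm, pow_mul, hw, one_pow]) (by
        intro h1
        have how : orderOf w = p := orderOf_eq_prime hw hw1
        have h2 := orderOf_dvd_of_pow_eq_one h1
        rw [how] at h2
        have h3 := Nat.le_of_dvd (Y388.WQ.HAR.val_pos t⁻¹) h2
        have h4 := ZMod.val_lt ((t⁻¹ : (ZMod p)ˣ) : ZMod p)
        omega)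
    rw [inv_pow]
    exact this
  by_contra hk
  set Δ : ZMod p := ((m : ZMod p) + a' - b) * hsa p a 1 - 2 * (i : ZMod p) with hΔ
  have hΔ0 : Δ ≠ 0 := sub_ne_zero.2 (Ne.symm hk)
  have hε2 : ((ε : 𝓞 E ⧸ M) ^ (hf p a).card) ^ p = (ε : 𝓞 E ⧸ M) ^ (hf p a).card := by
    rw [← pow_mul, mul_comm, pow_mul]
    congr 1
    rcases hε with rfl | rfl
    · simp
    · rw [Int.cast_neg, Int.cast_one, hodd.neg_one_pow]
  have hnc : (n : 𝓞 E ⧸ M) ^ (hf p a).card ≠ 0 := pow_ne_zero _ hnF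
  have hεc : (ε : 𝓞 E ⧸ M) ^ (hf p a).card ≠ 0 := by
    apply pow_ne_zero
    rcases hε with rfl | rfl
    · simp
    · simp
  -- the exponent
  have hkey : w ^ (SSa p a * (a' + m)) * (ε : 𝓞 E ⧸ M) ^ (hf p a).card * d2 ^ p =
      w ^ (SSa p a * b + 2 * i) * d1 ^ p := by
    have e1 : (w ^ SSa p a) ^ b * (w ^ i * d1 ^ p) =
        (ε : 𝓞 E ⧸ M) ^ (hf p a).card * ((w ^ SSa p a) ^ (a' + m) * ((w⁻¹) ^ i * d2 ^ p)) := by
      apply mul_left_cancel₀ hnc
      linear_combination hprod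
    have e2 : w ^ i * (w⁻¹) ^ i = 1 := by
      rw [← mul_pow, mul_inv_cancel₀ hw0, one_pow]
    have e3 : w ^ (SSa p a * (a' + m)) = (w ^ SSa p a) ^ (a' + m) := pow_mul _ _ _
    have e4 : w ^ (SSa p a * b + 2 * i) = (w ^ SSa p a) ^ b * (w ^ i * w ^ i) := by
      rw [pow_add, pow_mul, two_mul, pow_add]
    rw [e3, e4]
    linear_combination (-(w ^ i)) * e1 + (-((ε : 𝓞 E ⧸ M) ^ (hf p a).card *
      ((w ^ SSa p a) ^ (a' + m) * d2 ^ p))) * e2
  apply hW
  -- write the quotient as a power of w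
  set u : ℕ := Δ.val with hu
  have huc : ((u : ℕ) : ZMod p) = Δ := by
    rw [hu, ZMod.natCast_val, ZMod.cast_id', id]
  have hmod : w ^ (SSa p a * (a' + m)) = w ^ (SSa p a * b + 2 * i) * w ^ u := by
    rw [← pow_add]
    rw [pow_eq_pow_mod _ hw, pow_eq_pow_mod (SSa p a * b + 2 * i + u) hw]
    congr 1
    have e1 : ((SSa p a * (a' + m) : ℕ) : ZMod p) = ((SSa p a * b + 2 * i + u : ℕ) : ZMod p) := by
      push_cast
      rw [huc, hΔ, SSa_cast]
      ring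
    rw [ZMod.natCast_eq_natCast_iff] at e1
    exact e1
  refine core hw hw1 hq.pos hF u ?_ (v := d1 / (d2 * (ε : 𝓞 E ⧸ M) ^ (hf p a).card)) ?_
  · intro h
    apply hΔ0
    rw [← huc]
    exact (ZMod.natCast_eq_zero_iff _ _).2 h
  · rw [div_pow, mul_pow, hε2, div_eq_iff (mul_ne_zero (pow_ne_zero _ hd2) hεc)]
    apply mul_left_cancel₀ (pow_ne_zero (SSa p a * b + 2 * i) hw0)
    rw [hmod] at hkey
    linear_combination -hkey

end Pool.Agent.Q290.FW
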