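import Pool.Agent.Q290.FW.Ide
import Pool.Agent.Q290.FW.RelP
import Pool.Agent.Q290.FW.Mix2

/-!
# The Stickelberger relations if the third number is divisible by some prime above `p`
-/

set_option autoImplicit false
set_option linter.all false

namespace Pool.Agent.Q290.FW

open NumberField IsDedekindDomain Polynomial Pool.Agent.Y546.WQ Pool.Agent.Y546

/-- the quotient of the cyclotomic polynomial by `X - 1` -/
theorem exists_W (p : ℕ) [Fact p.Prime] (h5 : 5 ≤ p) : ∃ W : Polynomial ℤ,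
    (∑ k ∈ Finset.range p, (X : Polynomial ℤ) ^ k) = C (p : ℤ) + (X - 1) * W ∧
    (W.map (Int.castRingHom (ZMod p))).eval 1 = 0 ∧
    (W.map (Int.castRingHom (ZMod p))).derivative.eval 1 = 0 := by
  have hpp : p.Prime := Fact.out
  set Q : Polynomial ℤ := ∑ k ∈ Finset.range p, (X : Polynomial ℤ) ^ k with hQ
  have hQ1 : Q.eval 1 = p := by
    rw [hQ, eval_finsetSum]
    simp
  obtain ⟨W, hW⟩ := X_sub_C_dvd_sub_C_eval (p := Q) (a := (1 : ℤ))
  rw [hQ1, C_1] at hW
  refine ⟨W, by rw [← hW]; ring, ?_⟩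
  have h1 : (X - 1 : Polynomial (ZMod p)) * W.map (Int.castRingHom (ZMod p)) =
      Q.map (Int.castRingHom (ZMod p)) := by
    have h2 := congrArg (Polynomial.map (Int.castRingHom (ZMod p))) hW
    rw [Polynomial.map_sub, Polynomial.map_mul, Polynomial.map_sub, Polynomial.map_X,
      Polynomial.map_one, Polynomial.map_C] at h2
    have h3 : (Int.castRingHom (ZMod p)) (p : ℤ) = 0 := by simp
    rw [h3, C_0, sub_zero] at h2
    exact h2.symm
  have h2 : (Q.map (Int.castRingHom (ZMod p))) * (X - 1) = X ^ p - 1 := by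
    rw [hQ, Polynomial.map_sum]
    simp only [Polynomial.map_pow, Polynomial.map_X]
    exact geom_sum_mul _ _
  have h3 : (X ^ p - 1 : Polynomial (ZMod p)) = (X - 1) ^ p := by
    rw [sub_pow_char, one_pow]
  have hX : (X - 1 : Polynomial (ZMod p)) ≠ 0 := by
    have := X_sub_C_ne_zero (1 : ZMod p)
    rwa [C_1] at this
  have h4 : W.map (Int.castRingHom (ZMod p)) = (X - 1) ^ (p - 2) := by
    apply mul_left_cancel₀ (pow_ne_zero 2 hX)
    rw [← pow_add, show 2 + (p - 2) = p by omega, ← h3, ← h2, ← h1]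
    ring
  rw [h4]
  constructor
  · rw [eval_pow, eval_sub, eval_X, eval_one, sub_self, zero_pow (by omega)]
  · rw [derivative_pow, eval_mul, eval_mul, eval_pow, eval_sub, eval_X, eval_one, sub_self,
      zero_pow (by omega), mul_zero, zero_mul]

section

variable {p : ℕ} [Fact p.Prime] {E : Type} [Field E] [NumberField E]
  {K N : Type} [Field K] [NumberField K] [Field N] [NumberField N]

/-- the linear relation if the value at one is divisible by `p` -/
theorem crossL (h5 : 5 ≤ p) {q : ℕ} (hq : q.Prime) (hqp : q ≠ p)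
    (hW : ¬ p ^ 2 ∣ q ^ (p - 1) - 1) (c : Cyc p E) (i : E →+* N) (hD : Dn p E N i)
    {x y z : 𝓞 K} (hx : x ≠ 0) (hy : y ≠ 0) (hz : z ≠ 0) (h : x ^ p + y ^ p + z ^ p = 0)
    (f : Polynomial ℤ) (hf : f.map (Int.castRingHom (𝓞 N)) = nrmP K N x y)
    (hdeg : f.natDegree ≤ 2) (hp1 : (p : ℤ) ∣ f.eval 1)
    (hg1 : ¬ (p : ℤ) ∣ f.coeff 1 + 2 * f.coeff 2) (A B : ℕ) (ε : ℤ) (hε : ε = 1 ∨ ε = -1)
    (hpt : ∀ (F : Type) [Field F] [CharP F q] (y : F), y ≠ 0 →
      y ^ B * f.eval₂ (Int.castRingHom F) y = ε * (y ^ (A + 2) * f.eval₂ (Int.castRingHom F) y⁻¹))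
    (hcop : ∀ P : Ideal (𝓞 E), P.IsPrime → ((q : ℕ) : 𝓞 E) ∈ P →
      ∀ w : 𝓞 E, (w : E) = aeval c.z f → w ∉ P) :
    ((A : ZMod p) + 1 - B) * ((f.coeff 1 : ℤ) + 2 * (f.coeff 2 : ℤ)) = 2 * (f.coeff 2 : ℤ) := by
  have hpp : p.Prime := Fact.out
  have hp2 : p ≠ 2 := by omega
  obtain ⟨W, hWQ, hW0, hW1⟩ := exists_W p h5
  obtain ⟨e, he⟩ := hp1
  -- the polynomial
  have hff : f = C (f.coeff 0) + C (f.coeff 1) * X + C (f.coeff 2) * X ^ 2 := by
    conv_lhs => rw [as_sum_range_C_mul_X_pow' f (Nat.lt_succ_of_le hdeg)]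
    rw [Finset.sum_range_succ, Finset.sum_range_succ, Finset.sum_range_one, pow_zero, mul_one,
      pow_one]
  set c0 := f.coeff 0 with hc0
  set c1 := f.coeff 1 with hc1
  set c2 := f.coeff 2 with hc2
  have hsum : c0 + c1 + c2 = p * e := by
    rw [← he, hff]
    simp
  set G : Polynomial ℤ := C (c1 + c2) + C c2 * X - C e * W with hG
  have hGF : ∀ (F : Type) [CommRing F] (y : F), ∑ k ∈ Finset.range p, y ^ k = 0 →
      (y - 1) * G.eval₂ (Int.castRingHom F) y = f.eval₂ (Int.castRingHom F) y := by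
    intro F _ y hy0
    have h1 := congrArg (Polynomial.eval₂ (Int.castRingHom F) y) hWQ
    rw [Polynomial.eval₂_finsetSum] at h1
    simp only [Polynomial.eval₂_pow, Polynomial.eval₂_X] at h1
    rw [hy0] at h1
    simp only [Polynomial.eval₂_add, Polynomial.eval₂_mul, Polynomial.eval₂_sub,
      Polynomial.eval₂_C, Polynomial.eval₂_X, Polynomial.eval₂_one,
      eq_intCast (Int.castRingHom F)] at h1
    have h2 : ((c0 + c1 + c2 : ℤ) : F) = ((p * e : ℤ) : F) := by rw [hsum]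
    rw [hG]
    conv_rhs => rw [hff]
    simp only [Polynomial.eval₂_add, Polynomial.eval₂_mul, Polynomial.eval₂_sub,
      Polynomial.eval₂_C, Polynomial.eval₂_X, Polynomial.eval₂_pow,
      eq_intCast (Int.castRingHom F)]
    push_cast at h1 h2 ⊢
    linear_combination (e : F) * h1 - h2
  have hb1 : (G.map (Int.castRingHom (ZMod p))).eval 1 = (c1 : ZMod p) + 2 * (c2 : ZMod p) := by
    rw [hG]
    simp only [Polynomial.map_add, Polynomial.map_sub, Polynomial.map_mul, Polynomial.map_C,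
      Polynomial.map_X, eval_add, eval_sub, eval_mul, eval_C, eval_X,
      eq_intCast (Int.castRingHom (ZMod p)), hW0]
    push_cast
    ring
  have hb2 : (G.map (Int.castRingHom (ZMod p))).derivative.eval 1 = (c2 : ZMod p) := by
    rw [hG]
    simp only [Polynomial.map_add, Polynomial.map_sub, Polynomial.map_mul, Polynomial.map_C,
      Polynomial.map_X, derivative_add, derivative_sub, derivative_mul, derivative_C,
      derivative_X, eval_add, eval_sub, eval_mul, eval_C, eval_X, eq_intCast (Int.castRingHom (ZMod p)), hW0, hW1,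
      zero_mul,
      eval_zero, eval_one]
    ring
  have b5 : ¬ (p : ℤ) ∣ G.eval 1 := by
    intro hh
    apply hg1
    rw [← ZMod.intCast_zmod_eq_zero_iff_dvd] at hh ⊢
    push_cast
    rw [← hb1, eval_map, ← map_one (Int.castRingHom (ZMod p)), eval₂_hom]
    exact hh
  -- the valuations
  obtain ⟨h1, h2, h3⟩ := fldA hp2 c i hD x y z hx hy hz h f hf
  obtain ⟨w, hwz, hw⟩ := exists_zint c
  have hwz' : algebraMap (𝓞 E) E w = c.z := hwz
  have hΛ : ∀ g : Polynomial ℤ, algebraMap (𝓞 E) E (aeval w g) = aeval c.z g := by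
    intro g
    rw [← hwz']
    exact (aeval_algebraMap_apply E w g).symm
  have hsumw : ∑ k ∈ Finset.range p, w ^ k = 0 := hw.geom_sum_eq_zero hpp.one_lt
  have haev : ∀ g : Polynomial ℤ, aeval w g = g.eval₂ (Int.castRingHom (𝓞 E)) w := by
    intro g
    rw [aeval_def]
    congr 1
  have hGw : (w - 1) * aeval w G = aeval w f := by
    rw [haev, haev]
    exact hGF (𝓞 E) w hsumw
  have hG0 : aeval c.z G ≠ 0 := by
    intro h0
    apply h1
    rw [← hΛ, ← hGw, map_mul, hΛ, h0, mul_zero]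
  obtain ⟨s, m, hm, hsm⟩ := exists_q_part hq (f.eval 1) h2
  have hm0 : m ≠ 0 := by
    rintro rfl
    exact hm (dvd_zero _)
  obtain ⟨s', n, hn, hsn⟩ := exists_q_part hpp m hm0
  have hnq : ¬ (q : ℤ) ∣ n := fun hh => hm (hsn ▸ dvd_mul_of_dvd_right hh _)
  have hfn : f.eval 1 = (q : ℤ) ^ s * ((p : ℤ) ^ s' * n) := by rw [hsm, hsn]
  have hcopG : ∀ P : Ideal (𝓞 E), P.IsPrime → ((q : ℕ) : 𝓞 E) ∈ P →
      ∀ w' : 𝓞 E, (w' : E) = aeval c.z G → w' ∉ P := by
    intro P hP hqP w' hw' hwP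
    refine hcop P hP hqP ((w - 1) * w') ?_ (P.mul_mem_left _ hwP)
    have e1 : (((w - 1) * w' : 𝓞 E) : E) = ((w : E) - 1) * (w' : E) := by
      push_cast
      rfl
    have e2 : algebraMap (𝓞 E) E (w - 1) = (w : E) - 1 := by rw [map_sub, map_one]
    have e3 : algebraMap (𝓞 E) E (aeval w f) =
        algebraMap (𝓞 E) E (w - 1) * algebraMap (𝓞 E) E (aeval w G) := by rw [← hGw, map_mul]
    rw [e1, hw', ← hΛ G, ← hΛ f, e3, e2]
  -- `G` is prime to `p`
  have hcopp : ∀ P : Ideal (𝓞 E), P.IsPrime → ((p : ℕ) : 𝓞 E) ∈ P → aeval w G ∉ P := by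
    intro P hP hpP hGP
    have h4 : w - 1 ∈ P := by
      haveI := hP
      haveI := charP_quot P hP p hpp hpP
      rw [← Ideal.Quotient.eq_zero_iff_mem]
      have h5 : (Ideal.Quotient.mk P (w - 1)) ^ p = 0 := by
        rw [map_sub, map_one, sub_pow_char, ← map_pow, hw.pow_eq_one, map_one, one_pow, sub_self]
      exact (pow_eq_zero_iff hpp.ne_zero).1 h5
    have h5 : ((G.eval 1 : ℤ) : 𝓞 E) ∈ P := by
      have h6 := Polynomial.sub_dvd_eval_sub w 1 (G.map (Int.castRingHom (𝓞 E)))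
      rw [eval_map, eval_map, ← haev] at h6
      have h7 : G.eval₂ (Int.castRingHom (𝓞 E)) 1 = ((G.eval 1 : ℤ) : 𝓞 E) := by
        rw [← map_one (Int.castRingHom (𝓞 E)), eval₂_hom]
        rfl
      rw [h7] at h6
      have h8 : aeval w G - ((G.eval 1 : ℤ) : 𝓞 E) ∈ P := P.mem_of_dvd h6 h4
      have h9 : ((G.eval 1 : ℤ) : 𝓞 E) = aeval w G - (aeval w G - ((G.eval 1 : ℤ) : 𝓞 E)) := by
        ring
      rw [h9]
      exact P.sub_mem hGP h8
    exact int_notMem P hP p hpp hpP _ b5 h5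
  obtain ⟨a, ha, hap, hne⟩ := exists_hsa (p := p) hp2
  obtain ⟨g, hg, k, hk⟩ := relGA aUNITA hp2 a ha hap c G n hn b5 hG0 (by
    intro P
    by_cases hqP : ((q : ℕ) : 𝓞 E) ∈ P.asIdeal
    · refine ⟨0, ?_⟩
      have hn1 : P.valuation E ((n : ℤ) : E) = 1 := by
        have := val_one P ((n : ℤ) : 𝓞 E) (int_notMem P.asIdeal P.isPrime q hq hqP n hnq)
        simpa using this
      rw [hn1, mul_zero, WithZero.exp_zero, mul_one, ← hΛ]
      exact val_one P _ (hcopG P.asIdeal P.isPrime hqP _ (hΛ G))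
    by_cases hpP : ((p : ℕ) : 𝓞 E) ∈ P.asIdeal
    · refine ⟨0, ?_⟩
      have hn1 : P.valuation E ((n : ℤ) : E) = 1 := by
        have := val_one P ((n : ℤ) : 𝓞 E) (int_notMem P.asIdeal P.isPrime p hpp hpP n hn)
        simpa using this
      rw [hn1, mul_zero, WithZero.exp_zero, mul_one, ← hΛ]
      exact val_one P _ (hcopp P.asIdeal P.isPrime hpP)
    · obtain ⟨m', hm'⟩ := h3 P
      refine ⟨m', ?_⟩
      have hv : ∀ r : ℕ, ((r : ℕ) : 𝓞 E) ∉ P.asIdeal → P.valuation E ((r : ℕ) : E) = 1 := by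
        intro r hr
        have h10 : (((r : ℕ) : 𝓞 E) : E) = ((r : ℕ) : E) := map_natCast (algebraMap (𝓞 E) E) r
        have := val_one P ((r : ℕ) : 𝓞 E) hr
        rwa [h10] at this
      have e1 : P.valuation E ((f.eval 1 : ℤ) : E) = P.valuation E ((n : ℤ) : E) := by
        rw [hfn]
        push_cast
        rw [map_mul, map_mul, map_pow, map_pow, hv q hqP, hv p hpP, one_pow, one_pow, one_mul,
          one_mul]
      have e2 : P.valuation E (algebraMap (𝓞 E) E (w - 1)) = 1 := by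
        refine val_one P (w - 1) fun hh => hpP ?_
        refine p_mem_of_one_sub_mem w hw P.asIdeal ?_
        rw [← neg_sub]
        exact P.asIdeal.neg_mem hh
      rw [← e1, ← hm', ← hΛ f, ← hGw, map_mul, map_mul, e2, one_mul, hΛ])
  obtain ⟨r, hr, hdv⟩ := Y919.WQ.mainLAMA p hp2 a ha hap E c G n hn b5 g hg k hk
  have hlin := lin_of hp2 a k _ r hr hdv
  rw [hb1, hb2] at hlin
  have hrel := relQp hp2 c hq hqp G n hnq 1 A B (-ε) (by
      rcases hε with rfl | rfl
      · right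
        rfl
      · left
        norm_num) (by
      intro F _ _ y hyp hy1
      have hy0 : y ≠ 0 := by
        rintro rfl
        rw [zero_pow hpp.ne_zero] at hyp
        exact zero_ne_one hyp
      have hs : ∀ t : F, t ^ p = 1 → t ≠ 1 → ∑ k ∈ Finset.range p, t ^ k = 0 := by
        intro t ht ht1
        have h6 := geom_sum_mul t p
        rw [ht, sub_self] at h6
        exact (mul_eq_zero.1 h6).resolve_right (sub_ne_zero.2 ht1)
      have g1 := hGF F y (hs y hyp hy1)
      have g2 := hGF F y⁻¹ (hs y⁻¹ (by rw [inv_pow, hyp, inv_one]) (by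
        intro h6
        exact hy1 (inv_eq_one.1 h6)))
      have g3 := hpt F y hy0
      rw [← g1, ← g2] at g3
      apply mul_left_cancel₀ (sub_ne_zero.2 hy1)
      have g4 : y * y⁻¹ = 1 := mul_inv_cancel₀ hy0
      push_cast
      have g5 : y ^ (A + 2) * ((y⁻¹ - 1) * G.eval₂ (Int.castRingHom F) y⁻¹) =
          -((y - 1) * (y ^ (A + 1) * G.eval₂ (Int.castRingHom F) y⁻¹)) := by
        have g6 : y ^ (A + 2) = y ^ (A + 1) * y := pow_succ y (A + 1)
        rw [g6]
        linear_combination (y ^ (A + 1) * G.eval₂ (Int.castRingHom F) y⁻¹) * g4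
      rw [g5] at g3
      linear_combination g3) hcopG a g k hk hW
  apply mul_right_cancel₀ hne
  push_cast at hrel
  linear_combination 2 * hlin - ((c1 : ZMod p) + 2 * (c2 : ZMod p)) * hrel

end

end Pool.Agent.Q290.FW
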