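import Pool.Agent.Q290.FW.Quad
import Pool.Agent.Y546.WQ.FinQ

/-!
# Furtwaengler's theorem over quadratic fields
-/

set_option autoImplicit false
set_option linter.all false

namespace Pool.Agent.Q290.FW

open NumberField IsDedekindDomain Polynomial Pool.Agent.Y546.WQ

section

variable {K N : Type} [Field K] [NumberField K] [Field N] [NumberField N]

theorem cnt_all {q : ℕ} (hcard : Nat.card (K →+* N) = Module.finrank ℚ K) (Q : Ideal (𝓞 N))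
    (hQ : Q.IsPrime) (hqQ : ((q : ℕ) : 𝓞 N) ∈ Q) {x : 𝓞 K}
    (h : ∀ P : Ideal (𝓞 K), P.IsPrime → ((q : ℕ) : 𝓞 K) ∈ P → x ∈ P) :
    cnt (K := K) Q x = Module.finrank ℚ K := by
  unfold cnt
  rw [← hcard]
  apply Nat.card_congr
  refine Equiv.subtypeUnivEquiv fun τ => ?_
  exact h (Q.comap (RingOfIntegers.mapRingHom τ)) (hQ.comap _)
    (by rw [Ideal.mem_comap, map_natCast]; exact hqQ)

theorem cnt_none {q : ℕ} (Q : Ideal (𝓞 N))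
    (hQ : Q.IsPrime) (hqQ : ((q : ℕ) : 𝓞 N) ∈ Q) {x : 𝓞 K}
    (h : ∀ P : Ideal (𝓞 K), P.IsPrime → ((q : ℕ) : 𝓞 K) ∈ P → x ∉ P) :
    cnt (K := K) Q x = 0 := by
  unfold cnt
  have : IsEmpty {τ : K →+* N // RingOfIntegers.mapRingHom τ x ∈ Q} := by
    refine ⟨fun τ => ?_⟩
    exact h (Q.comap (RingOfIntegers.mapRingHom τ.1)) (hQ.comap _)
      (by rw [Ideal.mem_comap, map_natCast]; exact hqQ) τ.2
  exact Nat.card_of_isEmpty

/-- the three counts -/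
theorem cnt_sum {q : ℕ} (hcard : Nat.card (K →+* N) = Module.finrank ℚ K) (Q : Ideal (𝓞 N))
    (hQ : Q.IsPrime) (hqQ : ((q : ℕ) : 𝓞 N) ∈ Q) {x y z : 𝓞 K}
    (h : ∀ P : Ideal (𝓞 K), P.IsPrime → ((q : ℕ) : 𝓞 K) ∈ P →
      ¬ (x ∈ P ∧ y ∈ P) ∧ ¬ (y ∈ P ∧ z ∈ P) ∧ ¬ (x ∈ P ∧ z ∈ P)) :
    cnt (K := K) Q x + cnt (K := K) Q y + cnt (K := K) Q z ≤ Module.finrank ℚ K ∧
    ((∀ P : Ideal (𝓞 K), P.IsPrime → ((q : ℕ) : 𝓞 K) ∈ P → x ∈ P ∨ y ∈ P ∨ z ∈ P) →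
      cnt (K := K) Q x + cnt (K := K) Q y + cnt (K := K) Q z = Module.finrank ℚ K) ∧
    (cnt (K := K) Q x + cnt (K := K) Q y + cnt (K := K) Q z = 0 →
      ∀ τ : K →+* N, RingOfIntegers.mapRingHom τ x ∉ Q ∧ RingOfIntegers.mapRingHom τ y ∉ Q ∧
        RingOfIntegers.mapRingHom τ z ∉ Q) := by
  classical
  unfold cnt
  have hh : ∀ τ : K →+* N, ¬ (RingOfIntegers.mapRingHom τ x ∈ Q ∧ RingOfIntegers.mapRingHom τ y ∈ Q) ∧
      ¬ (RingOfIntegers.mapRingHom τ y ∈ Q ∧ RingOfIntegers.mapRingHom τ z ∈ Q) ∧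
      ¬ (RingOfIntegers.mapRingHom τ x ∈ Q ∧ RingOfIntegers.mapRingHom τ z ∈ Q) := fun τ =>
    h (Q.comap (RingOfIntegers.mapRingHom τ)) (hQ.comap _)
      (by rw [Ideal.mem_comap, map_natCast]; exact hqQ)
  have c1 : ∀ w : 𝓞 K, Nat.card {τ : K →+* N // RingOfIntegers.mapRingHom τ w ∈ Q} =
      ∑ τ : K →+* N, if RingOfIntegers.mapRingHom τ w ∈ Q then 1 else 0 := by
    intro w
    rw [Nat.card_eq_fintype_card, Fintype.card_subtype, Finset.card_filter]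
  rw [c1, c1, c1, ← Finset.sum_add_distrib, ← Finset.sum_add_distrib, ← hcard,
    Nat.card_eq_fintype_card, ← Finset.card_univ, Finset.card_eq_sum_ones]
  refine ⟨Finset.sum_le_sum fun τ _ => ?_, fun h3 => Finset.sum_congr rfl fun τ _ => ?_,
    fun h3 τ => ?_⟩
  · have := hh τ
    split_ifs <;> simp_all
  · have := hh τ
    have h4 : RingOfIntegers.mapRingHom τ x ∈ Q ∨ RingOfIntegers.mapRingHom τ y ∈ Q ∨
        RingOfIntegers.mapRingHom τ z ∈ Q := h3 (Q.comap (RingOfIntegers.mapRingHom τ)) (hQ.comap _)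
      (by rw [Ideal.mem_comap, map_natCast]; exact hqQ)
    rcases h4 with h4 | h4 | h4 <;> split_ifs <;> simp_all
  · rw [Finset.sum_eq_zero_iff] at h3
    have h4 := h3 τ (Finset.mem_univ _)
    split_ifs at h4 <;> simp_all

end

section

variable {K : Type} [Field K] [NumberField K]

/-- the residue fields of a quadratic field at a prime number with two prime divisors -/
theorem card_of_ne (hK : Module.finrank ℚ K = 2) {q : ℕ} (hq : q.Prime) (P P' : Ideal (𝓞 K))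
    (hP : P.IsPrime) (hP' : P'.IsPrime) (h : ((q : ℕ) : 𝓞 K) ∈ P) (h' : ((q : ℕ) : 𝓞 K) ∈ P')
    (hne : P ≠ P') : Nat.card (𝓞 K ⧸ P) = q := by
  have hb : ∀ P : Ideal (𝓞 K), ((q : ℕ) : 𝓞 K) ∈ P → P ≠ ⊥ := by
    rintro P hP rfl
    rw [Ideal.mem_bot] at hP
    exact hq.ne_zero (by exact_mod_cast hP)
  have hPm := hP.isMaximal (hb P h)
  have hPm' := hP'.isMaximal (hb P' h')
  have h1 : P ⊔ P' = ⊤ := Ideal.IsMaximal.coprime_of_ne hPm hPm' hne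
  have h2 : ((q : ℕ) : 𝓞 K) ∈ P * P' := by
    rw [Ideal.mul_eq_inf_of_coprime h1]
    exact ⟨h, h'⟩
  have h3 : Ideal.absNorm (P * P') ∣ Ideal.absNorm (Ideal.span {((q : ℕ) : 𝓞 K)}) :=
    Ideal.absNorm_dvd_absNorm_of_le ((Ideal.span_singleton_le_iff_mem _).2 h2)
  rw [Ideal.absNorm_span_natCast, RingOfIntegers.rank, hK, map_mul] at h3
  have h4 : Ideal.absNorm P ≠ 1 := fun h => hP.ne_top (Ideal.absNorm_eq_one_iff.1 h)
  have h5 : Ideal.absNorm P' ≠ 1 := fun h => hP'.ne_top (Ideal.absNorm_eq_one_iff.1 h)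
  obtain ⟨i, hi, hi'⟩ := (Nat.dvd_prime_pow hq).1 ((Dvd.intro _ rfl).trans h3)
  obtain ⟨j, hj, hj'⟩ := (Nat.dvd_prime_pow hq).1 ((Dvd.intro_left _ rfl).trans h3)
  rw [hi', hj', ← pow_add, Nat.pow_dvd_pow_iff_le_right hq.one_lt] at h3
  have hi0 : i ≠ 0 := by
    rintro rfl
    exact h4 (by rw [hi', pow_zero])
  have hj0 : j ≠ 0 := by
    rintro rfl
    exact h5 (by rw [hj', pow_zero])
  have hi1 : i = 1 := by omega
  have h6 : Ideal.absNorm P = q := by rw [hi', hi1, pow_one]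
  rw [← h6, Ideal.absNorm_apply]
  rfl

/-- the `p`-th power map is injective in a residue field whose multiplicative group has order
prime to `p` -/
theorem root_one {p : ℕ} (hp : p.Prime) (hp2 : p ≠ 2) {x y z : 𝓞 K} (hs : x ^ p + y ^ p + z ^ p = 0)
    (P : Ideal (𝓞 K)) (hP : P.IsPrime) (hP0 : P ≠ ⊥) (hz : z ∈ P) (hy : y ∉ P)
    (hc : Nat.card (𝓞 K ⧸ P) % p ≠ 1) : x + y ∈ P := by
  have hodd : Odd p := hp.odd_of_ne_two hp2
  have hPm := hP.isMaximal hP0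
  let _ : Field (𝓞 K ⧸ P) := Ideal.Quotient.field P
  haveI : Finite (𝓞 K ⧸ P) := Ideal.finiteQuotientOfFreeOfNeBot P hP0
  haveI : Fintype (𝓞 K ⧸ P) := Fintype.ofFinite _
  haveI hfact : Fact p.Prime := ⟨hp⟩
  set u := Ideal.Quotient.mk P x with hu
  set v := Ideal.Quotient.mk P y with hv
  have hv0 : v ≠ 0 := fun h => hy (Ideal.Quotient.eq_zero_iff_mem.1 h)
  have h1 : u ^ p + v ^ p = 0 := by
    have := congrArg (Ideal.Quotient.mk P) hs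
    rw [map_add, map_add, map_pow, map_pow, map_pow, map_zero,
      Ideal.Quotient.eq_zero_iff_mem.2 hz, zero_pow hp.ne_zero, add_zero] at this
    exact this
  have h2 : (-u / v) ^ p = 1 := by
    rw [div_pow, hodd.neg_pow, div_eq_one_iff_eq (pow_ne_zero _ hv0)]
    linear_combination -h1
  have h3 : -u / v = 1 := by
    by_contra hne
    have h4 : orderOf (-u / v) = p := orderOf_eq_prime h2 hne
    have h5 : p ∣ Fintype.card (𝓞 K ⧸ P) - 1 := by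
      rw [← h4]
      apply orderOf_dvd_of_pow_eq_one
      apply FiniteField.pow_card_sub_one_eq_one
      intro h0
      rw [h0, zero_pow hp.ne_zero] at h2
      exact zero_ne_one h2
    apply hc
    rw [Nat.card_eq_fintype_card]
    have h6 : 1 ≤ Fintype.card (𝓞 K ⧸ P) := Fintype.card_pos
    obtain ⟨k, hk⟩ := h5
    have h7 : Fintype.card (𝓞 K ⧸ P) = 1 + p * k := by omega
    rw [h7, Nat.add_mul_mod_self_left, Nat.mod_eq_of_lt hp.one_lt]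
  rw [← Ideal.Quotient.eq_zero_iff_mem, map_add]
  rw [div_eq_one_iff_eq hv0] at h3
  rw [← hu, ← hv]
  linear_combination -h3

end

section

variable {p : ℕ} [Fact p.Prime] {E : Type} [Field E] [NumberField E]
  {K N : Type} [Field K] [NumberField K] [Field N] [NumberField N]

/-- not all primes above `q` divide `x`: quadratic fields -/
theorem part1 (hK : Module.finrank ℚ K = 2) (σ : 𝓞 K →+* 𝓞 K)
    (hN : ∀ a : 𝓞 K, ((Algebra.norm ℤ a : ℤ) : 𝓞 K) = a * σ a)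
    (hT : ∀ a : 𝓞 K, ((Algebra.trace ℤ (𝓞 K) a : ℤ) : 𝓞 K) = a + σ a)
    (h5 : 5 ≤ p) {q : ℕ} (hq : q.Prime) (hqp : q ≠ p)
    (hW : ¬ p ^ 2 ∣ q ^ (p - 1) - 1) (c : Cyc p E) (i : E →+* N) (hD : Dn p E N i)
    (hcard : Nat.card (K →+* N) = Module.finrank ℚ K)
    {x y z : 𝓞 K} (hs : Sol p K x y z)
    (hn : ∀ P : Ideal (𝓞 K), P.IsPrime → ((q : ℕ) : 𝓞 K) ∈ P → ¬ (x ∈ P ∧ y ∈ P ∧ z ∈ P))
    (hx : ∀ P : Ideal (𝓞 K), P.IsPrime → ((q : ℕ) : 𝓞 K) ∈ P → x ∈ P) : False := by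
  have hpp : p.Prime := Fact.out
  have hp2 : p ≠ 2 := by omega
  obtain ⟨Q, hQ, hqQ⟩ := exists_above (K := N) q hq
  have h2 : ∀ P : Ideal (𝓞 K), P.IsPrime → ((q : ℕ) : 𝓞 K) ∈ P → y ∉ P ∧ z ∉ P := fun P hP hqP =>
    two_of hpp hs.eq hP (hn P hP hqP) (hx P hP hqP)
  have g1 : Good q K x y := fun P hP hqP => Or.inl ⟨hx P hP hqP, (h2 P hP hqP).1⟩
  have g3 : Good q K z x := fun P hP hqP => Or.inr (Or.inl ⟨(h2 P hP hqP).2, hx P hP hqP⟩)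
  have e1 := pair hK σ hN hT hp2 hq hqp hW c i hD hcard Q hQ hqQ hs g1
  have e3 := pair hK σ hN hT hp2 hq hqp hW c i hD hcard Q hQ hqQ hs.rot.rot g3
  have ca := cnt_all (q := q) hcard Q hQ hqQ hx
  have cb := cnt_none (q := q) (N := N) Q hQ hqQ fun P hP hqP => (h2 P hP hqP).1
  have cc := cnt_none (q := q) (N := N) Q hQ hqQ fun P hP hqP => (h2 P hP hqP).2
  rw [ca, cb, hK] at e1
  rw [ca, cc, hK] at e3
  have hAn := norm_ncp hpp σ hN fun P hP hpP => (hs.cp P hP hpP).1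
  have hA : ((Algebra.norm ℤ x : ℤ) : ZMod p) ≠ 0 := fun h0 =>
    hAn ((ZMod.intCast_zmod_eq_zero_iff_dvd _ p).1 h0)
  have t2 := two_ne h5
  push_cast at e1 e3
  apply hA
  have e4 : (2 : ZMod p) * (2 * ((Algebra.norm ℤ x : ℤ) : ZMod p)) = 0 := by
    linear_combination e1 - e3
  rcases mul_eq_zero.1 e4 with e5 | e5
  · exact absurd e5 t2
  · exact (mul_eq_zero.1 e5).resolve_left t2

/-- the classification -/
theorem cls (hK : Module.finrank ℚ K = 2) (σ : 𝓞 K →+* 𝓞 K)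
    (hN : ∀ a : 𝓞 K, ((Algebra.norm ℤ a : ℤ) : 𝓞 K) = a * σ a)
    (hT : ∀ a : 𝓞 K, ((Algebra.trace ℤ (𝓞 K) a : ℤ) : 𝓞 K) = a + σ a)
    (h5 : 5 ≤ p) {q : ℕ} (hq : q.Prime) (hqp : q ≠ p)
    (hW : ¬ p ^ 2 ∣ q ^ (p - 1) - 1) (c : Cyc p E) (i : E →+* N) (hD : Dn p E N i)
    (hcard : Nat.card (K →+* N) = Module.finrank ℚ K)
    (Q : Ideal (𝓞 N)) (hQ : Q.IsPrime) (hqQ : ((q : ℕ) : 𝓞 N) ∈ Q)
    {x y z : 𝓞 K} (hs : Sol p K x y z)
    (hn : ∀ P : Ideal (𝓞 K), P.IsPrime → ((q : ℕ) : 𝓞 K) ∈ P → ¬ (x ∈ P ∧ y ∈ P ∧ z ∈ P))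
    (g1 : Good q K x y) (g2 : Good q K y z) (g3 : Good q K z x) :
    ∃ (D : ZMod p) (m : ℤ), D = (m : ZMod p) ^ 2 * (NumberField.discr K : ℤ) ∧
    ((cnt (K := K) Q x + cnt (K := K) Q y + cnt (K := K) Q z = 0 ∧
      ∃ s : ZMod p, s ≠ 0 ∧ D = -3 * s ^ 2) ∨
    (cnt (K := K) Q x + cnt (K := K) Q y + cnt (K := K) Q z = 1 ∧
      ∃ s : ZMod p, s ≠ 0 ∧ D = -7 * s ^ 2) ∨
    (cnt (K := K) Q x + cnt (K := K) Q y + cnt (K := K) Q z = 2 ∧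
      ∃ s : ZMod p, s ≠ 0 ∧ D = -15 * s ^ 2)) := by
  have hpp : p.Prime := Fact.out
  have hp2 : p ≠ 2 := by omega
  have e1 := pair hK σ hN hT hp2 hq hqp hW c i hD hcard Q hQ hqQ hs g1
  have e2 := pair hK σ hN hT hp2 hq hqp hW c i hD hcard Q hQ hqQ hs.rot g2
  have e3 := pair hK σ hN hT hp2 hq hqp hW c i hD hcard Q hQ hqQ hs.rot.rot g3
  have hz : ∀ w : 𝓞 K, (∀ P : Ideal (𝓞 K), P.IsPrime → ((p : ℕ) : 𝓞 K) ∈ P → w ∉ P) →
      ((Algebra.norm ℤ w : ℤ) : ZMod p) ≠ 0 := fun w hw h0 =>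
    norm_ncp hpp σ hN hw ((ZMod.intCast_zmod_eq_zero_iff_dvd _ p).1 h0)
  have hsum := (cnt_sum (q := q) hcard Q hQ hqQ (x := x) (y := y) (z := z) (by
    intro P hP hqP
    refine ⟨fun h => ?_, fun h => ?_, fun h => ?_⟩
    · exact (two_of hpp hs.eq hP (hn P hP hqP) h.1).1 h.2
    · refine (two_of hpp hs.rot.eq hP (fun hh => hn P hP hqP ⟨hh.2.2, hh.1, hh.2.1⟩) h.1).1 h.2
    · exact (two_of hpp hs.eq hP (hn P hP hqP) h.1).2 h.2)).1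
  rw [hK] at hsum
  obtain ⟨m, hm⟩ := dsc hK σ hN hT hs
  refine ⟨_, m, hm, ?_⟩
  exact classify h5 _ _ _ (hz x fun P hP hpP => (hs.cp P hP hpP).1)
    (hz y fun P hP hpP => (hs.cp P hP hpP).2.1) (hz z fun P hP hpP => (hs.cp P hP hpP).2.2)
    _ _ _ hsum e1 e2 e3

/-- at all primes above `q` the three pairs are as needed if each of them divides one of the three
numbers: quadratic fields -/
theorem goods (hK : Module.finrank ℚ K = 2) (σ : 𝓞 K →+* 𝓞 K)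
    (hN : ∀ a : 𝓞 K, ((Algebra.norm ℤ a : ℤ) : 𝓞 K) = a * σ a)
    (hT : ∀ a : 𝓞 K, ((Algebra.trace ℤ (𝓞 K) a : ℤ) : 𝓞 K) = a + σ a)
    (h5 : 5 ≤ p) {q : ℕ} (hq : q.Prime) (hqp : q ≠ p)
    (hW : ¬ p ^ 2 ∣ q ^ (p - 1) - 1) (c : Cyc p E) (i : E →+* N) (hD : Dn p E N i)
    (hcard : Nat.card (K →+* N) = Module.finrank ℚ K)
    {x y z : 𝓞 K} (hs : Sol p K x y z)
    (hn : ∀ P : Ideal (𝓞 K), P.IsPrime → ((q : ℕ) : 𝓞 K) ∈ P → ¬ (x ∈ P ∧ y ∈ P ∧ z ∈ P))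
    (hq1 : q % p ≠ 1)
    (hx : ∀ P : Ideal (𝓞 K), P.IsPrime → ((q : ℕ) : 𝓞 K) ∈ P → x ∈ P ∨ y ∈ P ∨ z ∈ P) :
    Good q K x y ∧ Good q K y z ∧ Good q K z x := by
  have hpp : p.Prime := Fact.out
  have hp2 : p ≠ 2 := by omega
  have hn2 : ∀ P : Ideal (𝓞 K), P.IsPrime → ((q : ℕ) : 𝓞 K) ∈ P → ¬ (y ∈ P ∧ z ∈ P ∧ x ∈ P) :=
    fun P hP hqP hh => hn P hP hqP ⟨hh.2.2, hh.1, hh.2.1⟩
  have hn3 : ∀ P : Ideal (𝓞 K), P.IsPrime → ((q : ℕ) : 𝓞 K) ∈ P → ¬ (z ∈ P ∧ x ∈ P ∧ y ∈ P) :=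
    fun P hP hqP hh => hn P hP hqP ⟨hh.2.1, hh.2.2, hh.1⟩
  have p1 := part1 hK σ hN hT h5 hq hqp hW c i hD hcard hs hn
  have p2 := part1 hK σ hN hT h5 hq hqp hW c i hD hcard hs.rot hn2
  have p3 := part1 hK σ hN hT h5 hq hqp hW c i hD hcard hs.rot.rot hn3
  -- two primes
  have hb : ∀ P : Ideal (𝓞 K), ((q : ℕ) : 𝓞 K) ∈ P → P ≠ ⊥ := by
    rintro P hP rfl
    rw [Ideal.mem_bot] at hP
    exact hq.ne_zero (by exact_mod_cast hP)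
  obtain ⟨P1, hP1, hq1', hx1⟩ : ∃ P : Ideal (𝓞 K), P.IsPrime ∧ ((q : ℕ) : 𝓞 K) ∈ P ∧ x ∉ P := by
    by_contra hcon
    push Not at hcon
    exact p1 hcon
  obtain ⟨P2, hP2, hq2', hx2⟩ : ∃ P : Ideal (𝓞 K), P.IsPrime ∧ ((q : ℕ) : 𝓞 K) ∈ P ∧ y ∉ P := by
    by_contra hcon
    push Not at hcon
    exact p2 hcon
  obtain ⟨P3, hP3, hq3', hx3⟩ : ∃ P : Ideal (𝓞 K), P.IsPrime ∧ ((q : ℕ) : 𝓞 K) ∈ P ∧ z ∉ P := by
    by_contra hcon
    push Not at hcon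
    exact p3 hcon
  have hres : ∀ P : Ideal (𝓞 K), P.IsPrime → ((q : ℕ) : 𝓞 K) ∈ P →
      Nat.card (𝓞 K ⧸ P) % p ≠ 1 := by
    intro P hP hqP
    have : ∃ P' : Ideal (𝓞 K), P'.IsPrime ∧ ((q : ℕ) : 𝓞 K) ∈ P' ∧ P ≠ P' := by
      by_contra hcon
      push Not at hcon
      have u1 := hcon P1 hP1 hq1'
      have u2 := hcon P2 hP2 hq2'
      have u3 := hcon P3 hP3 hq3'
      subst u1
      subst u2
      subst u3
      rcases hx _ hP1 hq1' with h | h | h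
      · exact hx1 h
      · exact hx2 h
      · exact hx3 h
    obtain ⟨P', hP', hqP', hne⟩ := this
    rw [card_of_ne hK hq P P' hP hP' hqP hqP' hne]
    exact hq1
  have hgood : ∀ {x y z : 𝓞 K}, Sol p K x y z →
      (∀ P : Ideal (𝓞 K), P.IsPrime → ((q : ℕ) : 𝓞 K) ∈ P → ¬ (x ∈ P ∧ y ∈ P ∧ z ∈ P)) →
      (∀ P : Ideal (𝓞 K), P.IsPrime → ((q : ℕ) : 𝓞 K) ∈ P → x ∈ P ∨ y ∈ P ∨ z ∈ P) →
      Good q K x y := by
    intro x y z hs hn hx P hP hqP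
    have hs' : z ^ p + x ^ p + y ^ p = 0 := hs.rot.rot.eq
    have hs'' : y ^ p + z ^ p + x ^ p = 0 := hs.rot.eq
    rcases hx P hP hqP with h | h | h
    · exact Or.inl ⟨h, (two_of hpp hs.eq hP (hn P hP hqP) h).1⟩
    · refine Or.inr (Or.inl ⟨?_, h⟩)
      exact (two_of hpp hs'' hP (fun hh => hn P hP hqP ⟨hh.2.2, hh.1, hh.2.1⟩) h).2
    · have h1 := two_of hpp hs' hP (fun hh => hn P hP hqP ⟨hh.2.1, hh.2.2, hh.1⟩) h
      refine Or.inr (Or.inr ⟨h1.1, h1.2, Or.inl ?_⟩)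
      exact root_one hpp hp2 hs.eq P hP (hb P hqP) h h1.2 (hres P hP hqP)
  have hx' : ∀ P : Ideal (𝓞 K), P.IsPrime → ((q : ℕ) : 𝓞 K) ∈ P → y ∈ P ∨ z ∈ P ∨ x ∈ P := by
    intro P hP hqP
    have := hx P hP hqP
    tauto
  have hx'' : ∀ P : Ideal (𝓞 K), P.IsPrime → ((q : ℕ) : 𝓞 K) ∈ P → z ∈ P ∨ x ∈ P ∨ y ∈ P := by
    intro P hP hqP
    have := hx P hP hqP
    tauto
  exact ⟨hgood hs hn hx, hgood hs.rot hn2 hx', hgood hs.rot.rot hn3 hx''⟩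

end

end Pool.Agent.Q290.FW
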