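import Pool.Agent.Q290.FW.FurtM

/-!
# The criterion of Mirimanoff over quadratic fields
-/

set_option autoImplicit false
set_option linter.all false

namespace Pool.Agent.Q290.FW

open NumberField IsDedekindDomain Polynomial Pool.Agent.Y546.WQ Pool.Agent.Y546

section

variable {K : Type} [Field K] [NumberField K]

/-- an integer congruent to a rational integer modulo a prime above three -/
theorem cube_int {P : Ideal (𝓞 K)} (h3 : ((3 : ℕ) : 𝓞 K) ∈ P) {w : 𝓞 K} {k : ℤ}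
    (h : w - (k : 𝓞 K) ∈ P) : w ^ 3 - w ∈ P := by
  obtain ⟨l, hl⟩ : ∃ l : ℤ, k ^ 3 - k = 3 * l := by
    have h1 : (3 : ℤ) ∣ k ^ 3 - k := by
      rcases (by omega : k % 3 = 0 ∨ k % 3 = 1 ∨ k % 3 = 2) with h | h | h
      all_goals
        apply Int.dvd_of_emod_eq_zero
        rw [Int.sub_emod, pow_succ, pow_succ, pow_one, Int.mul_emod, Int.mul_emod k k, h]
        norm_num
    exact h1
  have hl' : (k : 𝓞 K) ^ 3 - (k : 𝓞 K) = 3 * (l : 𝓞 K) := by exact_mod_cast hl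
  have e : w ^ 3 - w = (w ^ 2 + w * k + (k : 𝓞 K) ^ 2 - 1) * (w - k) + (l : 𝓞 K) * ((3 : ℕ) : 𝓞 K) := by
    push_cast
    linear_combination hl'
  rw [e]
  exact P.add_mem (P.mul_mem_left _ h) (P.mul_mem_left _ h3)

/-- all integers are congruent to rational integers modulo a prime above three -/
theorem int_three (hK : Module.finrank ℚ K = 2) (σ : 𝓞 K →+* 𝓞 K)
    (hN : ∀ a : 𝓞 K, ((Algebra.norm ℤ a : ℤ) : 𝓞 K) = a * σ a)
    (hT : ∀ a : 𝓞 K, ((Algebra.trace ℤ (𝓞 K) a : ℤ) : 𝓞 K) = a + σ a)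
    (hd : NumberField.discr K % 3 = 0 ∨ NumberField.discr K % 3 = 1) {P : Ideal (𝓞 K)}
    (hP : P.IsPrime) (h3 : ((3 : ℕ) : 𝓞 K) ∈ P) (w : 𝓞 K) :
    (∃ k : ℤ, w - (k : 𝓞 K) ∈ P) ∧ (NumberField.discr K % 3 = 0 →
      w + ((Algebra.trace ℤ (𝓞 K) w : ℤ) : 𝓞 K) ∈ P) := by
  obtain ⟨m, hm⟩ := disc_eq hK σ hN hT w
  set t := Algebra.trace ℤ (𝓞 K) w with ht
  set n := Algebra.norm ℤ w with hn
  have e1 : (t : 𝓞 K) = w + σ w := hT w
  have e2 : (n : 𝓞 K) = w * σ w := hN w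
  have e3 : (w + t) ^ 2 = (t * w + n) * ((3 : ℕ) : 𝓞 K) +
      ((m ^ 2 * NumberField.discr K : ℤ) : 𝓞 K) := by
    rw [← hm]
    push_cast
    have e4 : w ^ 2 = t * w - n := by
      rw [e1, e2]
      ring
    linear_combination e4
  have key : NumberField.discr K % 3 = 0 → w + (t : 𝓞 K) ∈ P := by
    intro h0
    obtain ⟨l, hl⟩ : ∃ l : ℤ, NumberField.discr K = 3 * l := Int.dvd_of_emod_eq_zero h0
    apply hP.mem_of_pow_mem 2
    rw [e3, hl]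
    have e5 : ((m ^ 2 * (3 * l) : ℤ) : 𝓞 K) = (m ^ 2 * l : 𝓞 K) * ((3 : ℕ) : 𝓞 K) := by
      push_cast
      ring
    rw [e5]
    exact P.add_mem (P.mul_mem_left _ h3) (P.mul_mem_left _ h3)
  refine ⟨?_, key⟩
  rcases hd with h0 | h1
  · refine ⟨-t, ?_⟩
    push_cast
    rw [sub_neg_eq_add]
    exact key h0
  · obtain ⟨l, hl⟩ : ∃ l : ℤ, NumberField.discr K = 3 * l + 1 := ⟨NumberField.discr K / 3, by omega⟩
    have e6 : (w + t - m) * (w + t + m) ∈ P := by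
      have e7 : (w + t - m) * (w + t + m) = (t * w + n + m ^ 2 * l) * ((3 : ℕ) : 𝓞 K) := by
        have e8 := e3
        rw [hl] at e8
        push_cast at e8 ⊢
        linear_combination e8
      rw [e7]
      exact P.mul_mem_left _ h3
    rcases hP.mem_or_mem e6 with h | h
    · refine ⟨m - t, ?_⟩
      push_cast
      have e : w - ((m : 𝓞 K) - t) = w + t - m := by ring
      rw [e]
      exact h
    · refine ⟨-m - t, ?_⟩
      push_cast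
      have e : w - (-(m : 𝓞 K) - t) = w + t + m := by ring
      rw [e]
      exact h

/-- there is one prime above three if three ramifies -/
theorem uniq_three (hK : Module.finrank ℚ K = 2) (σ : 𝓞 K →+* 𝓞 K)
    (hN : ∀ a : 𝓞 K, ((Algebra.norm ℤ a : ℤ) : 𝓞 K) = a * σ a)
    (hT : ∀ a : 𝓞 K, ((Algebra.trace ℤ (𝓞 K) a : ℤ) : 𝓞 K) = a + σ a)
    (hd : NumberField.discr K % 3 = 0) {P P' : Ideal (𝓞 K)}
    (hP : P.IsPrime) (h3 : ((3 : ℕ) : 𝓞 K) ∈ P) (hP' : P'.IsPrime) (h3' : ((3 : ℕ) : 𝓞 K) ∈ P')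
    {w : 𝓞 K} (hw : w ∈ P) : w ∈ P' := by
  have h1 := (int_three hK σ hN hT (Or.inl hd) hP h3 w).2 hd
  have h2 := (int_three hK σ hN hT (Or.inl hd) hP' h3' w).2 hd
  have h4 : ((Algebra.trace ℤ (𝓞 K) w : ℤ) : 𝓞 K) ∈ P := (Ideal.add_mem_iff_right P hw).1 h1
  have h5 : (3 : ℤ) ∣ Algebra.trace ℤ (𝓞 K) w := by
    by_contra hcon
    exact int_notMem P hP 3 Nat.prime_three h3 _ (by exact_mod_cast hcon) h4
  obtain ⟨l, hl⟩ := h5
  have h6 : ((Algebra.trace ℤ (𝓞 K) w : ℤ) : 𝓞 K) ∈ P' := by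
    rw [hl]
    have e : ((3 * l : ℤ) : 𝓞 K) = (l : 𝓞 K) * ((3 : ℕ) : 𝓞 K) := by
      push_cast
      ring
    rw [e]
    exact P'.mul_mem_left _ h3'
  exact (Ideal.add_mem_iff_left P' h6).1 h2

/-- the pairs at three -/
theorem good_three {p : ℕ} (hp : p.Prime) (hcube : ∀ P : Ideal (𝓞 K), P.IsPrime →
      ((3 : ℕ) : 𝓞 K) ∈ P → ∀ w : 𝓞 K, w ^ 3 - w ∈ P) {x y z : 𝓞 K}
    (hs : x ^ p + y ^ p + z ^ p = 0)
    (hn : ∀ P : Ideal (𝓞 K), P.IsPrime → ((3 : ℕ) : 𝓞 K) ∈ P → ¬ (x ∈ P ∧ y ∈ P ∧ z ∈ P)) :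
    Good 3 K x y := by
  intro P hP h3
  have hh := two_of hp hs hP (hn P hP h3)
  by_cases hx : x ∈ P
  · exact Or.inl ⟨hx, (hh hx).1⟩
  by_cases hy : y ∈ P
  · exact Or.inr (Or.inl ⟨hx, hy⟩)
  refine Or.inr (Or.inr ⟨hx, hy, ?_⟩)
  have e1 : x * (x ^ 2 - 1) ∈ P := by
    have := hcube P hP h3 x
    have e : x * (x ^ 2 - 1) = x ^ 3 - x := by ring
    rwa [e]
  have e2 : y * (y ^ 2 - 1) ∈ P := by
    have := hcube P hP h3 y
    have e : y * (y ^ 2 - 1) = y ^ 3 - y := by ring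
    rwa [e]
  have e3 := (hP.mem_or_mem e1).resolve_left hx
  have e4 := (hP.mem_or_mem e2).resolve_left hy
  have e5 : (x + y) * (x - y) ∈ P := by
    have e : (x + y) * (x - y) = (x ^ 2 - 1) - (y ^ 2 - 1) := by ring
    rw [e]
    exact P.sub_mem e3 e4
  exact hP.mem_or_mem e5

/-- the criterion of Mirimanoff over quadratic fields -/
theorem miriQ {p : ℕ} (hp : p.Prime) (h11 : 11 ≤ p)
    (hW : ¬ p ^ 2 ∣ 3 ^ (p - 1) - 1) (hK : Module.finrank ℚ K = 2)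
    (h3 : ¬ ∃ r : ZMod p, r ≠ 0 ∧ r ^ 2 = -3 * (NumberField.discr K : ZMod p))
    (hd : NumberField.discr K % 3 = 0 ∨ (NumberField.discr K % 3 = 1 ∧
      (¬ (p : ℤ) ∣ (_root_.bernoulli (p - 3)).num ∨
        ((¬ ∃ r : ZMod p, r ≠ 0 ∧ r ^ 2 = -7 * (NumberField.discr K : ZMod p)) ∧
          ¬ ∃ r : ZMod p, r ≠ 0 ∧ r ^ 2 = -15 * (NumberField.discr K : ZMod p)))))
    {x y z : K} (hx : x ≠ 0) (hy : y ≠ 0) (hz : z ≠ 0) (h : x ^ p + y ^ p + z ^ p = 0)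
    (hv : ∀ v : HeightOneSpectrum (𝓞 K), ((p : ℕ) : 𝓞 K) ∈ v.asIdeal →
      v.valuation K x = v.valuation K y ∧ v.valuation K y = v.valuation K z) : False := by
  have hfact : Fact p.Prime := ⟨hp⟩
  have h7 : 7 ≤ p := by omega
  have hp2 : p ≠ 2 := by omega
  have hq : Nat.Prime 3 := Nat.prime_three
  have hqp : 3 ≠ p := by omega
  obtain ⟨E, _, _, ⟨c⟩⟩ := Y978.WQ.main p hp2
  obtain ⟨N, _, _, i, hcard, hD⟩ := Y258.WQ.mainDOWNG p E c K (by omega)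
  obtain ⟨σ, hN, hT⟩ := SG.exists_conj hK
  obtain ⟨X, Y, Z, hs, hn, -⟩ := prepQ hp hq hx hy hz h hv
  obtain ⟨Q, hQ, hqQ⟩ := exists_above (K := N) 3 hq
  have hcube : ∀ P : Ideal (𝓞 K), P.IsPrime → ((3 : ℕ) : 𝓞 K) ∈ P → ∀ w : 𝓞 K, w ^ 3 - w ∈ P := by
    intro P hP h3P w
    obtain ⟨⟨k, hk⟩, -⟩ := int_three hK σ hN hT (hd.imp id And.left) hP h3P w
    exact cube_int h3P hk
  have hn2 : ∀ P : Ideal (𝓞 K), P.IsPrime → ((3 : ℕ) : 𝓞 K) ∈ P → ¬ (Y ∈ P ∧ Z ∈ P ∧ X ∈ P) :=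
    fun P hP hqP hh => hn P hP hqP ⟨hh.2.2, hh.1, hh.2.1⟩
  have hn3 : ∀ P : Ideal (𝓞 K), P.IsPrime → ((3 : ℕ) : 𝓞 K) ∈ P → ¬ (Z ∈ P ∧ X ∈ P ∧ Y ∈ P) :=
    fun P hP hqP hh => hn P hP hqP ⟨hh.2.1, hh.2.2, hh.1⟩
  have g1 : Good 3 K X Y := good_three hp hcube hs.eq hn
  have g2 : Good 3 K Y Z := good_three hp hcube hs.rot.eq hn2
  have g3 : Good 3 K Z X := good_three hp hcube hs.rot.rot.eq hn3
  obtain ⟨D, m, hD1, hD2⟩ := cls hK σ hN hT (by omega) hq hqp hW c i hD hcard Q hQ hqQ hs hn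
    g1 g2 g3
  have t3 := three_ne (p := p) (by omega)
  have t5 := five_ne (p := p) (by omega) (by omega)
  have fin : (∃ s : ZMod p, s ≠ 0 ∧ D = -3 * s ^ 2) → False := by
    rintro ⟨s, hs0, hs1⟩
    exact h3 (sq_of hD1 hs1 t3 hs0)
  rcases hd with h0 | ⟨h1, h2 | ⟨h7', h15'⟩⟩
  · -- ramified
    have hno : ∀ {x y z : 𝓞 K}, Sol p K x y z →
        (∀ P : Ideal (𝓞 K), P.IsPrime → ((3 : ℕ) : 𝓞 K) ∈ P → ¬ (x ∈ P ∧ y ∈ P ∧ z ∈ P)) →
        cnt (K := K) Q x = 0 := by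
      intro x y z hs hn
      refine cnt_none (q := 3) (N := N) Q hQ hqQ fun P hP h3P hxP => ?_
      exact part1 hK σ hN hT (by omega) hq hqp hW c i hD hcard hs hn fun P' hP' h3P' =>
        uniq_three hK σ hN hT h0 hP h3P hP' h3P' hxP
    have c1 := hno hs hn
    have c2 := hno hs.rot hn2
    have c3 := hno hs.rot.rot hn3
    rcases hD2 with h | h | h
    · exact fin h.2
    · omega
    · omega
  · have hr := reg_three h7 h2
    have e1 := eqQ (by rw [hK]; omega) hq hqp hW c i hD hcard Q hQ hqQ (Or.inl (two_reg hK hr)) hs g1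
    have e2 := eqQ (by rw [hK]; omega) hq hqp hW c i hD hcard Q hQ hqQ (Or.inl (two_reg hK hr))
      hs.rot g2
    rcases hD2 with h | h | h
    · exact fin h.2
    · omega
    · omega
  · rcases hD2 with h | h | h
    · exact fin h.2
    · obtain ⟨-, s, hs0, hs1⟩ := h
      have h7z : (7 : ZMod p) ≠ 0 := by
        intro h0
        have e : ((7 : ℕ) : ZMod p) = 0 := by exact_mod_cast h0
        have := Nat.le_of_dvd (by norm_num) ((ZMod.natCast_eq_zero_iff 7 p).1 e)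
        omega
      exact h7' (sq_of hD1 hs1 h7z hs0)
    · obtain ⟨-, s, hs0, hs1⟩ := h
      have h15 : (15 : ZMod p) ≠ 0 := by
        have : (15 : ZMod p) = 3 * 5 := by norm_num
        rw [this]
        exact mul_ne_zero t3 t5
      exact h15' (sq_of hD1 hs1 h15 hs0)

end

end Pool.Agent.Q290.FW
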