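import Pool.Agent.Q290.FW.FurtM
import Pool.Agent.Y546.WQ.All2

/-!
# Furtwaengler's theorem over number fields
-/

set_option autoImplicit false
set_option linter.all false

namespace Pool.Agent.Q290.FW

open NumberField IsDedekindDomain Polynomial Pool.Agent.Y546.WQ Pool.Agent.Y546

section

variable {K : Type} [Field K] [NumberField K]

/-- the pairs at the primes above `q` if each of them divides one of the three numbers -/
theorem good_res {p : ℕ} (hpp : p.Prime) (hp2 : p ≠ 2) {q : ℕ} (hq : q.Prime) {x y z : 𝓞 K}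
    (hs : x ^ p + y ^ p + z ^ p = 0)
    (hn : ∀ P : Ideal (𝓞 K), P.IsPrime → ((q : ℕ) : 𝓞 K) ∈ P → ¬ (x ∈ P ∧ y ∈ P ∧ z ∈ P))
    (hres : ∀ P : Ideal (𝓞 K), P.IsPrime → ((q : ℕ) : 𝓞 K) ∈ P → Nat.card (𝓞 K ⧸ P) % p ≠ 1)
    (hx : ∀ P : Ideal (𝓞 K), P.IsPrime → ((q : ℕ) : 𝓞 K) ∈ P → x ∈ P ∨ y ∈ P ∨ z ∈ P) :
    Good q K x y := by
  intro P hP hqP
  have hb : P ≠ ⊥ := by
    rintro rfl
    rw [Ideal.mem_bot] at hqP
    exact hq.ne_zero (by exact_mod_cast hqP)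
  have hs' : z ^ p + x ^ p + y ^ p = 0 := by rw [← hs]; ring
  have hs'' : y ^ p + z ^ p + x ^ p = 0 := by rw [← hs]; ring
  rcases hx P hP hqP with h | h | h
  · exact Or.inl ⟨h, (two_of hpp hs hP (hn P hP hqP) h).1⟩
  · refine Or.inr (Or.inl ⟨?_, h⟩)
    exact (two_of hpp hs'' hP (fun hh => hn P hP hqP ⟨hh.2.2, hh.1, hh.2.1⟩) h).2
  · have h1 := two_of hpp hs' hP (fun hh => hn P hP hqP ⟨hh.2.1, hh.2.2, hh.1⟩) h
    refine Or.inr (Or.inr ⟨h1.1, h1.2, Or.inl ?_⟩)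
    exact root_one hpp hp2 hs P hP hb h h1.2 (hres P hP hqP)

/-- Furtwaengler's theorem over number fields -/
theorem furtK {p q : ℕ} (hp : p.Prime) (hq : q.Prime)
    (hreg : (2 * Module.finrank ℚ K + 3 ≤ p ∧ ∀ k ∈ irr p, k + 2 * Module.finrank ℚ K < p) ∨
      Module.finrank ℚ K * (((irr p).card + 1) * ((irr p).card + 2)) + 3 ≤ p)
    (hW : ¬ p ^ 2 ∣ q ^ (p - 1) - 1)
    {x y z : K} (hx : x ≠ 0) (hy : y ≠ 0) (hz : z ≠ 0) (h : x ^ p + y ^ p + z ^ p = 0)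
    (hv : ∀ v : HeightOneSpectrum (𝓞 K), ((p : ℕ) : 𝓞 K) ∈ v.asIdeal →
      v.valuation K x = v.valuation K y ∧ v.valuation K y = v.valuation K z) :
    (∃ v : HeightOneSpectrum (𝓞 K), ((q : ℕ) : 𝓞 K) ∈ v.asIdeal ∧
      v.valuation K y ≤ v.valuation K x) ∧
    ((∀ P : Ideal (𝓞 K), P.IsPrime → ((q : ℕ) : 𝓞 K) ∈ P → Nat.card (𝓞 K ⧸ P) % p ≠ 1) →
      (∀ v : HeightOneSpectrum (𝓞 K), ((q : ℕ) : 𝓞 K) ∈ v.asIdeal →
        ¬ (v.valuation K x = v.valuation K y ∧ v.valuation K y = v.valuation K z)) →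
      3 ∣ Module.finrank ℚ K ∧ ∃ v : HeightOneSpectrum (𝓞 K), ((q : ℕ) : 𝓞 K) ∈ v.asIdeal ∧
        v.valuation K x < v.valuation K y) := by
  have hfact : Fact p.Prime := ⟨hp⟩
  have hm := Module.finrank_pos (R := ℚ) (M := K)
  have h5 : 2 * Module.finrank ℚ K + 3 ≤ p := by
    rcases hreg with h | h
    · exact h.1
    · have e : 2 ≤ ((irr p).card + 1) * ((irr p).card + 2) := by nlinarith [(irr p).card.zero_le]
      have := Nat.mul_le_mul_left (Module.finrank ℚ K) e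
      omega
  have hp2 : p ≠ 2 := by omega
  by_cases hqp : q = p
  · subst hqp
    obtain ⟨P, hP, hqP⟩ := exists_above (K := K) q hq
    obtain ⟨v, rfl⟩ := spec_of hq hP hqP
    exact ⟨⟨v, hqP, (hv v hqP).1.ge⟩, fun _ hno => absurd (hv v hqP) (hno v hqP)⟩
  obtain ⟨E, _, _, ⟨c⟩⟩ := Y978.WQ.main p hp2
  obtain ⟨N, _, _, i, hcard, hD⟩ := Y258.WQ.mainDOWNG p E c K (by omega)
  have hD' : Dn p E N i := hD
  obtain ⟨X, Y, Z, hs, hn, a, ha, hXa, hYa, hZa⟩ := prepQ hp hq hx hy hz h hv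
  obtain ⟨Q, hQ, hqQ⟩ := exists_above (K := N) q hq
  have hreg' : (∀ j, Odd j → 3 ≤ j → j < 2 * Module.finrank ℚ K → Reg p j) ∨ PalK p K := by
    rcases hreg with h | h
    · refine Or.inl fun j hj h3j hjm => ?_
      apply reg_of Y61.WQ.mainBER j hj h3j (by omega)
      intro hk
      have := h.2 _ hk
      omega
    · exact Or.inr (palK aUNITA Y261.WQ.main Y919.WQ.mainLAMA Y290.WQ.mainNORM
        (Y510.WQ.mainPOLBA Y275.WQ.mainCOREA)
        (Y590.WQ.mainPOLE Y780.WQ.mainPOLE1 Y286.WQ.mainPOLE2) Y61.WQ.mainBER c i hD' hcard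
        (Or.inr h))
  have hn2 : ∀ P : Ideal (𝓞 K), P.IsPrime → ((q : ℕ) : 𝓞 K) ∈ P → ¬ (Y ∈ P ∧ Z ∈ P ∧ X ∈ P) :=
    fun P hP hqP hh => hn P hP hqP ⟨hh.2.2, hh.1, hh.2.1⟩
  constructor
  · by_contra hcon
    push Not at hcon
    have hxall : ∀ P : Ideal (𝓞 K), P.IsPrime → ((q : ℕ) : 𝓞 K) ∈ P → X ∈ P := by
      intro P hP hqP
      obtain ⟨v, rfl⟩ := spec_of hq hP hqP
      exact (mem_iff hp hs.eq v (hn _ hP hqP) ha hXa hYa).2 (hcon v hqP)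
    have h2 : ∀ P : Ideal (𝓞 K), P.IsPrime → ((q : ℕ) : 𝓞 K) ∈ P → Y ∉ P :=
      fun P hP hqP => (two_of hp hs.eq hP (hn P hP hqP) (hxall P hP hqP)).1
    have ca := cnt_all (q := q) hcard Q hQ hqQ hxall
    have cb := cnt_none (q := q) (N := N) Q hQ hqQ h2
    have e := eqQ h5 hq hqp hW c i hD' hcard Q hQ hqQ hreg' hs
      fun P hP hqP => Or.inl ⟨hxall P hP hqP, h2 P hP hqP⟩
    omega
  · intro hres hno
    have hall : ∀ P : Ideal (𝓞 K), P.IsPrime → ((q : ℕ) : 𝓞 K) ∈ P → X ∈ P ∨ Y ∈ P ∨ Z ∈ P := by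
      intro P hP hqP
      obtain ⟨v, rfl⟩ := spec_of hq hP hqP
      by_contra hcon
      push Not at hcon
      obtain ⟨n1, n2, n3⟩ := hcon
      exact hno v hqP ⟨val_eq (p := p) v n1 n2 ha hXa hYa, val_eq (p := p) v n2 n3 ha hYa hZa⟩
    have g1 := good_res hp hp2 hq hs.eq hn hres hall
    have g2 := good_res hp hp2 hq hs.rot.eq hn2 hres fun P hP hqP => by
      have := hall P hP hqP
      tauto
    have e1 := eqQ h5 hq hqp hW c i hD' hcard Q hQ hqQ hreg' hs g1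
    have e2 := eqQ h5 hq hqp hW c i hD' hcard Q hQ hqQ hreg' hs.rot g2
    have hsum := (cnt_sum (q := q) hcard Q hQ hqQ (x := X) (y := Y) (z := Z) (by
      intro P hP hqP
      refine ⟨fun h => ?_, fun h => ?_, fun h => ?_⟩
      · exact (two_of hp hs.eq hP (hn P hP hqP) h.1).1 h.2
      · refine (two_of hp hs.rot.eq hP (hn2 P hP hqP) h.1).1 h.2
      · exact (two_of hp hs.eq hP (hn P hP hqP) h.1).2 h.2)).2.1 hall
    refine ⟨⟨cnt (K := K) Q X, by omega⟩, ?_⟩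
    have hpos : 0 < cnt (K := K) Q X := by omega
    unfold cnt at hpos
    obtain ⟨⟨τ, hτ⟩⟩ := (Nat.card_pos_iff.1 hpos).1
    have hP : (Q.comap (RingOfIntegers.mapRingHom τ)).IsPrime := hQ.comap _
    have hqP : ((q : ℕ) : 𝓞 K) ∈ Q.comap (RingOfIntegers.mapRingHom τ) := by
      rw [Ideal.mem_comap, map_natCast]
      exact hqQ
    obtain ⟨v, hvP⟩ := spec_of hq hP hqP
    rw [← hvP] at hP hqP
    refine ⟨v, hqP, (mem_iff hp hs.eq v (hn _ hP hqP) ha hXa hYa).1 ?_⟩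
    rw [hvP]
    exact hτ

end

end Pool.Agent.Q290.FW
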