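import Pool.Agent.Q290.FW.Sec
import Pool.Agent.Q290.FW.Furt
import Pool.Agent.Q290.FW.Nfd
import Pool.Agent.Q290.FW.Miri

/-!
# Quadratic fields: the second case, Furtwängler's theorem
-/

set_option autoImplicit false
set_option linter.all false

namespace Pool.Agent.Q290.FW

open NumberField IsDedekindDomain Pool.Agent.Y546.WQ Pool.Agent.Y546

section

variable {K : Type} [Field K] [NumberField K]

/-- the condition on `q` -/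
def CondQ (q p : ℕ) (d : ℤ) (P : Prop) : Prop :=
  q = 2 ∨ (q = 3 ∧ (d % 3 = 0 ∨ d % 3 = 1)) ∨ (q % p ≠ 1 ∧ P)

theorem secQ {p : ℕ} (hp : p.Prime) (h5 : 5 ≤ p) (hK : Module.finrank ℚ K = 2)
    {q : ℕ} (hq : q.Prime) (hqp : q ≠ p) (hW : ¬ p ^ 2 ∣ q ^ (p - 1) - 1)
    {x y z : 𝓞 K} (hx0 : x ≠ 0) (hy0 : y ≠ 0) (hz0 : z ≠ 0)
    (h : x ^ p + y ^ p + z ^ p = 0)
    (hn : ∀ P : Ideal (𝓞 K), P.IsPrime → ((p : ℕ) : 𝓞 K) ∈ P → x ∉ P ∧ y ∉ P ∧ z ∈ P)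
    (hnq : ∀ P : Ideal (𝓞 K), P.IsPrime → ((q : ℕ) : 𝓞 K) ∈ P → ¬ (x ∈ P ∧ y ∈ P ∧ z ∈ P))
    (hC : CondQ q p (NumberField.discr K)
      (∀ P : Ideal (𝓞 K), P.IsPrime → ((q : ℕ) : 𝓞 K) ∈ P → x ∈ P ∨ y ∈ P ∨ z ∈ P)) :
    ∀ P : Ideal (𝓞 K), P.IsPrime → ((q : ℕ) : 𝓞 K) ∈ P → z ∈ P := by
  have hp2 : p ≠ 2 := by omega
  have main := secO hp h5 hK hq hqp hW hx0 hy0 hz0 h hn hnq
  have hsxz : x ^ p + z ^ p + y ^ p = 0 := by rw [← h]; ring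
  have hnxz : ∀ P : Ideal (𝓞 K), P.IsPrime → ((q : ℕ) : 𝓞 K) ∈ P → ¬ (x ∈ P ∧ z ∈ P ∧ y ∈ P) :=
    fun P hP hqP hh => hnq P hP hqP ⟨hh.1, hh.2.2, hh.2.1⟩
  rcases hC with rfl | ⟨rfl, hd⟩ | ⟨hq1, hx⟩
  · exact main.1 (main.2 rfl)
  · obtain ⟨σ, hN, hT⟩ := SG.exists_conj hK
    have hcube : ∀ P : Ideal (𝓞 K), P.IsPrime → ((3 : ℕ) : 𝓞 K) ∈ P →
        ∀ w : 𝓞 K, w ^ 3 - w ∈ P := by
      intro P hP h3P w
      obtain ⟨⟨k, hk⟩, -⟩ := int_three hK σ hN hT hd hP h3P w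
      exact cube_int h3P hk
    exact main.1 (good_three hp hcube hsxz hnxz)
  · by_cases hres : ∀ P : Ideal (𝓞 K), P.IsPrime → ((q : ℕ) : 𝓞 K) ∈ P →
        Nat.card (𝓞 K ⧸ P) % p ≠ 1
    · refine main.1 (good_res hp hp2 hq hsxz hnxz hres ?_)
      intro P hP hqP
      have := hx P hP hqP
      tauto
    · push Not at hres
      obtain ⟨P₀, hP₀, hqP₀, hc⟩ := hres
      have huniq : ∀ P : Ideal (𝓞 K), P.IsPrime → ((q : ℕ) : 𝓞 K) ∈ P → P = P₀ := by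
        intro P hP hqP
        by_contra hne
        apply hq1
        rw [← card_of_ne hK hq P₀ P hP₀ hP hqP₀ hqP (fun hh => hne hh.symm)]
        exact hc
      rcases hx P₀ hP₀ hqP₀ with h1 | h1 | h1
      · refine main.1 ?_
        intro P hP hqP
        obtain rfl := huniq P hP hqP
        exact Or.inl ⟨h1, (two_of hp hsxz hP (hnxz P hP hqP) h1).1⟩
      · have h' : y ^ p + x ^ p + z ^ p = 0 := by rw [← h]; ring
        have hsyz : y ^ p + z ^ p + x ^ p = 0 := by rw [← h]; ring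
        refine (secO hp h5 hK hq hqp hW hy0 hx0 hz0 h'
          (fun P hP hpP => ⟨(hn P hP hpP).2.1, (hn P hP hpP).1, (hn P hP hpP).2.2⟩)
          (fun P hP hqP hh => hnq P hP hqP ⟨hh.2.1, hh.1, hh.2.2⟩)).1 ?_
        intro P hP hqP
        obtain rfl := huniq P hP hqP
        exact Or.inl ⟨h1, (two_of hp hsyz hP
          (fun hh => hnq P hP hqP ⟨hh.2.2, hh.1, hh.2.1⟩) h1).1⟩
      · intro P hP hqP
        obtain rfl := huniq P hP hqP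
        exact h1

/-- Furtwängler's theorem in the second case -/
theorem secK {p : ℕ} (hp : p.Prime) (h5 : 5 ≤ p) (hK : Module.finrank ℚ K = 2)
    {q : ℕ} (hq : q.Prime) (hW : ¬ p ^ 2 ∣ q ^ (p - 1) - 1)
    {x y z : K} (hx : x ≠ 0) (hy : y ≠ 0) (hz : z ≠ 0)
    (h : x ^ p + y ^ p + z ^ p = 0)
    (hv : ∀ v : HeightOneSpectrum (𝓞 K), ((p : ℕ) : 𝓞 K) ∈ v.asIdeal →
      v.valuation K z < v.valuation K x ∧ v.valuation K z < v.valuation K y)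
    (hC : CondQ q p (NumberField.discr K)
      (∀ w : HeightOneSpectrum (𝓞 K), ((q : ℕ) : 𝓞 K) ∈ w.asIdeal →
        ¬ (w.valuation K x = w.valuation K y ∧ w.valuation K y = w.valuation K z)))
    (w : HeightOneSpectrum (𝓞 K)) (hqw : ((q : ℕ) : 𝓞 K) ∈ w.asIdeal) :
    w.valuation K z < w.valuation K x ∧ w.valuation K z < w.valuation K y := by
  by_cases hqp : q = p
  · subst hqp
    exact hv w hqw
  obtain ⟨X, Y, Z, hX, hY, hZ, hXYZ, hn, a, ha, hXa, hYa, hZa⟩ :=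
    prepM (M := q * p) (mul_ne_zero hq.ne_zero hp.ne_zero) hp (Dvd.intro_left _ rfl) hx hy hz h
  have hmp : ∀ P : Ideal (𝓞 K), ((p : ℕ) : 𝓞 K) ∈ P → ((q * p : ℕ) : 𝓞 K) ∈ P := by
    intro P hP
    rw [Nat.cast_mul]
    exact P.mul_mem_left _ hP
  have hmq : ∀ P : Ideal (𝓞 K), ((q : ℕ) : 𝓞 K) ∈ P → ((q * p : ℕ) : 𝓞 K) ∈ P := by
    intro P hP
    rw [Nat.cast_mul]
    exact P.mul_mem_right _ hP
  have s1 : Z ^ p + X ^ p + Y ^ p = 0 := by rw [← hXYZ]; ring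
  have s2 : Z ^ p + Y ^ p + X ^ p = 0 := by rw [← hXYZ]; ring
  have hne : ∀ (m : ℕ), m ≠ 0 → ∀ P : Ideal (𝓞 K), ((m : ℕ) : 𝓞 K) ∈ P → P ≠ ⊥ := by
    rintro m hm P hP rfl
    rw [Ideal.mem_bot] at hP
    exact hm (by exact_mod_cast hP)
  have hzin : ∀ v : HeightOneSpectrum (𝓞 K), ((q * p : ℕ) : 𝓞 K) ∈ v.asIdeal →
      (Z ∈ v.asIdeal ↔ v.valuation K z < v.valuation K x ∧ v.valuation K z < v.valuation K y) := by
    intro v hm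
    have n0 := hn _ v.isPrime hm
    constructor
    · intro hh
      exact ⟨(mem_iff hp s1 v (fun k => n0 ⟨k.2.1, k.2.2, k.1⟩) ha hZa hXa).1 hh,
        (mem_iff hp s2 v (fun k => n0 ⟨k.2.2, k.2.1, k.1⟩) ha hZa hYa).1 hh⟩
    · intro hh
      exact (mem_iff hp s1 v (fun k => n0 ⟨k.2.1, k.2.2, k.1⟩) ha hZa hXa).2 hh.1
  rw [← hzin w (hmq _ hqw)]
  refine secQ hp h5 hK hq hqp hW hX hY hZ hXYZ ?_ (fun P hP hqP => hn P hP (hmq P hqP)) ?_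
    w.asIdeal w.isPrime hqw
  · intro P hP hpP
    have hz1 : Z ∈ P := (hzin ⟨P, hP, hne p hp.ne_zero P hpP⟩ (hmp P hpP)).2
      (hv ⟨P, hP, hne p hp.ne_zero P hpP⟩ hpP)
    have h2 := two_of hp s1 hP (fun k => hn P hP (hmp P hpP) ⟨k.2.1, k.2.2, k.1⟩) hz1
    exact ⟨h2.1, h2.2, hz1⟩
  · rcases hC with h1 | h1 | ⟨h1, h2⟩
    · exact Or.inl h1
    · exact Or.inr (Or.inl h1)
    · refine Or.inr (Or.inr ⟨h1, fun P hP hqP => ?_⟩)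
      have h3 := h2 ⟨P, hP, hne q hq.ne_zero P hqP⟩ hqP
      rw [eqv hp hXYZ ⟨P, hP, hne q hq.ne_zero P hqP⟩ (hn P hP (hmq P hqP)) ha hXa hYa hZa] at h3
      simp only at h3
      tauto

end

end Pool.Agent.Q290.FW
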