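import Pool.Agent.Q290.FW.Cross
import Pool.Agent.Q290.FW.Sec2

/-!
# Quadratic fields: crossed solutions

Two of the three numbers are divisible by different primes above `p`.
-/

set_option autoImplicit false
set_option linter.all false

namespace Pool.Agent.Q290.FW

open NumberField IsDedekindDomain Polynomial Pool.Agent.Y546.WQ Pool.Agent.Y546

section

variable {K : Type} [Field K] [NumberField K]

/-- if a pair is not good at two then all norms are odd -/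
theorem bad_par {p : ℕ} (hpp : p.Prime) (h5 : 5 ≤ p)
    (hK : Module.finrank ℚ K = 2) (σ : 𝓞 K →+* 𝓞 K)
    (hN : ∀ a : 𝓞 K, ((Algebra.norm ℤ a : ℤ) : 𝓞 K) = a * σ a)
    (hT : ∀ a : 𝓞 K, ((Algebra.trace ℤ (𝓞 K) a : ℤ) : 𝓞 K) = a + σ a)
    {X Y Z : 𝓞 K} (s : X ^ p + Y ^ p + Z ^ p = 0)
    (hn : ∀ P : Ideal (𝓞 K), P.IsPrime → ((2 : ℕ) : 𝓞 K) ∈ P → ¬ (X ∈ P ∧ Y ∈ P ∧ Z ∈ P))
    (hG : ¬ Good 2 K X Y) :
    Odd (Algebra.norm ℤ X) ∧ Odd (Algebra.norm ℤ Y) ∧ Odd (Algebra.norm ℤ (X + Y)) := by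
  unfold Good at hG
  push Not at hG
  obtain ⟨P, hP, h2P, g1, g2, g3⟩ := hG
  have h2P' : (2 : 𝓞 K) ∈ P := by exact_mod_cast h2P
  have hlin : ∀ R : Ideal (𝓞 K), R.IsPrime → ((2 : ℕ) : 𝓞 K) ∈ R → X + Y + Z ∈ R := by
    intro R hR h2R
    have h2R' : (2 : 𝓞 K) ∈ R := by exact_mod_cast h2R
    exact lin_2 hpp h5 R hR h2R' (pow_four σ hN hT R hR h2R') s
  have hXP : X ∉ P := by
    intro h
    exact (two_of hpp s hP (hn P hP h2P) h).1 (g1 h)
  have hYP : Y ∉ P := g2 hXP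
  obtain ⟨g4, g5⟩ := g3 hXP hYP
  have hb : ∀ R : Ideal (𝓞 K), ((2 : ℕ) : 𝓞 K) ∈ R → R ≠ ⊥ := by
    rintro R hR rfl
    rw [Ideal.mem_bot] at hR
    exact two_ne_zero (α := 𝓞 K) (by exact_mod_cast hR)
  have huniq : ∀ R : Ideal (𝓞 K), R.IsPrime → ((2 : ℕ) : 𝓞 K) ∈ R → R = P := by
    intro R hR h2R
    by_contra hne
    have hcard := card_of_ne hK Nat.prime_two P R hP hR h2P h2R (fun h => hne h.symm)
    have hPm := hP.isMaximal (hb P h2P)
    let _ : Field (𝓞 K ⧸ P) := Ideal.Quotient.field P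
    haveI : Finite (𝓞 K ⧸ P) := Ideal.finiteQuotientOfFreeOfNeBot P (hb P h2P)
    haveI : Fintype (𝓞 K ⧸ P) := Fintype.ofFinite _
    have h1 : ∀ w : 𝓞 K, w ∉ P → Ideal.Quotient.mk P w = 1 := by
      intro w hw
      have h0 : Ideal.Quotient.mk P w ≠ 0 := fun h => hw (Ideal.Quotient.eq_zero_iff_mem.1 h)
      have := FiniteField.pow_card_sub_one_eq_one (Ideal.Quotient.mk P w) h0
      rw [← Nat.card_eq_fintype_card, hcard] at this
      simpa using this
    apply g5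
    rw [← Ideal.Quotient.eq_zero_iff_mem, map_sub, h1 X hXP, h1 Y hYP, sub_self]
  have hodd : ∀ w : 𝓞 K, w ∉ P → Odd (Algebra.norm ℤ w) := by
    intro w hw
    rw [← Int.not_even_iff_odd, even_iff_two_dvd]
    have := norm_odd Nat.prime_two σ hN (w := w) (fun R hR h2R => by rw [huniq R hR h2R]; exact hw)
    exact_mod_cast this
  exact ⟨hodd X hXP, hodd Y hYP, hodd (X + Y) g4⟩

variable {p : ℕ} [Fact p.Prime] {E : Type} [Field E] [NumberField E]
  {N : Type} [Field N] [NumberField N]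

/-- the numbers of conjugates for a pair whose third number is divisible by some prime above `p` -/
theorem crossG (h5 : 5 ≤ p) (hK : Module.finrank ℚ K = 2) {q : ℕ} (hq : q.Prime) (hqp : q ≠ p)
    (hW : ¬ p ^ 2 ∣ q ^ (p - 1) - 1) (c : Cyc p E) (i : E →+* N) (hD : Dn p E N i)
    (hcard : Nat.card (K →+* N) = Module.finrank ℚ K)
    (Q : Ideal (𝓞 N)) (hQ : Q.IsPrime) (hqQ : ((q : ℕ) : 𝓞 N) ∈ Q)
    {x y z : 𝓞 K} (hx : x ≠ 0) (hy : y ≠ 0) (hz : z ≠ 0) (h : x ^ p + y ^ p + z ^ p = 0)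
    (hx0 : (p : ℤ) ∣ Algebra.norm ℤ x) (hy0 : ¬ (p : ℤ) ∣ Algebra.norm ℤ y)
    (hxy : (p : ℤ) ∣ Algebra.norm ℤ (x + y)) (hG : Good q K x y) :
    ((cnt (K := K) Q x : ℕ) : ZMod p) = ((cnt (K := K) Q y + 1 : ℕ) : ZMod p) := by
  haveI hqf : Fact q.Prime := ⟨hq⟩
  obtain ⟨f, hdeg, hc0, hcm, hev, hf'⟩ := Y290.WQ.mainNORM K x y
  have hf := hf' N hcard
  obtain ⟨ε, hε, hloc⟩ := loc hq hcard Q hQ hqQ hG f hf
  have hcop := cop (by omega) hq hqp c i hG f hf
  rw [hK] at hdeg hcm hloc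
  have h1 : f.eval 1 = Algebra.norm ℤ (x + y) := by
    have h2 := hev 1
    rwa [Int.cast_one, one_mul] at h2
  have h2 : f.eval 1 = f.coeff 0 + f.coeff 1 + f.coeff 2 := by
    conv_lhs => rw [as_sum_range_C_mul_X_pow' f (Nat.lt_succ_of_le hdeg)]
    rw [Finset.sum_range_succ, Finset.sum_range_succ, Finset.sum_range_one]
    simp
  have hg1 : ¬ (p : ℤ) ∣ f.coeff 1 + 2 * f.coeff 2 := by
    intro hh
    apply hy0
    have e : Algebra.norm ℤ y = (f.coeff 1 + 2 * f.coeff 2) - Algebra.norm ℤ (x + y) +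
        Algebra.norm ℤ x := by
      rw [← h1, h2, hc0, hcm]
      ring
    rw [e]
    exact dvd_add (dvd_sub hh hxy) hx0
  have key := crossL h5 hq hqp hW c i hD hx hy hz h f hf hdeg (by rw [h1]; exact hxy) hg1
    (cnt (K := K) Q x) (cnt (K := K) Q y) ε hε (fun F _ _ t ht =>
      refl_val (q := q) f 2 _ _ ε hdeg hloc t ht) hcop
  have z1 := (ZMod.intCast_zmod_eq_zero_iff_dvd _ p).2 hx0
  have z2 := (ZMod.intCast_zmod_eq_zero_iff_dvd _ p).2 hxy
  have z3 : ((Algebra.norm ℤ y : ℤ) : ZMod p) ≠ 0 := fun hh =>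
    hy0 ((ZMod.intCast_zmod_eq_zero_iff_dvd _ p).1 hh)
  have z4 : ((f.coeff 1 : ℤ) : ZMod p) + 2 * (f.coeff 2 : ℤ) = (Algebra.norm ℤ y : ℤ) := by
    have e : f.coeff 1 + 2 * f.coeff 2 = Algebra.norm ℤ y + Algebra.norm ℤ (x + y) -
        Algebra.norm ℤ x := by
      rw [← h1, h2, hc0, hcm]
      ring
    have e2 := congrArg (fun t : ℤ => (t : ZMod p)) e
    push_cast at e2
    rw [e2, z1, z2]
    ring
  rw [z4, hcm] at key
  apply mul_right_cancel₀ z3
  push_cast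
  linear_combination key

/-- a pair which is not good at two -/
theorem crossB (h5 : 5 ≤ p) (hK : Module.finrank ℚ K = 2) (σ : 𝓞 K →+* 𝓞 K)
    (hN : ∀ a : 𝓞 K, ((Algebra.norm ℤ a : ℤ) : 𝓞 K) = a * σ a)
    (hT : ∀ a : 𝓞 K, ((Algebra.trace ℤ (𝓞 K) a : ℤ) : 𝓞 K) = a + σ a)
    (hW : ¬ p ^ 2 ∣ 2 ^ (p - 1) - 1) (c : Cyc p E) (i : E →+* N) (hD : Dn p E N i)
    (hcard : Nat.card (K →+* N) = Module.finrank ℚ K)
    {x y z : 𝓞 K} (hx : x ≠ 0) (hy : y ≠ 0) (hz : z ≠ 0) (h : x ^ p + y ^ p + z ^ p = 0)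
    (hn : ∀ P : Ideal (𝓞 K), P.IsPrime → ((2 : ℕ) : 𝓞 K) ∈ P → ¬ (x ∈ P ∧ y ∈ P ∧ z ∈ P))
    (hx0 : (p : ℤ) ∣ Algebra.norm ℤ x) (hy0 : ¬ (p : ℤ) ∣ Algebra.norm ℤ y)
    (hxy : (p : ℤ) ∣ Algebra.norm ℤ (x + y)) : Good 2 K x y := by
  by_contra hG
  have hpp : p.Prime := Fact.out
  obtain ⟨f, hdeg, hc0, hcm, hev, hf'⟩ := Y290.WQ.mainNORM K x y
  have hf := hf' N hcard
  obtain ⟨o1, o2, o3⟩ := bad_par hpp h5 hK σ hN hT h hn hG
  rw [hK] at hdeg hcm
  have h1 : f.eval 1 = Algebra.norm ℤ (x + y) := by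
    have h2 := hev 1
    rwa [Int.cast_one, one_mul] at h2
  have hff : f = C (f.coeff 0) + C (f.coeff 1) * X + C (f.coeff 2) * X ^ 2 := by
    conv_lhs => rw [as_sum_range_C_mul_X_pow' f (Nat.lt_succ_of_le hdeg)]
    rw [Finset.sum_range_succ, Finset.sum_range_succ, Finset.sum_range_one, pow_zero, mul_one,
      pow_one]
  have h2 : f.eval 1 = f.coeff 0 + f.coeff 1 + f.coeff 2 := by
    conv_lhs => rw [hff]
    simp
  have a0 : Odd (f.coeff 0) := by rw [hc0]; exact o1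
  have a2 : Odd (f.coeff 2) := by rw [hcm]; exact o2
  have a1 : Odd (f.coeff 1) := by
    rw [← h1, h2] at o3
    rw [Int.odd_iff] at *
    omega
  have hg1 : ¬ (p : ℤ) ∣ f.coeff 1 + 2 * f.coeff 2 := by
    intro hh
    apply hy0
    have e : Algebra.norm ℤ y = (f.coeff 1 + 2 * f.coeff 2) - Algebra.norm ℤ (x + y) +
        Algebra.norm ℤ x := by
      rw [← h1, h2, hc0, hcm]
      ring
    rw [e]
    exact dvd_add (dvd_sub hh hxy) hx0
  have key := crossL h5 Nat.prime_two (by omega) hW c i hD hx hy hz h f hf hdeg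
    (by rw [h1]; exact hxy) hg1 0 0 1 (Or.inl rfl) (by
      intro F _ _ t ht
      have hone : ∀ n : ℤ, Odd n → ((n : ℤ) : F) = 1 := by
        rintro n ⟨m, rfl⟩
        have h20 : (2 : F) = 0 := by exact_mod_cast CharP.cast_eq_zero F 2
        push_cast
        rw [h20, zero_mul, zero_add]
      have hv : ∀ t : F, f.eval₂ (Int.castRingHom F) t = 1 + t + t ^ 2 := by
        intro t
        rw [hff]
        simp only [Polynomial.eval₂_add, Polynomial.eval₂_mul, Polynomial.eval₂_C,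
          Polynomial.eval₂_X, Polynomial.eval₂_pow, eq_intCast (Int.castRingHom F), hone _ a0,
          hone _ a1, hone _ a2, one_mul]
      rw [hv, hv]
      push_cast
      field_simp
      ring) (by
      intro P hP h2P w' hw' hwP
      obtain ⟨w, hwz, hw⟩ := exists_zint c
      have hwz' : algebraMap (𝓞 E) E w = c.z := hwz
      have hwe : w' = aeval w f := by
        apply RingOfIntegers.coe_injective
        refine hw'.trans ?_
        rw [← hwz']
        exact aeval_algebraMap_apply E w f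
      have h2P' : (2 : 𝓞 E) ∈ P := by exact_mod_cast h2P
      have h6 : 1 + w + w ^ 2 ∈ P := by
        obtain ⟨m0, e0⟩ := a0
        obtain ⟨m1, e1⟩ := a1
        obtain ⟨m2, e2⟩ := a2
        have e3 : aeval w f = 1 + w + w ^ 2 + 2 * ((m0 : 𝓞 E) + m1 * w + m2 * w ^ 2) := by
          conv_lhs => rw [hff]
          rw [map_add, map_add, map_mul, map_mul, map_pow, aeval_C, aeval_C, aeval_C, aeval_X, e0,
            e1, e2]
          simp only [algebraMap_int_eq, eq_intCast]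
          push_cast
          ring
        rw [hwe, e3] at hwP
        exact (Ideal.add_mem_iff_left P (P.mul_mem_right _ h2P')).1 hwP
      have h7 : 1 - w ^ 3 ∈ P := by
        have e : 1 - w ^ 3 = (1 - w) * (1 + w + w ^ 2) := by ring
        rw [e]
        exact P.mul_mem_left _ h6
      have hw3 : IsPrimitiveRoot (w ^ 3) p := by
        refine hw.pow_of_coprime 3 ?_
        rw [Nat.coprime_primes Nat.prime_three hpp]
        omega
      have h8 := p_mem_of_one_sub_mem (w ^ 3) hw3 P h7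
      refine int_notMem P hP 2 Nat.prime_two h2P (p : ℤ) ?_ (by exact_mod_cast h8)
      intro h9
      have h10 : 2 ∣ p := by exact_mod_cast h9
      have := (Nat.prime_dvd_prime_iff_eq Nat.prime_two hpp).1 h10
      omega)
  have z1 := (ZMod.intCast_zmod_eq_zero_iff_dvd _ p).2 hx0
  have z2 := (ZMod.intCast_zmod_eq_zero_iff_dvd _ p).2 hxy
  have z3 : ((Algebra.norm ℤ y : ℤ) : ZMod p) ≠ 0 := fun hh =>
    hy0 ((ZMod.intCast_zmod_eq_zero_iff_dvd _ p).1 hh)
  have z4 : ((f.coeff 1 : ℤ) : ZMod p) + 2 * (f.coeff 2 : ℤ) = (Algebra.norm ℤ y : ℤ) := by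
    have e : f.coeff 1 + 2 * f.coeff 2 = Algebra.norm ℤ y + Algebra.norm ℤ (x + y) -
        Algebra.norm ℤ x := by
      rw [← h1, h2, hc0, hcm]
      ring
    have e2 := congrArg (fun t : ℤ => (t : ZMod p)) e
    push_cast at e2
    rw [e2, z1, z2]
    ring
  rw [z4, hcm] at key
  apply z3
  push_cast at key
  linear_combination -key

end

end Pool.Agent.Q290.FW
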