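import Pool.Agent.Q290.FW.Cross2

/-!
# Quadratic fields: crossed solutions at `p` are crossed at `q`
-/

set_option autoImplicit false
set_option linter.all false

namespace Pool.Agent.Q290.FW

open NumberField IsDedekindDomain Polynomial Pool.Agent.Y546.WQ Pool.Agent.Y546

section

variable {K N : Type} [Field K] [NumberField K] [Field N] [NumberField N]

theorem cnt_exists {q : ℕ} (Q : Ideal (𝓞 N)) (hQ : Q.IsPrime) (hqQ : ((q : ℕ) : 𝓞 N) ∈ Q)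
    {x : 𝓞 K} (h : cnt (K := K) Q x ≠ 0) :
    ∃ P : Ideal (𝓞 K), P.IsPrime ∧ ((q : ℕ) : 𝓞 K) ∈ P ∧ x ∈ P := by
  unfold cnt at h
  have h1 : Nonempty {τ : K →+* N // RingOfIntegers.mapRingHom τ x ∈ Q} := by
    by_contra hcon
    rw [not_nonempty_iff] at hcon
    exact h Nat.card_of_isEmpty
  obtain ⟨τ, hτ⟩ := h1
  exact ⟨Q.comap (RingOfIntegers.mapRingHom τ), hQ.comap _,
    by rw [Ideal.mem_comap, map_natCast]; exact hqQ, hτ⟩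

theorem crossO {p : ℕ} (hp : p.Prime) (h5 : 5 ≤ p) (hK : Module.finrank ℚ K = 2)
    {q : ℕ} (hq : q.Prime) (hqp : q ≠ p) (hW : ¬ p ^ 2 ∣ q ^ (p - 1) - 1)
    {x y z : 𝓞 K} (hx0 : x ≠ 0) (hy0 : y ≠ 0) (hz0 : z ≠ 0)
    (h : x ^ p + y ^ p + z ^ p = 0)
    (hn : ∀ P : Ideal (𝓞 K), P.IsPrime → ((p : ℕ) : 𝓞 K) ∈ P → ¬ (x ∈ P ∧ y ∈ P ∧ z ∈ P))
    (hnq : ∀ P : Ideal (𝓞 K), P.IsPrime → ((q : ℕ) : 𝓞 K) ∈ P → ¬ (x ∈ P ∧ y ∈ P ∧ z ∈ P))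
    (P₀ P₁ : Ideal (𝓞 K)) (hP₀ : P₀.IsPrime) (hP₁ : P₁.IsPrime) (h₀ : ((p : ℕ) : 𝓞 K) ∈ P₀)
    (h₁ : ((p : ℕ) : 𝓞 K) ∈ P₁) (hx₀ : x ∈ P₀) (hy₁ : y ∈ P₁)
    (hC : CondQ q p (NumberField.discr K)
      (∀ P : Ideal (𝓞 K), P.IsPrime → ((q : ℕ) : 𝓞 K) ∈ P → x ∈ P ∨ y ∈ P ∨ z ∈ P)) :
    (∃ P : Ideal (𝓞 K), P.IsPrime ∧ ((q : ℕ) : 𝓞 K) ∈ P ∧ x ∈ P) ∧
      ∃ P : Ideal (𝓞 K), P.IsPrime ∧ ((q : ℕ) : 𝓞 K) ∈ P ∧ y ∈ P := by
  have hfact : Fact p.Prime := ⟨hp⟩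
  have hp2 : p ≠ 2 := by omega
  obtain ⟨σ, hN, hT⟩ := SG.exists_conj hK
  have hxz : x ^ p + z ^ p + y ^ p = 0 := by rw [← h]; ring
  have hyz : y ^ p + z ^ p + x ^ p = 0 := by rw [← h]; ring
  have hyx : y ^ p + x ^ p + z ^ p = 0 := by rw [← h]; ring
  have n0 := two_of hp h hP₀ (hn P₀ hP₀ h₀) hx₀
  have n1 := two_of hp hyx hP₁ (fun hh => hn P₁ hP₁ h₁ ⟨hh.2.1, hh.1, hh.2.2⟩) hy₁
  have e₁ : P₁ = P₀.comap σ := by
    rcases two_primes hp σ hN hP₁ hP₀ h₁ h₀ with h2 | h2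
    · exact absurd hx₀ (h2 ▸ n1.1)
    · exact h2
  have cz : ∀ P : Ideal (𝓞 K), P.IsPrime → ((p : ℕ) : 𝓞 K) ∈ P → z ∉ P := by
    intro P hP hpP
    rcases two_primes hp σ hN hP hP₀ hpP h₀ with h2 | h2
    · rw [h2]
      exact n0.2
    · rw [h2, ← e₁]
      exact n1.2
  have hNz : ¬ (p : ℤ) ∣ Algebra.norm ℤ z := norm_ncp hp σ hN cz
  have hdiv : ∀ (P : Ideal (𝓞 K)) (w : 𝓞 K), P.IsPrime → ((p : ℕ) : 𝓞 K) ∈ P → w ∈ P →
      (p : ℤ) ∣ Algebra.norm ℤ w := by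
    intro P w hP hpP hw
    by_contra hcon
    apply int_notMem P hP p hp hpP _ hcon
    rw [hN]
    exact P.mul_mem_right _ hw
  have d1 := hdiv P₀ x hP₀ h₀ hx₀
  have d2 := hdiv P₁ y hP₁ h₁ hy₁
  have d3 := hdiv P₁ (x + z) hP₁ h₁
    ((Ideal.add_mem_iff_left P₁ hy₁).1 (lin_p hp P₁ hP₁ h₁ hxz))
  have d4 := hdiv P₀ (y + z) hP₀ h₀
    ((Ideal.add_mem_iff_left P₀ hx₀).1 (lin_p hp P₀ hP₀ h₀ hyz))
  have hnxz : ∀ P : Ideal (𝓞 K), P.IsPrime → ((q : ℕ) : 𝓞 K) ∈ P → ¬ (x ∈ P ∧ z ∈ P ∧ y ∈ P) :=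
    fun P hP hqP hh => hnq P hP hqP ⟨hh.1, hh.2.2, hh.2.1⟩
  have hnyz : ∀ P : Ideal (𝓞 K), P.IsPrime → ((q : ℕ) : 𝓞 K) ∈ P → ¬ (y ∈ P ∧ z ∈ P ∧ x ∈ P) :=
    fun P hP hqP hh => hnq P hP hqP ⟨hh.2.2, hh.1, hh.2.1⟩
  have hnzx : ∀ P : Ideal (𝓞 K), P.IsPrime → ((q : ℕ) : 𝓞 K) ∈ P → ¬ (z ∈ P ∧ x ∈ P ∧ y ∈ P) :=
    fun P hP hqP hh => hnq P hP hqP ⟨hh.2.1, hh.2.2, hh.1⟩
  obtain ⟨E, _, _, ⟨c⟩⟩ := Y978.WQ.main p hp2
  obtain ⟨N, _, _, i, hcard, hD⟩ := Y258.WQ.mainDOWNG p E c K (by omega)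
  have hD' : Dn p E N i := hD
  obtain ⟨Q, hQ, hqQ⟩ := exists_above (K := N) q hq
  have k1 : Good q K x z → cnt (K := K) Q x = cnt (K := K) Q z + 1 := by
    intro g
    have r := crossG h5 hK hq hqp hW c i hD' hcard Q hQ hqQ hx0 hz0 hy0 hxz d1 hNz d3 g
    have c1 := cnt_le (K := K) hcard Q x
    have c2 := cnt_le (K := K) hcard Q z
    rw [hK] at c1 c2
    have r3 := (ZMod.natCast_eq_natCast_iff' _ _ p).1 r
    rwa [Nat.mod_eq_of_lt (by omega), Nat.mod_eq_of_lt (by omega)] at r3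
  have k2 : Good q K y z → cnt (K := K) Q y = cnt (K := K) Q z + 1 := by
    intro g
    have r := crossG h5 hK hq hqp hW c i hD' hcard Q hQ hqQ hy0 hz0 hx0 hyz d2 hNz d4 g
    have c1 := cnt_le (K := K) hcard Q y
    have c2 := cnt_le (K := K) hcard Q z
    rw [hK] at c1 c2
    have r3 := (ZMod.natCast_eq_natCast_iff' _ _ p).1 r
    rwa [Nat.mod_eq_of_lt (by omega), Nat.mod_eq_of_lt (by omega)] at r3
  have main : Good q K x z → Good q K y z →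
      (∃ P : Ideal (𝓞 K), P.IsPrime ∧ ((q : ℕ) : 𝓞 K) ∈ P ∧ x ∈ P) ∧
        ∃ P : Ideal (𝓞 K), P.IsPrime ∧ ((q : ℕ) : 𝓞 K) ∈ P ∧ y ∈ P := fun g1 g2 =>
    ⟨cnt_exists Q hQ hqQ (by rw [k1 g1]; omega), cnt_exists Q hQ hqQ (by rw [k2 g2]; omega)⟩
  rcases hC with rfl | ⟨rfl, hd⟩ | ⟨hq1, hx⟩
  · exact main
      (crossB h5 hK σ hN hT hW c i hD' hcard hx0 hz0 hy0 hxz hnxz d1 hNz d3)
      (crossB h5 hK σ hN hT hW c i hD' hcard hy0 hz0 hx0 hyz hnyz d2 hNz d4)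
  · have hcube : ∀ P : Ideal (𝓞 K), P.IsPrime → ((3 : ℕ) : 𝓞 K) ∈ P →
        ∀ w : 𝓞 K, w ^ 3 - w ∈ P := by
      intro P hP h3P w
      obtain ⟨⟨k, hk⟩, -⟩ := int_three hK σ hN hT hd hP h3P w
      exact cube_int h3P hk
    exact main (good_three hp hcube hxz hnxz) (good_three hp hcube hyz hnyz)
  · by_cases hres : ∀ P : Ideal (𝓞 K), P.IsPrime → ((q : ℕ) : 𝓞 K) ∈ P →
        Nat.card (𝓞 K ⧸ P) % p ≠ 1
    · refine main (good_res hp hp2 hq hxz hnxz hres ?_) (good_res hp hp2 hq hyz hnyz hres ?_)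
      · intro P hP hqP
        rcases hx P hP hqP with k | k | k
        · exact Or.inl k
        · exact Or.inr (Or.inr k)
        · exact Or.inr (Or.inl k)
      · intro P hP hqP
        rcases hx P hP hqP with k | k | k
        · exact Or.inr (Or.inr k)
        · exact Or.inl k
        · exact Or.inr (Or.inl k)
    · exfalso
      push Not at hres
      obtain ⟨P₂, hP₂, hqP₂, hc⟩ := hres
      have huniq : ∀ P : Ideal (𝓞 K), P.IsPrime → ((q : ℕ) : 𝓞 K) ∈ P → P = P₂ := by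
        intro P hP hqP
        by_contra hne
        apply hq1
        rw [← card_of_ne hK hq P₂ P hP₂ hP hqP₂ hqP (fun hh => hne hh.symm)]
        exact hc
      have ca : ∀ w : 𝓞 K, w ∈ P₂ → cnt (K := K) Q w = 2 := by
        intro w hw
        rw [← hK]
        exact cnt_all hcard Q hQ hqQ fun P hP hqP => by rw [huniq P hP hqP]; exact hw
      have cb : ∀ w : 𝓞 K, w ∉ P₂ → cnt (K := K) Q w = 0 := by
        intro w hw
        by_contra hne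
        obtain ⟨P, hP, hqP, hwP⟩ := cnt_exists Q hQ hqQ hne
        rw [huniq P hP hqP] at hwP
        exact hw hwP
      rcases hx P₂ hP₂ hqP₂ with h1 | h1 | h1
      · have h2 := (two_of hp hxz hP₂ (hnxz P₂ hP₂ hqP₂) h1).1
        have := k1 (fun P hP hqP => by rw [huniq P hP hqP]; exact Or.inl ⟨h1, h2⟩)
        rw [ca x h1, cb z h2] at this
        omega
      · have h2 := (two_of hp hyz hP₂ (hnyz P₂ hP₂ hqP₂) h1).1
        have := k2 (fun P hP hqP => by rw [huniq P hP hqP]; exact Or.inl ⟨h1, h2⟩)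
        rw [ca y h1, cb z h2] at this
        omega
      · have hzx : z ^ p + x ^ p + y ^ p = 0 := by rw [← h]; ring
        have h2 := (two_of hp hzx hP₂ (hnzx P₂ hP₂ hqP₂) h1).1
        have := k1 (fun P hP hqP => by rw [huniq P hP hqP]; exact Or.inr (Or.inl ⟨h2, h1⟩))
        rw [ca z h1, cb x h2] at this
        omega

/-- crossed solutions -/
theorem crossK {p : ℕ} (hp : p.Prime) (h5 : 5 ≤ p) (hK : Module.finrank ℚ K = 2)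
    {q : ℕ} (hq : q.Prime) (hW : ¬ p ^ 2 ∣ q ^ (p - 1) - 1)
    {x y z : K} (hx : x ≠ 0) (hy : y ≠ 0) (hz : z ≠ 0)
    (h : x ^ p + y ^ p + z ^ p = 0)
    (v v' : HeightOneSpectrum (𝓞 K)) (hv : ((p : ℕ) : 𝓞 K) ∈ v.asIdeal)
    (hv' : ((p : ℕ) : 𝓞 K) ∈ v'.asIdeal)
    (hxv : v.valuation K x < v.valuation K y ∧ v.valuation K x < v.valuation K z)
    (hyv : v'.valuation K y < v'.valuation K x ∧ v'.valuation K y < v'.valuation K z)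
    (hC : CondQ q p (NumberField.discr K)
      (∀ w : HeightOneSpectrum (𝓞 K), ((q : ℕ) : 𝓞 K) ∈ w.asIdeal →
        ¬ (w.valuation K x = w.valuation K y ∧ w.valuation K y = w.valuation K z))) :
    (∃ w : HeightOneSpectrum (𝓞 K), ((q : ℕ) : 𝓞 K) ∈ w.asIdeal ∧
      w.valuation K x < w.valuation K y ∧ w.valuation K x < w.valuation K z) ∧
    ∃ w : HeightOneSpectrum (𝓞 K), ((q : ℕ) : 𝓞 K) ∈ w.asIdeal ∧
      w.valuation K y < w.valuation K x ∧ w.valuation K y < w.valuation K z := by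
  by_cases hqp : q = p
  · subst hqp
    exact ⟨⟨v, hv, hxv⟩, v', hv', hyv⟩
  obtain ⟨X, Y, Z, hX, hY, hZ, hXYZ, hn, a, ha, hXa, hYa, hZa⟩ :=
    prepM (M := q * p) (mul_ne_zero hq.ne_zero hp.ne_zero) hp (Dvd.intro_left _ rfl) hx hy hz h
  have hmp : ∀ P : Ideal (𝓞 K), ((p : ℕ) : 𝓞 K) ∈ P → ((q * p : ℕ) : 𝓞 K) ∈ P := by
    intro P hP
    rw [Nat.cast_mul]
    exact P.mul_mem_left _ hP
  have hmq : ∀ P : Ideal (𝓞 K), ((q : ℕ) : 𝓞 K) ∈ P → ((q * p : ℕ) : 𝓞 K) ∈ P := by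
    intro P hP
    rw [Nat.cast_mul]
    exact P.mul_mem_right _ hP
  have s1 : X ^ p + Z ^ p + Y ^ p = 0 := by rw [← hXYZ]; ring
  have s2 : Y ^ p + Z ^ p + X ^ p = 0 := by rw [← hXYZ]; ring
  have s3 : Y ^ p + X ^ p + Z ^ p = 0 := by rw [← hXYZ]; ring
  have hne : ∀ (m : ℕ), m ≠ 0 → ∀ P : Ideal (𝓞 K), ((m : ℕ) : 𝓞 K) ∈ P → P ≠ ⊥ := by
    rintro m hm P hP rfl
    rw [Ideal.mem_bot] at hP
    exact hm (by exact_mod_cast hP)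
  have hxin : ∀ v : HeightOneSpectrum (𝓞 K), ((q * p : ℕ) : 𝓞 K) ∈ v.asIdeal →
      (X ∈ v.asIdeal ↔ v.valuation K x < v.valuation K y ∧ v.valuation K x < v.valuation K z) := by
    intro v hm
    have n0 := hn _ v.isPrime hm
    constructor
    · intro hh
      exact ⟨(mem_iff hp hXYZ v n0 ha hXa hYa).1 hh,
        (mem_iff hp s1 v (fun k => n0 ⟨k.1, k.2.2, k.2.1⟩) ha hXa hZa).1 hh⟩
    · intro hh
      exact (mem_iff hp hXYZ v n0 ha hXa hYa).2 hh.1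
  have hyin : ∀ v : HeightOneSpectrum (𝓞 K), ((q * p : ℕ) : 𝓞 K) ∈ v.asIdeal →
      (Y ∈ v.asIdeal ↔ v.valuation K y < v.valuation K x ∧ v.valuation K y < v.valuation K z) := by
    intro v hm
    have n0 := hn _ v.isPrime hm
    constructor
    · intro hh
      exact ⟨(mem_iff hp s3 v (fun k => n0 ⟨k.2.1, k.1, k.2.2⟩) ha hYa hXa).1 hh,
        (mem_iff hp s2 v (fun k => n0 ⟨k.2.2, k.1, k.2.1⟩) ha hYa hZa).1 hh⟩
    · intro hh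
      exact (mem_iff hp s3 v (fun k => n0 ⟨k.2.1, k.1, k.2.2⟩) ha hYa hXa).2 hh.1
  obtain ⟨⟨P, hP, hqP, hXP⟩, P', hP', hqP', hYP'⟩ := crossO hp h5 hK hq hqp hW hX hY hZ hXYZ
    (fun P hP hpP => hn P hP (hmp P hpP)) (fun P hP hqP => hn P hP (hmq P hqP)) v.asIdeal
    v'.asIdeal v.isPrime v'.isPrime hv hv' ((hxin v (hmp _ hv)).2 hxv)
    ((hyin v' (hmp _ hv')).2 hyv) (by
      rcases hC with h1 | h1 | ⟨h1, h2⟩
      · exact Or.inl h1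
      · exact Or.inr (Or.inl h1)
      · refine Or.inr (Or.inr ⟨h1, fun P hP hqP => ?_⟩)
        have h3 := h2 ⟨P, hP, hne q hq.ne_zero P hqP⟩ hqP
        rw [eqv hp hXYZ ⟨P, hP, hne q hq.ne_zero P hqP⟩ (hn P hP (hmq P hqP)) ha hXa hYa hZa] at h3
        simp only at h3
        clear * - h3
        tauto)
  exact ⟨⟨⟨P, hP, hne q hq.ne_zero P hqP⟩, hqP, (hxin ⟨P, hP, hne q hq.ne_zero P hqP⟩
      (hmq P hqP)).1 hXP⟩,
    ⟨P', hP', hne q hq.ne_zero P' hqP'⟩, hqP', (hyin ⟨P', hP', hne q hq.ne_zero P' hqP'⟩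
      (hmq P' hqP')).1 hYP'⟩

end

end Pool.Agent.Q290.FW
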