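import Pool.Agent.Q290.FW.Sec2

/-!
# Number fields: the second case
-/

set_option autoImplicit false
set_option linter.all false

namespace Pool.Agent.Q290.FW

open NumberField IsDedekindDomain Polynomial Pool.Agent.Y546.WQ Pool.Agent.Y546

section

variable {K N : Type} [Field K] [NumberField K] [Field N] [NumberField N]

/-- all primes above `q` divide `z` if all conjugates are in `Q` -/
theorem all_of_cntN {q : ℕ} (hq : q.Prime)
    (hcard : Nat.card (K →+* N) = Module.finrank ℚ K) (Q : Ideal (𝓞 N)) (hQ : Q.IsPrime)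
    (hqQ : ((q : ℕ) : 𝓞 N) ∈ Q) {z : 𝓞 K} (h : cnt (K := K) Q z = Module.finrank ℚ K)
    (P : Ideal (𝓞 K)) (hP : P.IsPrime) (hqP : ((q : ℕ) : 𝓞 K) ∈ P) : z ∈ P := by
  classical
  haveI : Finite (K →+* N) := Nat.finite_of_card_ne_zero (by
    rw [hcard]
    exact Module.finrank_pos.ne')
  have hall : ∀ τ : K →+* N, RingOfIntegers.mapRingHom τ z ∈ Q := by
    by_contra hcon
    push Not at hcon
    obtain ⟨τ, hτ⟩ := hcon
    unfold cnt at h
    rw [← hcard] at h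
    have h1 : Nat.card {τ : K →+* N // RingOfIntegers.mapRingHom τ z ∈ Q} < Nat.card (K →+* N) := by
      haveI : Fintype (K →+* N) := Fintype.ofFinite _
      rw [Nat.card_eq_fintype_card, Nat.card_eq_fintype_card]
      exact Fintype.card_subtype_lt hτ
    omega
  obtain ⟨f, -, -, -, hev, hf'⟩ := Y290.WQ.mainNORM K z 1
  have hf := hf' N hcard
  haveI := hQ
  haveI hqf : Fact q.Prime := ⟨hq⟩
  haveI hchar : CharP (𝓞 N ⧸ Q) q := charP_quot Q hQ q hq hqQ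
  have h1 : f.map (Int.castRingHom (𝓞 N ⧸ Q)) = X ^ Nat.card (K →+* N) := by
    have e2 : f.map (Int.castRingHom (𝓞 N ⧸ Q)) =
        (f.map (Int.castRingHom (𝓞 N))).map (Ideal.Quotient.mk Q) := by
      rw [Polynomial.map_map]
      congr 1
    rw [e2, hf, nrmP, Polynomial.map_prod, Nat.card_eq_fintype_card, ← Finset.card_univ,
      ← Finset.prod_const]
    refine Finset.prod_congr rfl fun τ _ => ?_
    rw [Polynomial.map_add, Polynomial.map_mul, Polynomial.map_C, Polynomial.map_C,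
      Polynomial.map_X, Ideal.Quotient.eq_zero_iff_mem.2 (hall τ), map_one, map_one, C_0, C_1,
      mul_one, zero_add]
  have h2 : C (q : ℤ) ∣ f - X ^ Nat.card (K →+* N) := by
    rw [C_dvd_iff_dvd_coeff]
    intro j
    have h3 := congrArg (fun g => g.coeff j) h1
    simp only [coeff_map, coeff_X_pow] at h3
    rw [← CharP.intCast_eq_zero_iff (𝓞 N ⧸ Q) q, coeff_sub, coeff_X_pow, Int.cast_sub, sub_eq_zero]
    rw [eq_intCast] at h3
    rw [h3]
    split_ifs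
    · exact Int.cast_one.symm
    · exact Int.cast_zero.symm
  obtain ⟨g, hg⟩ := h2
  haveI : Nonempty (K →+* N) := by
    by_contra hcon
    rw [not_nonempty_iff] at hcon
    have := Module.finrank_pos (R := ℚ) (M := K)
    rw [← hcard, Nat.card_of_isEmpty] at this
    exact lt_irrefl _ this
  obtain ⟨τ₀⟩ := ‹Nonempty (K →+* N)›
  have h4 : aeval (-z) f = 0 := by
    apply mapRingHom_inj τ₀
    rw [map_zero]
    have e1 : RingOfIntegers.mapRingHom τ₀ (aeval (-z) f) =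
        aeval (-RingOfIntegers.mapRingHom τ₀ z) f := by
      rw [aeval_def, aeval_def, hom_eval₂, map_neg]
      congr 1
      exact RingHom.ext_int _ _
    rw [e1, eval_f hf]
    refine Finset.prod_eq_zero (Finset.mem_univ τ₀) ?_
    rw [map_one, mul_one, add_neg_cancel]
  have h5 : (-z) ^ Nat.card (K →+* N) ∈ P := by
    have h6 := congrArg (fun r => aeval (-z) r) hg
    simp only [map_sub, map_mul, map_pow, aeval_X, aeval_C] at h6
    rw [h4, zero_sub] at h6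
    have h7 : (-z) ^ Nat.card (K →+* N) = -(algebraMap ℤ (𝓞 K) (q : ℤ) * aeval (-z) g) := by
      rw [← h6, neg_neg]
    rw [h7]
    refine P.neg_mem (P.mul_mem_right _ ?_)
    have e : algebraMap ℤ (𝓞 K) (q : ℤ) = ((q : ℕ) : 𝓞 K) := by simp
    rw [e]
    exact hqP
  have h6 := hP.mem_of_pow_mem _ h5
  exact (neg_mem_iff (S := Ideal (𝓞 K)) (H := P)).1 h6

/-- the second case: `z` is divisible by all primes above `p` -/
theorem secN {p : ℕ} (hp : p.Prime) (hpm : 2 * Module.finrank ℚ K < p)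
    {q : ℕ} (hq : q.Prime) (hqp : q ≠ p) (hW : ¬ p ^ 2 ∣ q ^ (p - 1) - 1)
    {x y z : 𝓞 K} (hx0 : x ≠ 0) (hy0 : y ≠ 0) (hz0 : z ≠ 0)
    (h : x ^ p + y ^ p + z ^ p = 0)
    (hn : ∀ P : Ideal (𝓞 K), P.IsPrime → ((p : ℕ) : 𝓞 K) ∈ P → x ∉ P ∧ y ∉ P ∧ z ∈ P)
    (g1 : Good q K x z) :
    ∀ P : Ideal (𝓞 K), P.IsPrime → ((q : ℕ) : 𝓞 K) ∈ P → z ∈ P := by
  have hfact : Fact p.Prime := ⟨hp⟩
  have hm := Module.finrank_pos (R := ℚ) (M := K)
  have hp2 : p ≠ 2 := by omega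
  have Sx : SolT p K x z y := ⟨hx0, hz0, hy0, by rw [← h]; ring, fun P hP hpP => (hn P hP hpP).2.1⟩
  obtain ⟨E, _, _, ⟨c⟩⟩ := Y978.WQ.main p hp2
  obtain ⟨N, _, _, i, hcard, hD⟩ := Y258.WQ.mainDOWNG p E c K (by omega)
  have hD' : Dn p E N i := hD
  obtain ⟨Q, hQ, hqQ⟩ := exists_above (K := N) q hq
  obtain ⟨f, hdeg, hc0, hcm, hev, hf'⟩ := Y290.WQ.mainNORM K x z
  have hf := hf' N hcard
  have hlin := linT hp2 hq hqp hW c i hD' hcard Q hQ hqQ Sx g1 f hdeg hev hf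
  have b5 := baseT hcard Sx f hev
  -- the derivative vanishes
  have hder : (f.map (Int.castRingHom (ZMod p))).derivative.eval 1 = 0 := by
    obtain ⟨R, hR, hpR⟩ := exists_above (K := N) p hp
    haveI := hR
    haveI hchar : CharP (𝓞 N ⧸ R) p := charP_quot R hR p hp hpR
    have h1 : f.map (Int.castRingHom (𝓞 N ⧸ R)) =
        C (∏ τ : K →+* N, Ideal.Quotient.mk R (RingOfIntegers.mapRingHom τ x)) := by
      have e2 : f.map (Int.castRingHom (𝓞 N ⧸ R)) =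
          (f.map (Int.castRingHom (𝓞 N))).map (Ideal.Quotient.mk R) := by
        rw [Polynomial.map_map]
        congr 1
      rw [e2, hf, nrmP, Polynomial.map_prod, map_prod]
      refine Finset.prod_congr rfl fun τ _ => ?_
      have h2 : RingOfIntegers.mapRingHom τ z ∈ R :=
        (hn (R.comap (RingOfIntegers.mapRingHom τ)) (hR.comap _)
          (by rw [Ideal.mem_comap, map_natCast]; exact hpR)).2.2
      rw [Polynomial.map_add, Polynomial.map_mul, Polynomial.map_C, Polynomial.map_C,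
        Polynomial.map_X, Ideal.Quotient.eq_zero_iff_mem.2 h2, C_0, mul_zero, add_zero]
    have h3 : (f.derivative.eval 1 : ℤ) = 0 ∨ True := Or.inr trivial
    have h4 : (p : ℤ) ∣ f.derivative.eval 1 := by
      rw [← CharP.intCast_eq_zero_iff (𝓞 N ⧸ R) p]
      have e1 : ((f.derivative.eval 1 : ℤ) : 𝓞 N ⧸ R) =
          ((f.map (Int.castRingHom (𝓞 N ⧸ R))).derivative).eval 1 := by
        rw [derivative_map, eval_map, ← map_one (Int.castRingHom (𝓞 N ⧸ R)), eval₂_hom]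
        rfl
      rw [e1, h1, derivative_C, eval_zero]
    rw [derivative_map, eval_map, ← map_one (Int.castRingHom (ZMod p)), eval₂_hom]
    exact (ZMod.intCast_zmod_eq_zero_iff_dvd _ p).2 h4
  have hval : (f.map (Int.castRingHom (ZMod p))).eval 1 ≠ 0 := by
    rw [eval_map, ← map_one (Int.castRingHom (ZMod p)), eval₂_hom]
    intro h0
    exact b5 ((ZMod.intCast_zmod_eq_zero_iff_dvd _ p).1 h0)
  rw [hder, mul_zero] at hlin
  have h0 := (mul_eq_zero.1 hlin).resolve_right hval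
  have c1 := cnt_le (K := K) hcard Q x
  have c2 := cnt_le (K := K) hcard Q z
  have r2 : (((Module.finrank ℚ K + cnt (K := K) Q x : ℕ) : ℕ) : ZMod p) =
      ((cnt (K := K) Q z : ℕ) : ZMod p) := by
    unfold cnt
    push_cast
    linear_combination h0
  have r3 := (ZMod.natCast_eq_natCast_iff' _ _ p).1 r2
  rw [Nat.mod_eq_of_lt (by omega), Nat.mod_eq_of_lt (by omega)] at r3
  exact all_of_cntN hq hcard Q hQ hqQ (by omega)

/-- the second case over number fields -/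
theorem secNK {p q : ℕ} (hp : p.Prime) (hpm : 2 * Module.finrank ℚ K < p) (hq : q.Prime)
    (hW : ¬ p ^ 2 ∣ q ^ (p - 1) - 1)
    {x y z : K} (hx : x ≠ 0) (hy : y ≠ 0) (hz : z ≠ 0) (h : x ^ p + y ^ p + z ^ p = 0)
    (hv : ∀ v : HeightOneSpectrum (𝓞 K), ((p : ℕ) : 𝓞 K) ∈ v.asIdeal →
      v.valuation K z < v.valuation K x ∧ v.valuation K z < v.valuation K y) :
    (∃ v : HeightOneSpectrum (𝓞 K), ((q : ℕ) : 𝓞 K) ∈ v.asIdeal ∧
      v.valuation K z ≤ v.valuation K x) ∧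
    ((∀ P : Ideal (𝓞 K), P.IsPrime → ((q : ℕ) : 𝓞 K) ∈ P → Nat.card (𝓞 K ⧸ P) % p ≠ 1) →
      (∀ v : HeightOneSpectrum (𝓞 K), ((q : ℕ) : 𝓞 K) ∈ v.asIdeal →
        ¬ (v.valuation K x = v.valuation K y ∧ v.valuation K y = v.valuation K z)) →
      ∀ v : HeightOneSpectrum (𝓞 K), ((q : ℕ) : 𝓞 K) ∈ v.asIdeal →
        v.valuation K z < v.valuation K x ∧ v.valuation K z < v.valuation K y) := by
  have hm := Module.finrank_pos (R := ℚ) (M := K)
  have hp2 : p ≠ 2 := by omega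
  by_cases hqp : q = p
  · subst hqp
    obtain ⟨P, hP, hqP⟩ := exists_above (K := K) q hq
    obtain ⟨v, rfl⟩ := spec_of hq hP hqP
    exact ⟨⟨v, hqP, (hv v hqP).1.le⟩, fun _ _ => hv⟩
  obtain ⟨X, Y, Z, hX, hY, hZ, hXYZ, hn, a, ha, hXa, hYa, hZa⟩ :=
    prepM (M := q * p) (mul_ne_zero hq.ne_zero hp.ne_zero) hp (Dvd.intro_left _ rfl) hx hy hz h
  have hmp : ∀ P : Ideal (𝓞 K), ((p : ℕ) : 𝓞 K) ∈ P → ((q * p : ℕ) : 𝓞 K) ∈ P := by
    intro P hP
    rw [Nat.cast_mul]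
    exact P.mul_mem_left _ hP
  have hmq : ∀ P : Ideal (𝓞 K), ((q : ℕ) : 𝓞 K) ∈ P → ((q * p : ℕ) : 𝓞 K) ∈ P := by
    intro P hP
    rw [Nat.cast_mul]
    exact P.mul_mem_right _ hP
  have s0 : X ^ p + Z ^ p + Y ^ p = 0 := by rw [← hXYZ]; ring
  have s1 : Z ^ p + X ^ p + Y ^ p = 0 := by rw [← hXYZ]; ring
  have s2 : Z ^ p + Y ^ p + X ^ p = 0 := by rw [← hXYZ]; ring
  have hzin : ∀ v : HeightOneSpectrum (𝓞 K), ((q * p : ℕ) : 𝓞 K) ∈ v.asIdeal →
      (Z ∈ v.asIdeal ↔ v.valuation K z < v.valuation K x ∧ v.valuation K z < v.valuation K y) := by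
    intro v hm
    have n0 := hn _ v.isPrime hm
    constructor
    · intro hh
      exact ⟨(mem_iff hp s1 v (fun k => n0 ⟨k.2.1, k.2.2, k.1⟩) ha hZa hXa).1 hh,
        (mem_iff hp s2 v (fun k => n0 ⟨k.2.2, k.2.1, k.1⟩) ha hZa hYa).1 hh⟩
    · intro hh
      exact (mem_iff hp s1 v (fun k => n0 ⟨k.2.1, k.2.2, k.1⟩) ha hZa hXa).2 hh.1
  have hnp : ∀ P : Ideal (𝓞 K), P.IsPrime → ((p : ℕ) : 𝓞 K) ∈ P → X ∉ P ∧ Y ∉ P ∧ Z ∈ P := by
    intro P hP hpP
    obtain ⟨v, rfl⟩ := spec_of hp hP hpP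
    have hz1 := (hzin v (hmp _ hpP)).2 (hv v hpP)
    have h2 := two_of hp s1 hP (fun k => hn _ hP (hmp _ hpP) ⟨k.2.1, k.2.2, k.1⟩) hz1
    exact ⟨h2.1, h2.2, hz1⟩
  have main := secN hp hpm hq hqp hW hX hY hZ hXYZ hnp
  have hnq : ∀ P : Ideal (𝓞 K), P.IsPrime → ((q : ℕ) : 𝓞 K) ∈ P → ¬ (X ∈ P ∧ Z ∈ P ∧ Y ∈ P) :=
    fun P hP hqP hh => hn P hP (hmq P hqP) ⟨hh.1, hh.2.2, hh.2.1⟩
  constructor
  · by_contra hcon
    push Not at hcon
    have hxall : ∀ P : Ideal (𝓞 K), P.IsPrime → ((q : ℕ) : 𝓞 K) ∈ P → X ∈ P := by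
      intro P hP hqP
      obtain ⟨v, rfl⟩ := spec_of hq hP hqP
      exact (mem_iff hp s0 v (hnq _ hP hqP) ha hXa hZa).2 (hcon v hqP)
    have h2 : ∀ P : Ideal (𝓞 K), P.IsPrime → ((q : ℕ) : 𝓞 K) ∈ P → Z ∉ P :=
      fun P hP hqP => (two_of hp s0 hP (hnq P hP hqP) (hxall P hP hqP)).1
    obtain ⟨P, hP, hqP⟩ := exists_above (K := K) q hq
    exact h2 P hP hqP (main (fun P hP hqP => Or.inl ⟨hxall P hP hqP, h2 P hP hqP⟩) P hP hqP)
  · intro hres hno v hqv
    rw [← hzin v (hmq _ hqv)]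
    refine main (good_res hp hp2 hq s0 hnq hres fun P hP hqP => ?_) v.asIdeal v.isPrime hqv
    obtain ⟨w, rfl⟩ := spec_of hq hP hqP
    by_contra hcon
    push Not at hcon
    obtain ⟨n1, n2, n3⟩ := hcon
    exact hno w hqP ⟨val_eq (p := p) w n1 n3 ha hXa hYa, val_eq (p := p) w n3 n2 ha hYa hZa⟩

end

end Pool.Agent.Q290.FW
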