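import Pool.Agent.Q290.FW.Cross3
import Pool.Agent.Q290.FW.SecN

/-!
# The numbers of conjugates of the three types at `p` and at `q`
-/

set_option autoImplicit false
set_option linter.all false

namespace Pool.Agent.Q290.FW

open NumberField IsDedekindDomain Polynomial Pool.Agent.Y546.WQ Pool.Agent.Y546

/-- `p` is a power of `1 - y` times a polynomial in the root of unity `y` -/
theorem exists_U (p : ℕ) (hp : p.Prime) : ∃ U : Polynomial ℤ, ∀ (F : Type) [CommRing F] [IsDomain F]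
    (y : F), IsPrimitiveRoot y p →
      (1 - y) ^ (p - 1) * U.eval₂ (Int.castRingHom F) y = (p : F) := by
  refine ⟨∏ k ∈ Finset.range (p - 1), ∑ j ∈ Finset.range (k + 1), X ^ j, ?_⟩
  intro F _ _ y hy
  have h1 : (p - 1) + 1 = p := Nat.sub_add_cancel hp.one_lt.le
  rw [← h1] at hy
  have h2 := hy.prod_one_sub_pow_eq_order
  have h3 : ((p - 1 : ℕ) : F) + 1 = (p : F) := by
    rw [← Nat.cast_succ, Nat.succ_eq_add_one, h1]
  rw [h3] at h2
  rw [← h2, Polynomial.eval₂_finsetProd]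
  have h4 : (1 - y) ^ (p - 1) = ∏ k ∈ Finset.range (p - 1), (1 - y) := by
    rw [Finset.prod_const, Finset.card_range]
  rw [h4, ← Finset.prod_mul_distrib]
  refine Finset.prod_congr rfl fun k _ => ?_
  rw [Polynomial.eval₂_finsetSum]
  simp only [Polynomial.eval₂_pow, Polynomial.eval₂_X]
  exact mul_neg_geom_sum y (k + 1)

section

variable {p : ℕ} [Fact p.Prime] {E : Type} [Field E] [NumberField E]
  {K N : Type} [Field K] [NumberField K] [Field N] [NumberField N]

/-- the polynomial of a pair modulo a prime above `p`, if all primes above `p` divide one of the three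
numbers -/
theorem polP (hcard : Nat.card (K →+* N) = Module.finrank ℚ K) (R : Ideal (𝓞 N)) (hR : R.IsPrime)
    (hpR : ((p : ℕ) : 𝓞 N) ∈ R) {x y z : 𝓞 K} (h : x ^ p + y ^ p + z ^ p = 0)
    (ht : ∀ P : Ideal (𝓞 K), P.IsPrime → ((p : ℕ) : 𝓞 K) ∈ P →
      (x ∈ P ∧ y ∉ P ∧ z ∉ P) ∨ (x ∉ P ∧ y ∈ P ∧ z ∉ P) ∨ (x ∉ P ∧ y ∉ P ∧ z ∈ P))
    (f : Polynomial ℤ) (hf : f.map (Int.castRingHom (𝓞 N)) = nrmP K N x y) :
    ∃ g : Polynomial (ZMod p), f.map (Int.castRingHom (ZMod p)) = (1 - X) ^ cnt (K := K) R z * g ∧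
      g.eval 1 ≠ 0 ∧ g.derivative.eval 1 = (cnt (K := K) R x : ℕ) * g.eval 1 := by
  classical
  have hpp : p.Prime := Fact.out
  haveI := hR
  haveI hchar : CharP (𝓞 N ⧸ R) p := charP_quot R hR p hpp hpR
  have hR0 : R ≠ ⊥ := by
    rintro rfl
    rw [Ideal.mem_bot] at hpR
    exact hpp.ne_zero (by exact_mod_cast hpR)
  have hRm : R.IsMaximal := hR.isMaximal hR0
  let _ : Field (𝓞 N ⧸ R) := Ideal.Quotient.field R
  set φ : (K →+* N) → 𝓞 K → 𝓞 N ⧸ R := fun τ w =>
    Ideal.Quotient.mk R (RingOfIntegers.mapRingHom τ w) with hφ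
  have hm : ∀ τ w, RingOfIntegers.mapRingHom τ w ∈ R ↔ φ τ w = 0 := fun τ w =>
    Ideal.Quotient.eq_zero_iff_mem.symm
  have hcase : ∀ τ : K →+* N, ∃ u : 𝓞 N ⧸ R, u ≠ 0 ∧
      (C (φ τ x) + X * C (φ τ y) : Polynomial (𝓞 N ⧸ R)) =
        C u * ((1 - X) ^ (if φ τ z = 0 then 1 else 0) * X ^ (if φ τ x = 0 then 1 else 0)) := by
    intro τ
    have hpc : ((p : ℕ) : 𝓞 K) ∈ R.comap (RingOfIntegers.mapRingHom τ) := by
      rw [Ideal.mem_comap, map_natCast]
      exact hpR
    have h1 := ht (R.comap (RingOfIntegers.mapRingHom τ)) (hR.comap _) hpc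
    have h2 := lin_p hpp (R.comap (RingOfIntegers.mapRingHom τ)) (hR.comap _) hpc h
    simp only [Ideal.mem_comap, hm] at h1 h2
    have h3 : φ τ x + φ τ y + φ τ z = 0 := by
      rw [← h2, hφ]
      simp only [map_add]
    rcases h1 with ⟨a1, a2, a3⟩ | ⟨a1, a2, a3⟩ | ⟨a1, a2, a3⟩
    · refine ⟨φ τ y, a2, ?_⟩
      rw [if_neg a3, if_pos a1, a1]
      simp only [C_0, zero_add, pow_zero, pow_one, one_mul]
      ring
    · refine ⟨φ τ x, a1, ?_⟩
      rw [if_neg a3, if_neg a1, a2]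
      simp only [C_0, mul_zero, add_zero, pow_zero, mul_one]
    · refine ⟨φ τ x, a1, ?_⟩
      rw [if_pos a3, if_neg a1]
      have h4 : φ τ y = -φ τ x := by
        rw [a3, add_zero] at h3
        exact eq_neg_of_add_eq_zero_right h3
      rw [h4]
      simp only [pow_zero, pow_one, mul_one, C_neg]
      ring
  choose u hu0 hu using hcase
  have e1 : f.map (Int.castRingHom (𝓞 N ⧸ R)) =
      ∏ τ : K →+* N, (C (φ τ x) + X * C (φ τ y)) := by
    have e2 : f.map (Int.castRingHom (𝓞 N ⧸ R)) =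
        (f.map (Int.castRingHom (𝓞 N))).map (Ideal.Quotient.mk R) := by
      rw [Polynomial.map_map]
      congr 1
    rw [e2, hf, nrmP, Polynomial.map_prod]
    refine Finset.prod_congr rfl fun τ _ => ?_
    rw [Polynomial.map_add, Polynomial.map_mul, Polynomial.map_C, Polynomial.map_C,
      Polynomial.map_X]
  have ccard : ∀ w : 𝓞 K, cnt (K := K) R w = ∑ τ : K →+* N, (if φ τ w = 0 then 1 else 0) := by
    intro w
    unfold cnt
    rw [Nat.card_eq_fintype_card, Fintype.card_subtype, Finset.card_filter]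
    refine Finset.sum_congr rfl fun τ _ => ?_
    simp only [hm]
  have e3 : f.map (Int.castRingHom (𝓞 N ⧸ R)) =
      C (∏ τ, u τ) * ((1 - X) ^ cnt (K := K) R z * X ^ cnt (K := K) R x) := by
    rw [e1, Finset.prod_congr rfl fun τ _ => hu τ, Finset.prod_mul_distrib,
      Finset.prod_mul_distrib, Finset.prod_pow_eq_pow_sum, Finset.prod_pow_eq_pow_sum, ccard,
      ccard, map_prod (C : 𝓞 N ⧸ R →+* _)]
  let ι : ZMod p →+* 𝓞 N ⧸ R := ZMod.castHom (dvd_refl p) _
  have e0 : ι.comp (Int.castRingHom (ZMod p)) = Int.castRingHom (𝓞 N ⧸ R) := RingHom.ext_int _ _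
  have e4 : (f.map (Int.castRingHom (ZMod p))).map ι = f.map (Int.castRingHom (𝓞 N ⧸ R)) := by
    rw [Polynomial.map_map, e0]
  have e5 : (1 - X : Polynomial (ZMod p)) ^ cnt (K := K) R z ∣
      f.map (Int.castRingHom (ZMod p)) := by
    rw [← Polynomial.map_dvd_map' ι, e4, e3, Polynomial.map_pow, Polynomial.map_sub,
      Polynomial.map_one, Polynomial.map_X]
    exact ⟨C (∏ τ, u τ) * X ^ cnt (K := K) R x, by ring⟩
  obtain ⟨g, hg⟩ := e5
  have hX : (1 - X : Polynomial (𝓞 N ⧸ R)) ≠ 0 := by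
    intro h0
    apply X_sub_C_ne_zero (1 : 𝓞 N ⧸ R)
    rw [C_1, ← neg_sub, h0, neg_zero]
  have e6 : g.map ι = C (∏ τ, u τ) * X ^ cnt (K := K) R x := by
    apply mul_left_cancel₀ (pow_ne_zero (cnt (K := K) R z) hX)
    have e7 : (1 - X : Polynomial (𝓞 N ⧸ R)) ^ cnt (K := K) R z * g.map ι =
        (f.map (Int.castRingHom (ZMod p))).map ι := by
      rw [hg, Polynomial.map_mul, Polynomial.map_pow, Polynomial.map_sub, Polynomial.map_one,
        Polynomial.map_X]
    rw [e7, e4, e3]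
    ring
  have hi1 : ∀ r : Polynomial (ZMod p), ι (r.eval 1) = (r.map ι).eval 1 := by
    intro r
    rw [eval_map, ← map_one ι, eval₂_hom]
  have g1 : ι (g.eval 1) = ∏ τ, u τ := by
    rw [hi1, e6, eval_mul, eval_C, eval_pow, eval_X, one_pow, mul_one]
  refine ⟨g, hg, ?_, ?_⟩
  · intro h0
    rw [h0, map_zero] at g1
    exact Finset.prod_ne_zero_iff.2 (fun τ _ => hu0 τ) g1.symm
  · apply ι.injective
    rw [map_mul, g1, hi1, ← derivative_map, e6, map_natCast]
    simp only [derivative_mul, derivative_C, zero_mul, zero_add, derivative_X_pow, eval_mul,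
      eval_C, eval_pow, eval_X, one_pow, mul_one, eval_natCast]
    first
      | ring
      | (push_cast; ring)

end

end Pool.Agent.Q290.FW
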