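import Pool.Agent.Q290.FW.CrossN

/-!
# The relation between the numbers of conjugates at `p` and at `q`
-/

set_option autoImplicit false
set_option linter.all false

namespace Pool.Agent.Q290.FW

open NumberField IsDedekindDomain Polynomial Pool.Agent.Y546.WQ Pool.Agent.Y546

section

variable {p : ℕ} [Fact p.Prime] {E : Type} [Field E] [NumberField E]
  {K N : Type} [Field K] [NumberField K] [Field N] [NumberField N]

/-- the linear relation for a polynomial divisible by a power of `1 - X` modulo `p` -/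
theorem crossM (h5 : 5 ≤ p) {q : ℕ} (hq : q.Prime) (hqp : q ≠ p)
    (hW : ¬ p ^ 2 ∣ q ^ (p - 1) - 1) (c : Cyc p E) (i : E →+* N) (hD : Dn p E N i)
    {x y z : 𝓞 K} (hx : x ≠ 0) (hy : y ≠ 0) (hz : z ≠ 0) (h : x ^ p + y ^ p + z ^ p = 0)
    (f : Polynomial ℤ) (hf : f.map (Int.castRingHom (𝓞 N)) = nrmP K N x y)
    (k d : ℕ) (hk : k + 3 ≤ p) (g : Polynomial (ZMod p))
    (hfg : f.map (Int.castRingHom (ZMod p)) = (1 - X) ^ k * g) (hg1 : g.eval 1 ≠ 0)
    (A B : ℕ) (ε : ℤ) (hε : ε = 1 ∨ ε = -1)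
    (hpt : ∀ (F : Type) [Field F] [CharP F q] (y : F), y ≠ 0 →
      y ^ B * f.eval₂ (Int.castRingHom F) y =
        ε * (y ^ (A + (d + k)) * f.eval₂ (Int.castRingHom F) y⁻¹))
    (hcop : ∀ P : Ideal (𝓞 E), P.IsPrime → ((q : ℕ) : 𝓞 E) ∈ P →
      ∀ w : 𝓞 E, (w : E) = aeval c.z f → w ∉ P) :
    ((d : ZMod p) + A - B) * g.eval 1 = 2 * g.derivative.eval 1 := by
  have hpp : p.Prime := Fact.out
  have hp2 : p ≠ 2 := by omega
  obtain ⟨U, hU⟩ := exists_U p hpp
  obtain ⟨G₀, hG₀⟩ := Polynomial.map_surjective (Int.castRingHom (ZMod p))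
    (ZMod.ringHom_surjective _) g
  have hdv : C (p : ℤ) ∣ f - (1 - X) ^ k * G₀ := by
    rw [C_dvd_iff_dvd_coeff]
    intro j
    have e1 : (f - (1 - X) ^ k * G₀).map (Int.castRingHom (ZMod p)) = 0 := by
      rw [Polynomial.map_sub, Polynomial.map_mul, Polynomial.map_pow, Polynomial.map_sub,
        Polynomial.map_one, Polynomial.map_X, hG₀, hfg, sub_self]
    have e2 := congrArg (fun r => r.coeff j) e1
    simp only [coeff_map, coeff_zero] at e2
    exact (ZMod.intCast_zmod_eq_zero_iff_dvd _ p).1 e2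
  obtain ⟨r, hr⟩ := hdv
  set G : Polynomial ℤ := G₀ + (1 - X) ^ (p - 1 - k) * (U * r) with hG
  have hGF : ∀ (F : Type) [CommRing F] [IsDomain F] (y : F), IsPrimitiveRoot y p →
      (1 - y) ^ k * G.eval₂ (Int.castRingHom F) y = f.eval₂ (Int.castRingHom F) y := by
    intro F _ _ y hy
    have h1 := hU F y hy
    have h2 := congrArg (Polynomial.eval₂ (Int.castRingHom F) y) hr
    simp only [Polynomial.eval₂_sub, Polynomial.eval₂_mul, Polynomial.eval₂_pow,
      Polynomial.eval₂_C, Polynomial.eval₂_X, Polynomial.eval₂_one,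
      eq_intCast (Int.castRingHom F)] at h2
    rw [hG]
    simp only [Polynomial.eval₂_add, Polynomial.eval₂_sub, Polynomial.eval₂_mul,
      Polynomial.eval₂_pow, Polynomial.eval₂_X, Polynomial.eval₂_one]
    have h3 : (1 - y) ^ (p - 1) = (1 - y) ^ k * (1 - y) ^ (p - 1 - k) := by
      rw [← pow_add]
      congr 1
      omega
    rw [h3] at h1
    push_cast at h2
    linear_combination (r.eval₂ (Int.castRingHom F) y) * h1 - h2
  have hGp : G.map (Int.castRingHom (ZMod p)) =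
      g + (1 - X) ^ 2 * ((1 - X) ^ (p - 3 - k) * (U * r).map (Int.castRingHom (ZMod p))) := by
    rw [hG, Polynomial.map_add, hG₀, Polynomial.map_mul, Polynomial.map_pow, Polynomial.map_sub,
      Polynomial.map_one, Polynomial.map_X, ← mul_assoc, ← pow_add]
    congr 3
    omega
  have hb1 : (G.map (Int.castRingHom (ZMod p))).eval 1 = g.eval 1 := by
    rw [hGp, eval_add, eval_mul, eval_pow, eval_sub, eval_one, eval_X, sub_self]
    ring
  have hb2 : (G.map (Int.castRingHom (ZMod p))).derivative.eval 1 = g.derivative.eval 1 := by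
    have e1 : eval 1 (derivative ((1 - X : Polynomial (ZMod p)) ^ 2)) = 0 := by
      rw [derivative_pow]
      simp
    have e2 : eval 1 ((1 - X : Polynomial (ZMod p)) ^ 2) = 0 := by simp
    obtain ⟨V, hV⟩ : ∃ V, G.map (Int.castRingHom (ZMod p)) = g + (1 - X) ^ 2 * V := ⟨_, hGp⟩
    rw [hV, derivative_add, derivative_mul, eval_add, eval_add, eval_mul, eval_mul, e1, e2]
    ring
  have b5 : ¬ (p : ℤ) ∣ G.eval 1 := by
    intro hh
    apply hg1
    rw [← ZMod.intCast_zmod_eq_zero_iff_dvd] at hh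
    rw [← hb1, eval_map, ← map_one (Int.castRingHom (ZMod p)), eval₂_hom]
    exact hh
  -- the valuations
  obtain ⟨h1, h2, h3⟩ := fldA hp2 c i hD x y z hx hy hz h f hf
  obtain ⟨w, hwz, hw⟩ := exists_zint c
  have hwz' : algebraMap (𝓞 E) E w = c.z := hwz
  have hΛ : ∀ g : Polynomial ℤ, algebraMap (𝓞 E) E (aeval w g) = aeval c.z g := by
    intro g
    rw [← hwz']
    exact (aeval_algebraMap_apply E w g).symm
  have haev : ∀ g : Polynomial ℤ, aeval w g = g.eval₂ (Int.castRingHom (𝓞 E)) w := by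
    intro g
    rw [aeval_def]
    congr 1
  have hGw : (1 - w) ^ k * aeval w G = aeval w f := by
    rw [haev, haev]
    exact hGF (𝓞 E) w hw
  have hGE : algebraMap (𝓞 E) E (aeval w f) =
      algebraMap (𝓞 E) E ((1 - w) ^ k) * algebraMap (𝓞 E) E (aeval w G) := by
    rw [← hGw, map_mul]
  have hG0 : aeval c.z G ≠ 0 := by
    intro h0
    apply h1
    rw [← hΛ, hGE, hΛ, h0, mul_zero]
  obtain ⟨s, m, hm, hsm⟩ := exists_q_part hq (f.eval 1) h2
  have hm0 : m ≠ 0 := by
    rintro rfl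
    exact hm (dvd_zero _)
  obtain ⟨s', n, hn, hsn⟩ := exists_q_part hpp m hm0
  have hnq : ¬ (q : ℤ) ∣ n := fun hh => hm (hsn ▸ dvd_mul_of_dvd_right hh _)
  have hfn : f.eval 1 = (q : ℤ) ^ s * ((p : ℤ) ^ s' * n) := by rw [hsm, hsn]
  have hcopG : ∀ P : Ideal (𝓞 E), P.IsPrime → ((q : ℕ) : 𝓞 E) ∈ P →
      ∀ w' : 𝓞 E, (w' : E) = aeval c.z G → w' ∉ P := by
    intro P hP hqP w' hw' hwP
    refine hcop P hP hqP ((1 - w) ^ k * w') ?_ (P.mul_mem_left _ hwP)
    have e1 : (((1 - w) ^ k * w' : 𝓞 E) : E) = algebraMap (𝓞 E) E ((1 - w) ^ k) * (w' : E) :=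
      map_mul (algebraMap (𝓞 E) E) _ _
    rw [e1, hw', ← hΛ G, ← hΛ f, hGE]
  -- `G` is prime to `p`
  have hcopp : ∀ P : Ideal (𝓞 E), P.IsPrime → ((p : ℕ) : 𝓞 E) ∈ P → aeval w G ∉ P := by
    intro P hP hpP hGP
    have h4 : w - 1 ∈ P := by
      haveI := hP
      haveI := charP_quot P hP p hpp hpP
      rw [← Ideal.Quotient.eq_zero_iff_mem]
      have h5 : (Ideal.Quotient.mk P (w - 1)) ^ p = 0 := by
        rw [map_sub, map_one, sub_pow_char, ← map_pow, hw.pow_eq_one, map_one, one_pow, sub_self]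
      exact (pow_eq_zero_iff hpp.ne_zero).1 h5
    have h5 : ((G.eval 1 : ℤ) : 𝓞 E) ∈ P := by
      have h6 := Polynomial.sub_dvd_eval_sub w 1 (G.map (Int.castRingHom (𝓞 E)))
      rw [eval_map, eval_map, ← haev] at h6
      have h7 : G.eval₂ (Int.castRingHom (𝓞 E)) 1 = ((G.eval 1 : ℤ) : 𝓞 E) := by
        rw [← map_one (Int.castRingHom (𝓞 E)), eval₂_hom]
        rfl
      rw [h7] at h6
      have h8 : aeval w G - ((G.eval 1 : ℤ) : 𝓞 E) ∈ P := P.mem_of_dvd h6 h4
      have h9 : ((G.eval 1 : ℤ) : 𝓞 E) = aeval w G - (aeval w G - ((G.eval 1 : ℤ) : 𝓞 E)) := by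
        ring
      rw [h9]
      exact P.sub_mem hGP h8
    exact int_notMem P hP p hpp hpP _ b5 h5
  obtain ⟨a, ha, hap, hne⟩ := exists_hsa (p := p) hp2
  obtain ⟨g', hg', k', hk'⟩ := relGA aUNITA hp2 a ha hap c G n hn b5 hG0 (by
    intro P
    by_cases hqP : ((q : ℕ) : 𝓞 E) ∈ P.asIdeal
    · refine ⟨0, ?_⟩
      have hn1 : P.valuation E ((n : ℤ) : E) = 1 := by
        have := val_one P ((n : ℤ) : 𝓞 E) (int_notMem P.asIdeal P.isPrime q hq hqP n hnq)
        simpa using this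
      rw [hn1, mul_zero, WithZero.exp_zero, mul_one, ← hΛ]
      exact val_one P _ (hcopG P.asIdeal P.isPrime hqP _ (hΛ G))
    by_cases hpP : ((p : ℕ) : 𝓞 E) ∈ P.asIdeal
    · refine ⟨0, ?_⟩
      have hn1 : P.valuation E ((n : ℤ) : E) = 1 := by
        have := val_one P ((n : ℤ) : 𝓞 E) (int_notMem P.asIdeal P.isPrime p hpp hpP n hn)
        simpa using this
      rw [hn1, mul_zero, WithZero.exp_zero, mul_one, ← hΛ]
      exact val_one P _ (hcopp P.asIdeal P.isPrime hpP)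
    · obtain ⟨m', hm'⟩ := h3 P
      refine ⟨m', ?_⟩
      have hv : ∀ r : ℕ, ((r : ℕ) : 𝓞 E) ∉ P.asIdeal → P.valuation E ((r : ℕ) : E) = 1 := by
        intro r hr
        have h10 : (((r : ℕ) : 𝓞 E) : E) = ((r : ℕ) : E) := map_natCast (algebraMap (𝓞 E) E) r
        have := val_one P ((r : ℕ) : 𝓞 E) hr
        rwa [h10] at this
      have e1 : P.valuation E ((f.eval 1 : ℤ) : E) = P.valuation E ((n : ℤ) : E) := by
        rw [hfn]
        push_cast
        rw [map_mul, map_mul, map_pow, map_pow, hv q hqP, hv p hpP, one_pow, one_pow, one_mul,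
          one_mul]
      have e2 : P.valuation E (algebraMap (𝓞 E) E ((1 - w) ^ k)) = 1 := by
        refine val_one P ((1 - w) ^ k) fun hh => hpP ?_
        exact p_mem_of_one_sub_mem w hw P.asIdeal (P.isPrime.mem_of_pow_mem _ hh)
      rw [← e1, ← hm', ← hΛ f, hGE, map_mul, e2, one_mul, hΛ])
  obtain ⟨r', hr', hdv'⟩ := Y919.WQ.mainLAMA p hp2 a ha hap E c G n hn b5 g' hg' k' hk'
  have hlin := lin_of hp2 a k' _ r' hr' hdv'
  rw [hb1, hb2] at hlin
  have hrel := relQp hp2 c hq hqp G n hnq d A B (ε * (-1) ^ k) (by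
      rcases neg_one_pow_eq_or ℤ k with h4 | h4 <;> rcases hε with rfl | rfl <;> rw [h4] <;>
        norm_num) (by
      intro F _ _ y hyp hy1
      have hy0 : y ≠ 0 := by
        rintro rfl
        rw [zero_pow hpp.ne_zero] at hyp
        exact zero_ne_one hyp
      have hs : ∀ t : F, t ^ p = 1 → t ≠ 1 → IsPrimitiveRoot t p := by
        intro t ht ht1
        have h6 := IsPrimitiveRoot.orderOf t
        rwa [orderOf_eq_prime ht ht1] at h6
      have g1 := hGF F y (hs y hyp hy1)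
      have g2 := hGF F y⁻¹ (hs y⁻¹ (by rw [inv_pow, hyp, inv_one]) (by
        intro h6
        exact hy1 (inv_eq_one.1 h6)))
      have g3 := hpt F y hy0
      rw [← g1, ← g2] at g3
      have hy2 : (1 - y) ^ k ≠ 0 := pow_ne_zero _ (sub_ne_zero.2 (Ne.symm hy1))
      apply mul_left_cancel₀ hy2
      have g4 : (1 - y⁻¹) ^ k * y ^ k = (-1) ^ k * (1 - y) ^ k := by
        rw [← mul_pow, ← mul_pow]
        congr 1
        rw [sub_mul, inv_mul_cancel₀ hy0]
        ring
      have g5 : y ^ (A + (d + k)) = y ^ (A + d) * y ^ k := by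
        rw [← pow_add, add_assoc]
      rw [g5] at g3
      push_cast
      linear_combination g3 + (ε : F) * y ^ (A + d) * G.eval₂ (Int.castRingHom F) y⁻¹ * g4)
    hcopG a g' k' hk' hW
  apply mul_right_cancel₀ hne
  linear_combination 2 * hlin - (g.eval 1) * hrel

end

end Pool.Agent.Q290.FW
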