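import Pool.Agent.Q290.FW.CrossN2

/-!
# Number fields: from the primes above `q` to the primes above `p`
-/

set_option autoImplicit false
set_option linter.all false

namespace Pool.Agent.Q290.FW

open NumberField IsDedekindDomain Polynomial Pool.Agent.Y546.WQ Pool.Agent.Y546

section

variable {K : Type} [Field K] [NumberField K]

/-- the relation between the numbers of conjugates in a prime above `p` and in a prime above `q` -/
theorem relN {p : ℕ} [Fact p.Prime] {E N : Type} [Field E] [NumberField E] [Field N]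
    [NumberField N] (h5 : 5 ≤ p) (hpm : 2 * Module.finrank ℚ K < p) {q : ℕ} (hq : q.Prime)
    (hqp : q ≠ p) (hW : ¬ p ^ 2 ∣ q ^ (p - 1) - 1) (c : Cyc p E) (i : E →+* N) (hD : Dn p E N i)
    (hcard : Nat.card (K →+* N) = Module.finrank ℚ K)
    (R : Ideal (𝓞 N)) (hR : R.IsPrime) (hpR : ((p : ℕ) : 𝓞 N) ∈ R)
    (Q : Ideal (𝓞 N)) (hQ : Q.IsPrime) (hqQ : ((q : ℕ) : 𝓞 N) ∈ Q)
    {x y z : 𝓞 K} (hx : x ≠ 0) (hy : y ≠ 0) (hz : z ≠ 0) (h : x ^ p + y ^ p + z ^ p = 0)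
    (ht : ∀ P : Ideal (𝓞 K), P.IsPrime → ((p : ℕ) : 𝓞 K) ∈ P →
      (x ∈ P ∧ y ∉ P ∧ z ∉ P) ∨ (x ∉ P ∧ y ∈ P ∧ z ∉ P) ∨ (x ∉ P ∧ y ∉ P ∧ z ∈ P))
    (hG : Good q K x y) :
    cnt (K := K) Q x + cnt (K := K) R y = cnt (K := K) Q y + cnt (K := K) R x := by
  have hm := Module.finrank_pos (R := ℚ) (M := K)
  have hp2 : p ≠ 2 := by omega
  haveI hqf : Fact q.Prime := ⟨hq⟩
  obtain ⟨f, hdeg, hc0, hcm, hev, hf'⟩ := Y290.WQ.mainNORM K x y
  have hf := hf' N hcard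
  obtain ⟨ε, hε, hloc⟩ := loc hq hcard Q hQ hqQ hG f hf
  have hcop := cop hp2 hq hqp c i hG f hf
  obtain ⟨g, hfg, g1, g2⟩ := polP hcard R hR hpR h ht f hf
  have hsum := (cnt_sum (q := p) hcard R hR hpR (x := x) (y := y) (z := z) (by
    intro P hP hpP
    rcases ht P hP hpP with k | k | k
    · exact ⟨fun hh => k.2.1 hh.2, fun hh => k.2.1 hh.1, fun hh => k.2.2 hh.2⟩
    · exact ⟨fun hh => k.1 hh.1, fun hh => k.2.2 hh.2, fun hh => k.1 hh.1⟩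
    · exact ⟨fun hh => k.1 hh.1, fun hh => k.2.1 hh.1, fun hh => k.1 hh.1⟩)).2.1 (by
    intro P hP hpP
    rcases ht P hP hpP with k | k | k
    · exact Or.inl k.1
    · exact Or.inr (Or.inl k.2.1)
    · exact Or.inr (Or.inr k.2.2))
  have c1 := cnt_le (K := K) hcard Q x
  have c2 := cnt_le (K := K) hcard Q y
  obtain ⟨d, hd⟩ : ∃ d, d + cnt (K := K) R z = Module.finrank ℚ K :=
    ⟨cnt (K := K) R x + cnt (K := K) R y, hsum⟩
  have key := crossM h5 hq hqp hW c i hD hx hy hz h f hf (cnt (K := K) R z) d (by omega) g hfg g1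
    (cnt (K := K) Q x) (cnt (K := K) Q y) ε hε (fun F _ _ t ht => by
      rw [hd]
      exact refl_val (q := q) f _ _ _ ε hdeg hloc t ht) hcop
  rw [g2] at key
  have e1 : ((d : ZMod p) + cnt (K := K) Q x - cnt (K := K) Q y) =
      2 * (cnt (K := K) R x : ℕ) := by
    apply mul_right_cancel₀ g1
    rw [key]
    ring
  have hd2 : d = cnt (K := K) R x + cnt (K := K) R y := by omega
  have e2 : ((cnt (K := K) Q x + cnt (K := K) R y : ℕ) : ZMod p) =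
      ((cnt (K := K) Q y + cnt (K := K) R x : ℕ) : ZMod p) := by
    rw [hd2] at e1
    push_cast at e1 ⊢
    linear_combination e1
  have e3 := (ZMod.natCast_eq_natCast_iff' _ _ p).1 e2
  rwa [Nat.mod_eq_of_lt (by omega), Nat.mod_eq_of_lt (by omega)] at e3

/-- the type at all primes above `q` is the type at all primes above `p` -/
theorem backK {p q : ℕ} (hp : p.Prime) (h5 : 5 ≤ p) (hpm : 2 * Module.finrank ℚ K < p)
    (hq : q.Prime) (hW : ¬ p ^ 2 ∣ q ^ (p - 1) - 1)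
    {x y z : K} (hx : x ≠ 0) (hy : y ≠ 0) (hz : z ≠ 0) (h : x ^ p + y ^ p + z ^ p = 0)
    (hno : ∀ v : HeightOneSpectrum (𝓞 K), ((p : ℕ) : 𝓞 K) ∈ v.asIdeal →
      ¬ (v.valuation K x = v.valuation K y ∧ v.valuation K y = v.valuation K z))
    (hv : ∀ v : HeightOneSpectrum (𝓞 K), ((q : ℕ) : 𝓞 K) ∈ v.asIdeal →
      v.valuation K x < v.valuation K y ∧ v.valuation K x < v.valuation K z)
    (v : HeightOneSpectrum (𝓞 K)) (hpv : ((p : ℕ) : 𝓞 K) ∈ v.asIdeal) :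
    v.valuation K x < v.valuation K y ∧ v.valuation K x < v.valuation K z := by
  have hfact : Fact p.Prime := ⟨hp⟩
  have hm := Module.finrank_pos (R := ℚ) (M := K)
  have hp2 : p ≠ 2 := by omega
  by_cases hqp : q = p
  · subst hqp
    exact hv v hpv
  obtain ⟨X, Y, Z, hX, hY, hZ, hXYZ, hn, a, ha, hXa, hYa, hZa⟩ :=
    prepM (M := q * p) (mul_ne_zero hq.ne_zero hp.ne_zero) hp (Dvd.intro_left _ rfl) hx hy hz h
  have hmp : ∀ P : Ideal (𝓞 K), ((p : ℕ) : 𝓞 K) ∈ P → ((q * p : ℕ) : 𝓞 K) ∈ P := by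
    intro P hP
    rw [Nat.cast_mul]
    exact P.mul_mem_left _ hP
  have hmq : ∀ P : Ideal (𝓞 K), ((q : ℕ) : 𝓞 K) ∈ P → ((q * p : ℕ) : 𝓞 K) ∈ P := by
    intro P hP
    rw [Nat.cast_mul]
    exact P.mul_mem_right _ hP
  have s0 : X ^ p + Z ^ p + Y ^ p = 0 := by rw [← hXYZ]; ring
  have s1 : Y ^ p + Z ^ p + X ^ p = 0 := by rw [← hXYZ]; ring
  have s2 : Z ^ p + X ^ p + Y ^ p = 0 := by rw [← hXYZ]; ring
  have ht : ∀ P : Ideal (𝓞 K), P.IsPrime → ((p : ℕ) : 𝓞 K) ∈ P →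
      (X ∈ P ∧ Y ∉ P ∧ Z ∉ P) ∨ (X ∉ P ∧ Y ∈ P ∧ Z ∉ P) ∨ (X ∉ P ∧ Y ∉ P ∧ Z ∈ P) := by
    intro P hP hpP
    have n0 := hn P hP (hmp P hpP)
    by_cases h1 : X ∈ P
    · exact Or.inl ⟨h1, two_of hp hXYZ hP n0 h1⟩
    by_cases h2 : Y ∈ P
    · exact Or.inr (Or.inl ⟨h1, h2, (two_of hp s1 hP (fun k => n0 ⟨k.2.2, k.1, k.2.1⟩) h2).1⟩)
    by_cases h3 : Z ∈ P
    · exact Or.inr (Or.inr ⟨h1, h2, h3⟩)
    exfalso
    obtain ⟨w, rfl⟩ := spec_of hp hP hpP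
    exact hno w hpP ((eqv hp hXYZ w n0 ha hXa hYa hZa).2 ⟨h1, h2, h3⟩)
  have hxall : ∀ P : Ideal (𝓞 K), P.IsPrime → ((q : ℕ) : 𝓞 K) ∈ P → X ∈ P := by
    intro P hP hqP
    obtain ⟨w, rfl⟩ := spec_of hq hP hqP
    exact (mem_iff hp hXYZ w (hn _ hP (hmq _ hqP)) ha hXa hYa).2 (hv w hqP).1
  have hyno : ∀ P : Ideal (𝓞 K), P.IsPrime → ((q : ℕ) : 𝓞 K) ∈ P → Y ∉ P :=
    fun P hP hqP => (two_of hp hXYZ hP (hn P hP (hmq P hqP)) (hxall P hP hqP)).1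
  obtain ⟨E, _, _, ⟨c⟩⟩ := Y978.WQ.main p hp2
  obtain ⟨N, _, _, i, hcard, hD⟩ := Y258.WQ.mainDOWNG p E c K (by omega)
  have hD' : Dn p E N i := hD
  obtain ⟨Q, hQ, hqQ⟩ := exists_above (K := N) q hq
  obtain ⟨R, hR, hpR⟩ := exists_above (K := N) p hp
  have hrel := relN h5 hpm hq hqp hW c i hD' hcard R hR hpR Q hQ hqQ hX hY hZ hXYZ ht
    fun P hP hqP => Or.inl ⟨hxall P hP hqP, hyno P hP hqP⟩
  have ca := cnt_all (q := q) hcard Q hQ hqQ hxall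
  have cb := cnt_none (q := q) (N := N) Q hQ hqQ hyno
  have c1 := cnt_le (K := K) hcard R X
  have hXall := all_of_cntN hp hcard R hR hpR (z := X) (by omega) v.asIdeal v.isPrime hpv
  have n0 := hn _ v.isPrime (hmp _ hpv)
  exact ⟨(mem_iff hp hXYZ v n0 ha hXa hYa).1 hXall,
    (mem_iff hp s0 v (fun k => n0 ⟨k.1, k.2.2, k.2.1⟩) ha hXa hZa).1 hXall⟩

end

end Pool.Agent.Q290.FW
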