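import Pool.Agent.Q290.FW.Furt
import Pool.Agent.Y546.WQ.Cas
import Pool.Agent.Y546.WQ.PalK
import Pool.Agent.Y468.WQ.SYM

/-!
# Equality of the numbers of conjugates from regular indices
-/

set_option autoImplicit false
set_option linter.all false

namespace Pool.Agent.Q290.FW

open NumberField IsDedekindDomain Polynomial Pool.Agent.Y546.WQ

section

variable {p : ℕ} [Fact p.Prime] {E : Type} [Field E] [NumberField E]
  {K N : Type} [Field K] [NumberField K] [Field N] [NumberField N]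

theorem cnt_le (hcard : Nat.card (K →+* N) = Module.finrank ℚ K) (Q : Ideal (𝓞 N)) (x : 𝓞 K) :
    cnt Q x ≤ Module.finrank ℚ K := by
  unfold cnt
  rw [← hcard]
  exact Nat.card_le_card_of_injective _ Subtype.val_injective

/-- the numbers of conjugates in a prime above `q` are equal -/
theorem eqQ (hm : 2 * Module.finrank ℚ K + 3 ≤ p) {q : ℕ} (hq : q.Prime) (hqp : q ≠ p)
    (hW : ¬ p ^ 2 ∣ q ^ (p - 1) - 1) (c : Cyc p E) (i : E →+* N) (hD : Dn p E N i)
    (hcard : Nat.card (K →+* N) = Module.finrank ℚ K)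
    (Q : Ideal (𝓞 N)) (hQ : Q.IsPrime) (hqQ : ((q : ℕ) : 𝓞 N) ∈ Q)
    (hreg : (∀ j, Odd j → 3 ≤ j → j < 2 * Module.finrank ℚ K → Reg p j) ∨ PalK p K)
    {x y z : 𝓞 K} (hs : Sol p K x y z) (hG : Good q K x y) :
    cnt (K := K) Q x = cnt (K := K) Q y := by
  have hm0 := Module.finrank_pos (R := ℚ) (M := K)
  have hp2 : p ≠ 2 := by omega
  obtain ⟨f, hdeg, hc0, hcm, hev, hf'⟩ := Y290.WQ.mainNORM K x y
  have hf := hf' N hcard
  have hlin := lin hp2 hq hqp hW c i hD hcard Q hQ hqQ hs hG f hdeg hc0 hcm hev hf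
  obtain ⟨b1, b2, b3, b4, b5⟩ := base Y290.WQ.mainNORM hcard hs f hdeg hc0 hcm hev
  have ha := cnt_le hcard Q x
  have hb := cnt_le hcard Q y
  unfold cnt at ha hb ⊢
  set a := Nat.card {τ : K →+* N // RingOfIntegers.mapRingHom τ x ∈ Q} with had
  set b := Nat.card {τ : K →+* N // RingOfIntegers.mapRingHom τ y ∈ Q} with hbd
  have hab : b ≤ Module.finrank ℚ K + a := by omega
  rcases hreg with hreg | hpal
  · have hrel := rel_of_sol aUNITA Y261.WQ.main Y919.WQ.mainLAMA Y290.WQ.mainNORM c i hD hcard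
      hp2 hs f hdeg hc0 hcm hev hf
    obtain ⟨q6, -⟩ := polQ (Module.finrank ℚ K) (Module.finrank ℚ K + a - b) _ hm (by omega) b1 b2
      b3 b4 (by
        rw [Nat.cast_sub hab]
        push_cast
        exact hlin) hrel hreg
    omega
  · have h1 := hpal x y z hs f hdeg hc0 hcm hev fun N _ _ h => hf' N h
    have h2 := Y468.WQ.palin _ _ b1 h1
    rw [← hlin] at h2
    have h3 := mul_right_cancel₀ b4 h2
    have h4 : ((a : ℕ) : ZMod p) = ((b : ℕ) : ZMod p) := by
      have h5 : (a : ZMod p) - (b : ZMod p) = 0 := by linear_combination h3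
      exact sub_eq_zero.1 h5
    have h5 := (ZMod.natCast_eq_natCast_iff' a b p).1 h4
    rwa [Nat.mod_eq_of_lt (by omega), Nat.mod_eq_of_lt (by omega)] at h5

end

end Pool.Agent.Q290.FW
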