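import Pool.Agent.Q290.FW.Rel
import Pool.Agent.Y67.WQ.COP

/-!
# Norm polynomials modulo `q`

If at each prime above `q` the ratio of `X` and `Y` is `0`, `∞`, `1` or `-1` then the norm polynomial
of `X + T Y` is palindromic modulo `q` up to a sign and a power of the variable, and its value at a
root of unity of order `p` is prime to `q`.
-/

set_option autoImplicit false
set_option linter.all false

namespace Pool.Agent.Q290.FW

open NumberField IsDedekindDomain Polynomial Pool.Agent.Y546.WQ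

/-- at each prime above `q` the ratio of `X` and `Y` is `0`, `∞`, `1` or `-1` -/
def Good (q : ℕ) (K : Type) [Field K] [NumberField K] (X Y : 𝓞 K) : Prop :=
  ∀ P : Ideal (𝓞 K), P.IsPrime → ((q : ℕ) : 𝓞 K) ∈ P →
    (X ∈ P ∧ Y ∉ P) ∨ (X ∉ P ∧ Y ∈ P) ∨ (X ∉ P ∧ Y ∉ P ∧ (X + Y ∈ P ∨ X - Y ∈ P))

section refl

variable {F : Type} [Field F] {ι : Type}

theorem lin_deg (x y : F) : (Polynomial.C x + X * Polynomial.C y).natDegree ≤ 1 := by
  compute_degree

theorem refl_lin (x y : F) : Polynomial.reflect 1 (Polynomial.C x + X * Polynomial.C y) =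
    Polynomial.C y + X * Polynomial.C x := by
  have h0 : Polynomial.reflect 1 (Polynomial.C x * X ^ 0) = Polynomial.C x * X ^ (revAt 1 0) :=
    Polynomial.reflect_C_mul_X_pow 1 0
  have h1 : Polynomial.reflect 1 (Polynomial.C y * X ^ 1) = Polynomial.C y * X ^ (revAt 1 1) :=
    Polynomial.reflect_C_mul_X_pow 1 1
  rw [Polynomial.revAt_le (by norm_num)] at h0
  rw [Polynomial.revAt_le le_rfl] at h1
  simp only [pow_zero, mul_one, Nat.sub_zero, pow_one, Nat.sub_self] at h0 h1
  rw [Polynomial.reflect_add, h0, mul_comm X (Polynomial.C y), h1]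
  ring

theorem refl_prod (s : Finset ι) (x y : ι → F) :
    (∏ τ ∈ s, (Polynomial.C (x τ) + X * Polynomial.C (y τ))).natDegree ≤ s.card ∧
    Polynomial.reflect s.card (∏ τ ∈ s, (Polynomial.C (x τ) + X * Polynomial.C (y τ))) =
      ∏ τ ∈ s, (Polynomial.C (y τ) + X * Polynomial.C (x τ)) := by
  classical
  induction s using Finset.induction_on with
  | empty => simp
  | insert τ s hτ ih =>
    rw [Finset.prod_insert hτ, Finset.prod_insert hτ, Finset.card_insert_of_notMem hτ]
    refine ⟨?_, ?_⟩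
    · refine (natDegree_mul_le).trans ?_
      have := lin_deg (x τ) (y τ)
      have := ih.1
      omega
    · rw [add_comm s.card 1, Polynomial.reflect_mul _ _ (lin_deg _ _) ih.1, ih.2, refl_lin]

end refl

section

variable {p : ℕ} [Fact p.Prime] {E : Type} [Field E] [NumberField E]
  {K N : Type} [Field K] [NumberField K] [Field N] [NumberField N]

/-- the norm polynomial modulo `q` -/
theorem loc {q : ℕ} (hq : q.Prime) (hcard : Nat.card (K →+* N) = Module.finrank ℚ K)
    (Q : Ideal (𝓞 N)) (hQ : Q.IsPrime) (hqQ : ((q : ℕ) : 𝓞 N) ∈ Q) {X' Y' : 𝓞 K}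
    (hG : Good q K X' Y') (f : Polynomial ℤ)
    (hf : f.map (Int.castRingHom (𝓞 N)) = nrmP K N X' Y') :
    ∃ ε : ℤ, (ε = 1 ∨ ε = -1) ∧
      X ^ (Nat.card {τ : K →+* N // RingOfIntegers.mapRingHom τ Y' ∈ Q}) *
        f.map (Int.castRingHom (ZMod q)) =
      Polynomial.C (ε : ZMod q) *
        (X ^ (Nat.card {τ : K →+* N // RingOfIntegers.mapRingHom τ X' ∈ Q}) *
          (f.reflect (Module.finrank ℚ K)).map (Int.castRingHom (ZMod q))) := by
  classical
  haveI hqf : Fact q.Prime := ⟨hq⟩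
  have hQ0 : Q ≠ ⊥ := by
    rintro rfl
    rw [Ideal.mem_bot] at hqQ
    exact hq.ne_zero (by exact_mod_cast hqQ)
  have hQm : Q.IsMaximal := hQ.isMaximal hQ0
  let _ : Field (𝓞 N ⧸ Q) := Ideal.Quotient.field Q
  haveI hchar : CharP (𝓞 N ⧸ Q) q := charP_quot Q hQ q hq hqQ
  set x : (K →+* N) → 𝓞 N ⧸ Q := fun τ => Ideal.Quotient.mk Q (RingOfIntegers.mapRingHom τ X')
    with hx
  set y : (K →+* N) → 𝓞 N ⧸ Q := fun τ => Ideal.Quotient.mk Q (RingOfIntegers.mapRingHom τ Y')
    with hy
  have hxm : ∀ τ, RingOfIntegers.mapRingHom τ X' ∈ Q ↔ x τ = 0 := fun τ =>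
    Ideal.Quotient.eq_zero_iff_mem.symm
  have hym : ∀ τ, RingOfIntegers.mapRingHom τ Y' ∈ Q ↔ y τ = 0 := fun τ =>
    Ideal.Quotient.eq_zero_iff_mem.symm
  -- the local cases
  have hcase : ∀ τ : K →+* N, ∃ ε : ℤ, (ε = 1 ∨ ε = -1) ∧
      (X : Polynomial (𝓞 N ⧸ Q)) ^ (if y τ = 0 then 1 else 0) *
        (Polynomial.C (x τ) + X * Polynomial.C (y τ)) =
      Polynomial.C (ε : 𝓞 N ⧸ Q) * (X ^ (if x τ = 0 then 1 else 0) *
        (Polynomial.C (y τ) + X * Polynomial.C (x τ))) := by
    intro τ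
    have h1 := hG (Q.comap (RingOfIntegers.mapRingHom τ)) (hQ.comap _)
      (by rw [Ideal.mem_comap, map_natCast]; exact hqQ)
    simp only [Ideal.mem_comap, map_add, map_sub] at h1
    rw [hxm, hym] at h1
    rcases h1 with ⟨h2, h3⟩ | ⟨h2, h3⟩ | ⟨h2, h3, h4 | h4⟩
    · refine ⟨1, Or.inl rfl, ?_⟩
      rw [if_neg h3, if_pos h2, h2]
      simp
    · refine ⟨1, Or.inl rfl, ?_⟩
      rw [if_pos h3, if_neg h2, h3]
      simp
    · refine ⟨-1, Or.inr rfl, ?_⟩
      have h5 : x τ + y τ = 0 := by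
        have := Ideal.Quotient.eq_zero_iff_mem.2 h4
        rwa [map_add] at this
      have h6 : y τ = -x τ := eq_neg_of_add_eq_zero_right h5
      rw [if_neg h3, if_neg h2, h6]
      simp only [pow_zero, one_mul, Int.cast_neg, Int.cast_one, Polynomial.C_neg, Polynomial.C_1]
      ring
    · refine ⟨1, Or.inl rfl, ?_⟩
      have h5 : x τ - y τ = 0 := by
        have := Ideal.Quotient.eq_zero_iff_mem.2 h4
        rwa [map_sub] at this
      have h6 : x τ = y τ := sub_eq_zero.1 h5
      rw [if_neg h3, if_neg h2, h6]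
      simp
  choose ε hε1 hε2 using hcase
  refine ⟨∏ τ, ε τ, ?_, ?_⟩
  · have : ∀ s : Finset (K →+* N), ∏ τ ∈ s, ε τ = 1 ∨ ∏ τ ∈ s, ε τ = -1 := by
      intro s
      induction s using Finset.induction_on with
      | empty => simp
      | insert τ s hτ ih =>
        rw [Finset.prod_insert hτ]
        rcases hε1 τ with h | h <;> rcases ih with h' | h' <;> rw [h, h'] <;> simp
    exact this _
  · -- transfer to the quotient
    let κ : ZMod q →+* 𝓞 N ⧸ Q := ZMod.castHom (dvd_refl q) _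
    apply Polynomial.map_injective κ κ.injective
    have e0 : κ.comp (Int.castRingHom (ZMod q)) = Int.castRingHom (𝓞 N ⧸ Q) := RingHom.ext_int _ _
    have e1 : f.map (Int.castRingHom (𝓞 N ⧸ Q)) =
        ∏ τ : K →+* N, (Polynomial.C (x τ) + X * Polynomial.C (y τ)) := by
      have e2 : f.map (Int.castRingHom (𝓞 N ⧸ Q)) =
          (f.map (Int.castRingHom (𝓞 N))).map (Ideal.Quotient.mk Q) := by
        rw [Polynomial.map_map]
        congr 1
      rw [e2, hf, nrmP, Polynomial.map_prod]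
      refine Finset.prod_congr rfl fun τ _ => ?_
      rw [Polynomial.map_add, Polynomial.map_mul, Polynomial.map_C, Polynomial.map_C,
        Polynomial.map_X]
    have hm : (Finset.univ : Finset (K →+* N)).card = Module.finrank ℚ K := by
      rw [← hcard, Nat.card_eq_fintype_card, Finset.card_univ]
    have e3 : (f.reflect (Module.finrank ℚ K)).map (Int.castRingHom (𝓞 N ⧸ Q)) =
        ∏ τ : K →+* N, (Polynomial.C (y τ) + X * Polynomial.C (x τ)) := by
      have e4 : (f.reflect (Module.finrank ℚ K)).map (Int.castRingHom (𝓞 N ⧸ Q)) =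
          Polynomial.reflect (Module.finrank ℚ K) (f.map (Int.castRingHom (𝓞 N ⧸ Q))) :=
        (Polynomial.reflect_map _ _ _).symm
      rw [e4, e1, ← hm, (refl_prod Finset.univ x y).2]
    have e5 : κ ((∏ τ, ε τ : ℤ) : ZMod q) = ((∏ τ, ε τ : ℤ) : 𝓞 N ⧸ Q) := map_intCast κ _
    simp only [Polynomial.map_mul, Polynomial.map_pow, Polynomial.map_X, Polynomial.map_C,
      Polynomial.map_map, e0, e5]
    rw [e1, e3]
    have ca : Nat.card {τ : K →+* N // RingOfIntegers.mapRingHom τ X' ∈ Q} =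
        ∑ τ : K →+* N, (if x τ = 0 then 1 else 0) := by
      rw [Nat.card_eq_fintype_card, Fintype.card_subtype, Finset.card_filter]
      refine Finset.sum_congr rfl fun τ _ => ?_
      simp only [hxm]
    have cb : Nat.card {τ : K →+* N // RingOfIntegers.mapRingHom τ Y' ∈ Q} =
        ∑ τ : K →+* N, (if y τ = 0 then 1 else 0) := by
      rw [Nat.card_eq_fintype_card, Fintype.card_subtype, Finset.card_filter]
      refine Finset.sum_congr rfl fun τ _ => ?_
      simp only [hym]
    rw [ca, cb, ← Finset.prod_pow_eq_pow_sum, ← Finset.prod_pow_eq_pow_sum,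
      ← Finset.prod_mul_distrib, ← Finset.prod_mul_distrib, Finset.prod_congr rfl fun τ _ => hε2 τ,
      Finset.prod_mul_distrib, Int.cast_prod, map_prod (Polynomial.C : 𝓞 N ⧸ Q →+* _)]

/-- the value at a root of unity is prime to `q` -/
theorem cop (hp2 : p ≠ 2) {q : ℕ} (hq : q.Prime) (hqp : q ≠ p) (c : Cyc p E) (i : E →+* N)
    {x y : 𝓞 K} (hG : Good q K x y) (f : Polynomial ℤ)
    (hf : f.map (Int.castRingHom (𝓞 N)) = nrmP K N x y) :
    ∀ P : Ideal (𝓞 E), P.IsPrime → ((q : ℕ) : 𝓞 E) ∈ P → ∀ w : 𝓞 E, (w : E) = aeval c.z f →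
      w ∉ P := by
  classical
  intro P hP hPq w hw hwP
  haveI := hP
  have hpp : p.Prime := Fact.out
  have hodd : Odd p := hpp.odd_of_ne_two hp2
  set j : 𝓞 E →+* 𝓞 N := RingOfIntegers.mapRingHom i with hj
  have hjinj : Function.Injective j := by
    intro a b hab
    have h1 : ((j a : 𝓞 N) : N) = j b := congrArg _ hab
    rw [hj, RingOfIntegers.mapRingHom_apply, RingOfIntegers.mapRingHom_apply] at h1
    exact RingOfIntegers.ext (i.injective h1)
  obtain ⟨Q, hQ, hQP⟩ := Y67.WQ.exists_over j hjinj P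
  haveI := hQ
  have hmem : ∀ a : 𝓞 E, a ∈ P → j a ∈ Q := by
    intro a ha
    rw [← hQP] at ha
    exact ha
  obtain ⟨u, hu, hup⟩ := exists_zint c
  have hzp : IsPrimitiveRoot (j u) p := hup.map_of_injective hjinj
  set v : 𝓞 N := j u with hv
  have hqQ : ((q : ℕ) : 𝓞 N) ∈ Q := by
    have := hmem _ hPq
    rwa [map_natCast] at this
  have hvQ : v ∉ Q := by
    intro h
    apply one_notMem Q hQ
    rw [← hzp.pow_eq_one]
    exact Q.pow_mem_of_mem h p hpp.pos
  have h1v : 1 - v ∉ Q := by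
    intro h
    have h5 := p_mem_of_one_sub_mem v hzp Q h
    refine int_notMem Q hQ q hq hqQ (p : ℤ) ?_ (by exact_mod_cast h5)
    intro h
    have h9 : q ∣ p := by exact_mod_cast h
    exact hqp ((Nat.prime_dvd_prime_iff_eq hq hpp).1 h9)
  have h2v : 1 + v ∉ Q := by
    intro h
    apply h1v
    have h2 : (2 : 𝓞 N) ∈ Q := by
      have e1 : (1 + v) ∣ v ^ p + 1 ^ p := by
        have := hodd.add_dvd_pow_add_pow v 1
        rwa [add_comm] at this
      obtain ⟨d, hd⟩ := e1
      rw [hzp.pow_eq_one, one_pow] at hd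
      have e2 : (2 : 𝓞 N) = (1 + v) * d := by
        rw [← hd]
        norm_num
      rw [e2]
      exact Q.mul_mem_right _ h
    have e3 : 1 - v = 2 - (1 + v) := by ring
    rw [e3]
    exact Q.sub_mem h2 h
  -- the value
  have hw' : w = aeval u f := by
    apply RingOfIntegers.ext
    rw [hw, ← hu]
    exact (Polynomial.aeval_algebraMap_apply E u f)
  have hjw : j w = ∏ τ : K →+* N, (RingOfIntegers.mapRingHom τ x +
      v * RingOfIntegers.mapRingHom τ y) := by
    have h1 : j w = (f.map (Int.castRingHom (𝓞 N))).eval v := by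
      rw [hw', Polynomial.aeval_def, Polynomial.hom_eval₂, Polynomial.eval_map,
        RingHom.ext_int (j.comp (algebraMap ℤ (𝓞 E))) (Int.castRingHom (𝓞 N))]
    rw [h1, hf, nrmP, Polynomial.eval_prod]
    refine Finset.prod_congr rfl fun τ _ => ?_
    rw [Polynomial.eval_add, Polynomial.eval_C, Polynomial.eval_mul, Polynomial.eval_X,
      Polynomial.eval_C]
  have hprod := hmem w hwP
  rw [hjw, hQ.prod_mem_iff] at hprod
  obtain ⟨τ, -, hτ⟩ := hprod
  set T : 𝓞 K →+* 𝓞 N := RingOfIntegers.mapRingHom τ with hT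
  have h1 := hG (Q.comap T) (hQ.comap _) (by rw [Ideal.mem_comap, map_natCast]; exact hqQ)
  simp only [Ideal.mem_comap, map_add, map_sub] at h1
  rcases h1 with ⟨h2, h3⟩ | ⟨h2, h3⟩ | ⟨h2, h3, h4 | h4⟩
  · have h5 : v * T y ∈ Q := by
      have := Q.sub_mem hτ h2
      rwa [add_sub_cancel_left] at this
    exact h3 ((hQ.mem_or_mem h5).resolve_left hvQ)
  · have h5 : T x ∈ Q := by
      have := Q.sub_mem hτ (Q.mul_mem_left v h3)
      rwa [add_sub_cancel_right] at this
    exact h2 h5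
  · have h5 : (1 - v) * T y ∈ Q := by
      have e : (1 - v) * T y = (T x + T y) - (T x + v * T y) := by ring
      rw [e]
      exact Q.sub_mem h4 hτ
    exact h3 ((hQ.mem_or_mem h5).resolve_left h1v)
  · have h5 : (1 + v) * T y ∈ Q := by
      have e : (1 + v) * T y = (T x + v * T y) - (T x - T y) := by ring
      rw [e]
      exact Q.sub_mem hτ h4
    exact h3 ((hQ.mem_or_mem h5).resolve_left h2v)

end

end Pool.Agent.Q290.FW
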