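import Pool.Agent.Q290.FW.Sum
import Pool.Agent.Q290.FW.Loc
import Pool.Agent.Y546.WQ.All
import Pool.Agent.Y546.WQ.PolAA

/-!
# The exponents of the Stickelberger relations of a solution in the first case
-/

set_option autoImplicit false
set_option linter.all false

namespace Pool.Agent.Q290.FW

open NumberField IsDedekindDomain Polynomial Pool.Agent.Y546.WQ

/-- the part of an integer prime to `q` -/
theorem exists_q_part {q : ℕ} (hq : q.Prime) (u : ℤ) (hu : u ≠ 0) :
    ∃ (s : ℕ) (n : ℤ), ¬ (q : ℤ) ∣ n ∧ u = (q : ℤ) ^ s * n := by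
  have h : FiniteMultiplicity (q : ℤ) u :=
    Int.finiteMultiplicity_iff.2 ⟨by rw [Int.natAbs_natCast]; exact hq.ne_one, hu⟩
  obtain ⟨n, h1, h2⟩ := h.exists_eq_pow_mul_and_not_dvd
  exact ⟨_, n, h2, h1⟩

section

variable {p : ℕ} [Fact p.Prime] {E : Type} [Field E] [NumberField E]
  {K N : Type} [Field K] [NumberField K] [Field N] [NumberField N]

/-- the exponents of all relations -/
theorem expo (hp2 : p ≠ 2) {q : ℕ} (hq : q.Prime) (hqp : q ≠ p)
    (hW : ¬ p ^ 2 ∣ q ^ (p - 1) - 1) (c : Cyc p E) (i : E →+* N) (hD : Dn p E N i)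
    (hcard : Nat.card (K →+* N) = Module.finrank ℚ K)
    (Q : Ideal (𝓞 N)) (hQ : Q.IsPrime) (hqQ : ((q : ℕ) : 𝓞 N) ∈ Q)
    {x y z : 𝓞 K} (hs : Sol p K x y z) (hG : Good q K x y) (f : Polynomial ℤ)
    (hdeg : f.natDegree ≤ Module.finrank ℚ K) (hc0 : f.coeff 0 = Algebra.norm ℤ x)
    (hcm : f.coeff (Module.finrank ℚ K) = Algebra.norm ℤ y)
    (hev : ∀ t : ℤ, f.eval t = Algebra.norm ℤ (x + (t : 𝓞 K) * y))
    (hf : f.map (Int.castRingHom (𝓞 N)) = nrmP K N x y) (a : ℕ) (ha : 0 < a) (hap : a + 2 ≤ p) :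
    ∃ (k : ℕ) (r : ZMod p), r ≠ 0 ∧
      (X - 1) ^ (p - 1) ∣ thPa p a (f.map (Int.castRingHom (ZMod p))) - Polynomial.C r * X ^ k ∧
      2 * (k : ZMod p) = ((Module.finrank ℚ K : ZMod p) +
        (Nat.card {τ : K →+* N // RingOfIntegers.mapRingHom τ x ∈ Q} : ℕ) -
        (Nat.card {τ : K →+* N // RingOfIntegers.mapRingHom τ y ∈ Q} : ℕ)) * hsa p a 1 := by
  have hpp : p.Prime := Fact.out
  obtain ⟨b1, b2, b3, b4, b5⟩ := base Y290.WQ.mainNORM hcard hs f hdeg hc0 hcm hev
  obtain ⟨h1, h2, h3⟩ := fldG Y261.WQ.main hp2 c i hD x y z hs.X0 hs.Y0 hs.Z0 hs.eq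
    (fun P hP hpP => (hs.cp P hP hpP).2.2) f hf
  obtain ⟨ε, hε, hloc⟩ := loc hq hcard Q hQ hqQ hG f hf
  have hcop := cop hp2 hq hqp c i hG f hf
  obtain ⟨s, n, hn, hsn⟩ := exists_q_part hq (f.eval 1) h2
  have hpn : ¬ (p : ℤ) ∣ n := fun h => b5 (hsn ▸ dvd_mul_of_dvd_right h _)
  obtain ⟨w, hwz, hw⟩ := exists_zint c
  have hΛ : algebraMap (𝓞 E) E (aeval w f) = aeval c.z f := by
    have hwz' : algebraMap (𝓞 E) E w = c.z := hwz
    rw [← hwz']
    exact (aeval_algebraMap_apply E w f).symm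
  obtain ⟨g, hg, k, hk⟩ := relGA aUNITA hp2 a ha hap c f n hpn b5 h1 (by
    intro P
    by_cases h2P : ((q : ℕ) : 𝓞 E) ∈ P.asIdeal
    · refine ⟨0, ?_⟩
      have hn1 : P.valuation E ((n : ℤ) : E) = 1 := by
        have := val_one P ((n : ℤ) : 𝓞 E) (int_notMem P.asIdeal P.isPrime q hq h2P n hn)
        simpa using this
      rw [hn1, mul_zero, WithZero.exp_zero, mul_one, ← hΛ]
      exact val_one P _ (hcop P.asIdeal P.isPrime h2P _ hΛ)
    · obtain ⟨m, hm⟩ := h3 P
      refine ⟨m, ?_⟩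
      rw [hm, hsn]
      congr 1
      push_cast
      rw [map_mul, map_pow]
      have h3 : P.valuation E ((q : ℕ) : E) = 1 := by
        have h10 : (((q : ℕ) : 𝓞 E) : E) = ((q : ℕ) : E) := map_natCast (algebraMap (𝓞 E) E) q
        have := val_one P ((q : ℕ) : 𝓞 E) h2P
        rwa [h10] at this
      rw [h3, one_pow, one_mul])
  obtain ⟨r, hr, hdv⟩ := Y919.WQ.mainLAMA p hp2 a ha hap E c f n hpn b5 g hg k hk
  exact ⟨k, r, hr, hdv, relQ hp2 c hq hqp f n hn (Module.finrank ℚ K) _ _ ε hε hdeg hloc hcop a g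
    k hk hW⟩

/-- the linear relation -/
theorem lin (hp2 : p ≠ 2) {q : ℕ} (hq : q.Prime) (hqp : q ≠ p)
    (hW : ¬ p ^ 2 ∣ q ^ (p - 1) - 1) (c : Cyc p E) (i : E →+* N) (hD : Dn p E N i)
    (hcard : Nat.card (K →+* N) = Module.finrank ℚ K)
    (Q : Ideal (𝓞 N)) (hQ : Q.IsPrime) (hqQ : ((q : ℕ) : 𝓞 N) ∈ Q)
    {x y z : 𝓞 K} (hs : Sol p K x y z) (hG : Good q K x y) (f : Polynomial ℤ)
    (hdeg : f.natDegree ≤ Module.finrank ℚ K) (hc0 : f.coeff 0 = Algebra.norm ℤ x)
    (hcm : f.coeff (Module.finrank ℚ K) = Algebra.norm ℤ y)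
    (hev : ∀ t : ℤ, f.eval t = Algebra.norm ℤ (x + (t : 𝓞 K) * y))
    (hf : f.map (Int.castRingHom (𝓞 N)) = nrmP K N x y) :
    ((Module.finrank ℚ K : ZMod p) +
        (Nat.card {τ : K →+* N // RingOfIntegers.mapRingHom τ x ∈ Q} : ℕ) -
        (Nat.card {τ : K →+* N // RingOfIntegers.mapRingHom τ y ∈ Q} : ℕ)) *
        (f.map (Int.castRingHom (ZMod p))).eval 1 =
      2 * (f.map (Int.castRingHom (ZMod p))).derivative.eval 1 := by
  obtain ⟨a, ha, hap, hne⟩ := exists_hsa (p := p) hp2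
  obtain ⟨k, r, hr, hdv, hk⟩ := expo hp2 hq hqp hW c i hD hcard Q hQ hqQ hs hG f hdeg hc0 hcm hev
    hf a ha hap
  have h1 := lin_of hp2 a k _ r hr hdv
  apply mul_right_cancel₀ hne
  rw [mul_right_comm, ← hk]
  linear_combination 2 * h1

/-- the polynomial argument with a known exponent -/
theorem polQ (m k : ℕ) (f : Polynomial (ZMod p)) (hp : 2 * m + 3 ≤ p) (hk : k ≤ 2 * m)
    (hf : f.natDegree ≤ m) (h0 : f.coeff 0 ≠ 0) (hm : f.coeff m ≠ 0) (h1 : f.eval 1 ≠ 0)
    (hlin : (k : ZMod p) * f.eval 1 = 2 * f.derivative.eval 1) (hrel : Rel p f)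
    (hreg : ∀ j, Odd j → 3 ≤ j → j < 2 * m → Reg p j) : k = m ∧ f.reflect m = f := by
  refine Y824.WQ.pal hf h0 hm hk ?_
  by_cases hz : X ^ m * f - X ^ k * f.reflect m = 0
  · rw [hz]
    exact dvd_zero _
  obtain ⟨W, hW, hW1⟩ := exists_eq_pow_rootMultiplicity_mul_and_not_dvd _ hz 1
  set l := (X ^ m * f - X ^ k * f.reflect m).rootMultiplicity 1 with hl
  rw [C_1] at hW hW1
  have hW2 : W.eval 1 ≠ 0 := by
    intro h
    apply hW1
    rw [← C_1, dvd_iff_isRoot]
    exact h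
  have hl1 : 1 ≤ l := by
    rw [hl, Nat.one_le_iff_ne_zero, ← Nat.pos_iff_ne_zero, rootMultiplicity_pos hz, IsRoot.def]
    simp [Y824.WQ.eval_reflect hf]
  by_cases hl2 : l ≤ 2 * m
  · exfalso
    have hlne : l ≠ 1 := by
      intro h
      rw [h, pow_one] at hW
      have e1 := congrArg (fun g => eval 1 (derivative g)) hW
      simp only [derivative_sub, derivative_mul, derivative_X_pow, eval_sub, eval_add, eval_mul,
        eval_pow, eval_X, one_pow, mul_one, one_mul, derivative_X, derivative_one, eval_one,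
        sub_self, zero_mul, eval_C, sub_zero, add_zero, eval_natCast, C_eq_natCast] at e1
      have e2 : (f.reflect m).eval 1 = f.eval 1 := Y824.WQ.eval_reflect hf
      have e3 : (f.reflect m).derivative.eval 1 = m * f.eval 1 - f.derivative.eval 1 := by
        have hr : f.reflect m = ∑ j ∈ Finset.range (m + 1), C (f.coeff (m - j)) * X ^ j := by
          have hd : (f.reflect m).natDegree < m + 1 := by
            have := natDegree_reflect_le (p := f) (N := m)
            omega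
          rw [as_sum_range_C_mul_X_pow' (f.reflect m) hd]
          refine Finset.sum_congr rfl fun j hj => ?_
          rw [coeff_reflect, revAt_le (Nat.lt_succ_iff.1 (Finset.mem_range.1 hj))]
        have hf' : f = ∑ j ∈ Finset.range (m + 1), C (f.coeff j) * X ^ j :=
          as_sum_range_C_mul_X_pow' f (Nat.lt_succ_of_le hf)
        have g1 : f.eval 1 = ∑ j ∈ Finset.range (m + 1), f.coeff j := by
          conv_lhs => rw [hf']
          rw [eval_finsetSum]
          simp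
        have g2 : f.derivative.eval 1 = ∑ j ∈ Finset.range (m + 1), f.coeff j * (j : ZMod p) := by
          conv_lhs => rw [hf']
          rw [derivative_sum, eval_finsetSum]
          refine Finset.sum_congr rfl (fun j _ => ?_)
          rw [derivative_C_mul_X_pow]
          simp
        have g3 : (f.reflect m).derivative.eval 1 =
            ∑ j ∈ Finset.range (m + 1), f.coeff (m - j) * (j : ZMod p) := by
          rw [hr, derivative_sum, eval_finsetSum]
          refine Finset.sum_congr rfl (fun j _ => ?_)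
          rw [derivative_C_mul_X_pow]
          simp
        rw [g3, ← Finset.sum_range_reflect, g1, g2, Finset.mul_sum, ← Finset.sum_sub_distrib]
        refine Finset.sum_congr rfl fun j hj => ?_
        have hj' : j ≤ m := Nat.lt_succ_iff.1 (Finset.mem_range.1 hj)
        rw [show m + 1 - 1 - j = m - j by omega, Nat.sub_sub_self hj', Nat.cast_sub hj']
        ring
      rw [e2, e3] at e1
      apply hW2
      linear_combination -e1 - hlin
    obtain ⟨a0, ha0, hap0, -⟩ := exists_hsa (p := p) (by omega)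
    obtain ⟨i0, r0, hr0, hdv0⟩ := hrel a0 ha0 hap0
    obtain ⟨h2, -⟩ := Y275.WQ.mainCOREA p (by omega) a0 ha0 hap0 m k i0 l f W r0 hf h1 hr0 hdv0 hW
      hW2 (by omega) (by omega)
    have hl4 : 3 ≤ l := by
      rcases h2 with ⟨u, hu⟩
      omega
    obtain ⟨a, ha, hap, hne⟩ := hreg l h2 hl4 (by
      rcases h2 with ⟨u, hu⟩
      omega)
    obtain ⟨i', r', hr', hdv'⟩ := hrel a ha hap
    obtain ⟨-, h5⟩ := Y275.WQ.mainCOREA p (by omega) a ha hap m k i' l f W r' hf h1 hr' hdv' hW hW2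
      (by omega) (by omega)
    exact hne h5
  · rw [hW]
    exact Dvd.dvd.mul_right (pow_dvd_pow _ (by omega)) _

end

end Pool.Agent.Q290.FW
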