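import Pool.Agent.Q290.FW.Eq
import Pool.Agent.Y61.WQ.BER

/-!
# Furtwaengler's theorem over quadratic fields, second part
-/

set_option autoImplicit false
set_option linter.all false

namespace Pool.Agent.Q290.FW

open NumberField IsDedekindDomain Polynomial Pool.Agent.Y546.WQ

section

variable {p : ℕ} [Fact p.Prime] {E : Type} [Field E] [NumberField E]
  {K N : Type} [Field K] [NumberField K] [Field N] [NumberField N]

theorem two_reg (hK : Module.finrank ℚ K = 2) (h3 : Reg p 3) :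
    ∀ j, Odd j → 3 ≤ j → j < 2 * Module.finrank ℚ K → Reg p j := by
  intro j hj h3j hjm
  rw [hK] at hjm
  have : j = 3 := by omega
  rw [this]
  exact h3

theorem reg_three (h7 : 7 ≤ p) (h : ¬ (p : ℤ) ∣ (_root_.bernoulli (p - 3)).num) : Reg p 3 := by
  refine reg_of Y61.WQ.mainBER 3 (by decide) le_rfl (by omega) fun hk => h ?_
  unfold irr at hk
  exact (Finset.mem_filter.1 hk).2.2.2.2

/-- some prime above `q` divides none of the three: quadratic fields -/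
theorem part2 (hK : Module.finrank ℚ K = 2) (σ : 𝓞 K →+* 𝓞 K)
    (hN : ∀ a : 𝓞 K, ((Algebra.norm ℤ a : ℤ) : 𝓞 K) = a * σ a)
    (hT : ∀ a : 𝓞 K, ((Algebra.trace ℤ (𝓞 K) a : ℤ) : 𝓞 K) = a + σ a)
    (h7 : 7 ≤ p) {q : ℕ} (hq : q.Prime) (hqp : q ≠ p)
    (hW : ¬ p ^ 2 ∣ q ^ (p - 1) - 1) (c : Cyc p E) (i : E →+* N) (hD : Dn p E N i)
    (hcard : Nat.card (K →+* N) = Module.finrank ℚ K)
    {x y z : 𝓞 K} (hs : Sol p K x y z)
    (hn : ∀ P : Ideal (𝓞 K), P.IsPrime → ((q : ℕ) : 𝓞 K) ∈ P → ¬ (x ∈ P ∧ y ∈ P ∧ z ∈ P))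
    (hq1 : q % p ≠ 1)
    (hd : Reg p 3 ∨ ¬ ∃ r : ZMod p, r ≠ 0 ∧ r ^ 2 = -15 * (NumberField.discr K : ℤ))
    (hx : ∀ P : Ideal (𝓞 K), P.IsPrime → ((q : ℕ) : 𝓞 K) ∈ P → x ∈ P ∨ y ∈ P ∨ z ∈ P) :
    False := by
  have hpp : p.Prime := Fact.out
  obtain ⟨Q, hQ, hqQ⟩ := exists_above (K := N) q hq
  obtain ⟨g1, g2, g3⟩ := goods hK σ hN hT (by omega) hq hqp hW c i hD hcard hs hn hq1 hx
  have hn2 : ∀ P : Ideal (𝓞 K), P.IsPrime → ((q : ℕ) : 𝓞 K) ∈ P → ¬ (y ∈ P ∧ z ∈ P ∧ x ∈ P) :=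
    fun P hP hqP hh => hn P hP hqP ⟨hh.2.2, hh.1, hh.2.1⟩
  have hsum := (cnt_sum (q := q) hcard Q hQ hqQ (x := x) (y := y) (z := z) (by
    intro P hP hqP
    refine ⟨fun h => ?_, fun h => ?_, fun h => ?_⟩
    · exact (two_of hpp hs.eq hP (hn P hP hqP) h.1).1 h.2
    · refine (two_of hpp hs.rot.eq hP (hn2 P hP hqP) h.1).1 h.2
    · exact (two_of hpp hs.eq hP (hn P hP hqP) h.1).2 h.2)).2.1 hx
  rw [hK] at hsum
  rcases hd with h3 | hd
  · have e1 := eqQ (by rw [hK]; omega) hq hqp hW c i hD hcard Q hQ hqQ (Or.inl (two_reg hK h3)) hs g1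
    have e2 := eqQ (by rw [hK]; omega) hq hqp hW c i hD hcard Q hQ hqQ (Or.inl (two_reg hK h3))
      hs.rot g2
    omega
  obtain ⟨D, m, hD1, hD2⟩ := cls hK σ hN hT (by omega) hq hqp hW c i hD hcard Q hQ hqQ hs hn
    g1 g2 g3
  rcases hD2 with h | h | ⟨-, s, hs0, hs1⟩
  · omega
  · omega
  · apply hd
    have h15 : (15 : ZMod p) ≠ 0 := by
      have h3 := three_ne (p := p) (by omega)
      have h5' := five_ne (p := p) (by omega) (by omega)
      have : (15 : ZMod p) = 3 * 5 := by norm_num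
      rw [this]
      exact mul_ne_zero h3 h5'
    exact sq_of hD1 hs1 h15 hs0

end

end Pool.Agent.Q290.FW
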