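import Pool.Agent.Q290.FW.Furt2
import Pool.Agent.Y546.SG.Nf

/-!
# Furtwaengler's theorem over quadratic fields: valuations
-/

set_option autoImplicit false
set_option linter.all false

namespace Pool.Agent.Q290.FW

open NumberField IsDedekindDomain Pool.Agent.Y546.WQ Pool.Agent.Y546

section

variable {K : Type} [Field K] [NumberField K]

/-- the point of the spectrum given by a prime ideal above a prime number -/
theorem spec_of {q : ℕ} (hq : q.Prime) {P : Ideal (𝓞 K)} (hP : P.IsPrime)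
    (hqP : ((q : ℕ) : 𝓞 K) ∈ P) : ∃ v : HeightOneSpectrum (𝓞 K), v.asIdeal = P := by
  refine ⟨⟨P, hP, ?_⟩, rfl⟩
  rintro rfl
  rw [Ideal.mem_bot] at hqP
  exact hq.ne_zero (by exact_mod_cast hqP)

/-- equal valuations from the absence of divisibility -/
theorem val_eq {p : ℕ} (v : HeightOneSpectrum (𝓞 K)) {X Y : 𝓞 K} (hX : X ∉ v.asIdeal)
    (hY : Y ∉ v.asIdeal) {a x y : K} (ha : a ≠ 0)
    (hXa : algebraMap (𝓞 K) K X = a * x) (hYa : algebraMap (𝓞 K) K Y = a * y) :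
    v.valuation K x = v.valuation K y := by
  have h1 := val_one v X hX
  have h2 := val_one v Y hY
  have hva : v.valuation K a ≠ 0 := (Valuation.ne_zero_iff _).2 ha
  have e : v.valuation K a * v.valuation K x = v.valuation K a * v.valuation K y := by
    rw [← map_mul, ← map_mul, ← hXa, ← hYa]
    exact h1.trans h2.symm
  exact mul_left_cancel₀ hva e

/-- Furtwaengler's theorem over quadratic fields -/
theorem furtQ {p q : ℕ} (hp : p.Prime) (h5 : 5 ≤ p) (hq : q.Prime)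
    (hW : ¬ p ^ 2 ∣ q ^ (p - 1) - 1) (hK : Module.finrank ℚ K = 2)
    {x y z : K} (hx : x ≠ 0) (hy : y ≠ 0) (hz : z ≠ 0) (h : x ^ p + y ^ p + z ^ p = 0)
    (hv : ∀ v : HeightOneSpectrum (𝓞 K), ((p : ℕ) : 𝓞 K) ∈ v.asIdeal →
      v.valuation K x = v.valuation K y ∧ v.valuation K y = v.valuation K z) :
    (∃ v : HeightOneSpectrum (𝓞 K), ((q : ℕ) : 𝓞 K) ∈ v.asIdeal ∧
      v.valuation K y ≤ v.valuation K x) ∧
    (7 ≤ p → q % p ≠ 1 →
      (¬ (p : ℤ) ∣ (bernoulli (p - 3)).num ∨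
        ¬ ∃ r : ZMod p, r ≠ 0 ∧ r ^ 2 = -15 * (NumberField.discr K : ZMod p)) →
      ∃ v : HeightOneSpectrum (𝓞 K), ((q : ℕ) : 𝓞 K) ∈ v.asIdeal ∧
        v.valuation K x = v.valuation K y ∧ v.valuation K y = v.valuation K z) := by
  have hfact : Fact p.Prime := ⟨hp⟩
  have hp2 : p ≠ 2 := by omega
  by_cases hqp : q = p
  · subst hqp
    obtain ⟨P, hP, hqP⟩ := exists_above (K := K) q hq
    obtain ⟨v, rfl⟩ := spec_of hq hP hqP
    exact ⟨⟨v, hqP, (hv v hqP).1.ge⟩, fun _ _ _ => ⟨v, hqP, hv v hqP⟩⟩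
  obtain ⟨E, _, _, ⟨c⟩⟩ := Y978.WQ.main p hp2
  obtain ⟨N, _, _, i, hcard, hD⟩ := Y258.WQ.mainDOWNG p E c K (by omega)
  obtain ⟨σ, hN, hT⟩ := SG.exists_conj hK
  obtain ⟨X, Y, Z, hs, hn, a, ha, hXa, hYa, hZa⟩ := prepQ hp hq hx hy hz h hv
  constructor
  · by_contra hcon
    push Not at hcon
    refine part1 hK σ hN hT h5 hq hqp hW c i hD hcard hs hn fun P hP hqP => ?_
    obtain ⟨v, rfl⟩ := spec_of hq hP hqP
    exact (mem_iff hp hs.eq v (hn _ hP hqP) ha hXa hYa).2 (hcon v hqP)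
  · intro h7 hq1 hd
    by_contra hcon
    push Not at hcon
    refine part2 hK σ hN hT h7 hq hqp hW c i hD hcard hs hn hq1 (hd.imp (reg_three h7) id)
      fun P hP hqP => ?_
    obtain ⟨v, rfl⟩ := spec_of hq hP hqP
    by_contra hno
    push Not at hno
    obtain ⟨n1, n2, n3⟩ := hno
    exact hcon v hqP (val_eq (p := p) v n1 n2 ha hXa hYa) (val_eq (p := p) v n2 n3 ha hYa hZa)

end

end Pool.Agent.Q290.FW
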