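import Pool.Agent.Y546.WQ.Stm2
import Pool.Agent.Y546.WQ.Prep
import Pool.Agent.Y546.WQ.FldG
import Pool.Agent.Y261.WQ.IDE

/-!
# The ideals of the factors of a sum of two `p`-th powers, without any condition at `p`
-/

set_option autoImplicit false
set_option linter.all false

namespace Pool.Agent.Q290.FW

open NumberField IsDedekindDomain Polynomial Pool.Agent.Y546.WQ Pool.Agent.Y546

section

variable {R : Type} [CommRing R] [IsDedekindDomain R]

open Ideal Finset in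
theorem ideA (p : ℕ) [Fact p.Prime] (hp2 : p ≠ 2) (z : R) (hz : IsPrimitiveRoot z p) (X Y Z : R)
    (hX : X ≠ 0) (hY : Y ≠ 0) (hZ : Z ≠ 0) (h : X ^ p + Y ^ p + Z ^ p = 0) :
    ∃ A B : Ideal R, A ≠ ⊥ ∧ B ≠ ⊥ ∧
      Ideal.span {X + z * Y} * B ^ p = Ideal.span {X + Y} * A ^ p := by
  have hp : p.Prime := Fact.out
  have hodd : Odd p := hp.odd_of_ne_two hp2
  have hp0 : p ≠ 0 := hp.ne_zero
  set G : Ideal R := span {X, Y} with hG
  have hXG : X ∈ G := subset_span (by simp)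
  have hYG : Y ∈ G := subset_span (by simp)
  have hG0 : G ≠ ⊥ := by
    rintro h0
    rw [h0, mem_bot] at hXG
    exact hX hXG
  set S : Finset R := nthRootsFinset p (1 : R) with hS
  have hfac : ∀ ζ : R, ∃ I : Ideal R, span {X + ζ * Y} = G * I := fun ζ =>
    dvd_span_singleton.2 (add_mem hXG (mul_mem_left _ _ hYG))
  choose I hI using hfac
  have hprod : ∏ ζ ∈ S, (X + ζ * Y) = -Z ^ p := by
    rw [← hz.pow_add_pow_eq_prod_add_mul X Y hodd]
    linear_combination h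
  have hne : ∀ ζ ∈ S, X + ζ * Y ≠ 0 := by
    intro ζ hζ h0
    have h1 : ∏ ζ ∈ S, (X + ζ * Y) = 0 := prod_eq_zero hζ h0
    rw [hprod, neg_eq_zero] at h1
    exact hZ (pow_eq_zero_iff hp0 |>.1 h1)
  have hI0 : ∀ ζ ∈ S, I ζ ≠ ⊥ := by
    intro ζ hζ h0
    have h1 := hI ζ
    rw [h0, mul_bot, span_singleton_eq_bot] at h1
    exact hne ζ hζ h1
  have hGp : G ^ p * ∏ ζ ∈ S, I ζ = span {Z} ^ p := by
    have h1 : ∏ ζ ∈ S, span {X + ζ * Y} = G ^ p * ∏ ζ ∈ S, I ζ := by
      rw [prod_congr rfl fun ζ _ => hI ζ, prod_mul_distrib, prod_const, hS, hz.card_nthRootsFinset]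
    rw [← h1, prod_span_singleton, hprod, span_singleton_neg, span_singleton_pow]
  have hGZ : G ∣ span {Z} := by
    have h1 : G ^ p ∣ span {Z} ^ p := ⟨_, hGp.symm⟩
    exact (UniqueFactorizationMonoid.pow_dvd_pow_iff_dvd hp0).1 h1
  obtain ⟨Z', hZ'⟩ := hGZ
  have hprodI : ∏ ζ ∈ S, I ζ = Z' ^ p := by
    rw [hZ', mul_pow] at hGp
    exact mul_left_cancel₀ (pow_ne_zero p hG0) hGp
  have h1S : (1 : R) ∈ S := (mem_nthRootsFinset hp.pos 1).2 (one_pow p)
  have hzS : z ∈ S := (mem_nthRootsFinset hp.pos 1).2 hz.pow_eq_one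
  -- the greatest common divisor
  set D : Ideal R := S.sup I with hD
  have hD0 : D ≠ ⊥ := by
    intro h0
    apply hI0 1 h1S
    rw [← le_bot_iff, ← h0]
    exact Finset.le_sup h1S
  have hdI : ∀ ζ : R, ∃ J : Ideal R, ζ ∈ S → I ζ = D * J := by
    intro ζ
    by_cases hζ : ζ ∈ S
    · obtain ⟨J, hJ⟩ : D ∣ I ζ := dvd_iff_le.2 (Finset.le_sup hζ)
      exact ⟨J, fun _ => hJ⟩
    · exact ⟨⊥, fun h => absurd h hζ⟩
  choose J hJ using hdI
  have hJ0 : ∀ ζ ∈ S, J ζ ≠ ⊥ := by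
    intro ζ hζ h0
    apply hI0 ζ hζ
    rw [hJ ζ hζ, h0, mul_bot]
  have hDZ : D ∣ Z' := by
    have h1 : D ^ p ∣ Z' ^ p := by
      refine ⟨∏ ζ ∈ S, J ζ, ?_⟩
      rw [← hprodI, prod_congr rfl fun ζ hζ => hJ ζ hζ, prod_mul_distrib, prod_const, hS,
        hz.card_nthRootsFinset]
    exact (UniqueFactorizationMonoid.pow_dvd_pow_iff_dvd hp0).1 h1
  obtain ⟨W, hW⟩ := hDZ
  have hprodJ : ∏ ζ ∈ S, J ζ = W ^ p := by
    have h1 : D ^ p * ∏ ζ ∈ S, J ζ = D ^ p * W ^ p := by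
      rw [← mul_pow, ← hW, ← hprodI, prod_congr rfl fun ζ hζ => hJ ζ hζ, prod_mul_distrib,
        prod_const, hS, hz.card_nthRootsFinset]
    exact mul_left_cancel₀ (pow_ne_zero p hD0) h1
  have hass := hz.nthRootsFinset_pairwise_associated_sub_one_sub_of_prime hp
  have hcop : ∀ ζ ∈ S, ∀ ξ ∈ S, ζ ≠ ξ → IsCoprime (J ζ) (J ξ) := by
    intro ζ hζ ξ hξ hne'
    by_contra hcon
    rw [Ideal.isCoprime_iff_sup_eq] at hcon
    obtain ⟨P, hP, hle⟩ := exists_le_maximal _ hcon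
    have hPp : P.IsPrime := hP.isPrime
    have hPI : P ∣ J ζ := dvd_iff_le.2 (le_sup_left.trans hle)
    have hPJ : P ∣ J ξ := dvd_iff_le.2 (le_sup_right.trans hle)
    have m1 : X + ζ * Y ∈ P * D * G := by
      rw [← dvd_span_singleton, hI, hJ ζ hζ, mul_comm (P * D) G, mul_comm P D]
      exact mul_dvd_mul_left G (mul_dvd_mul_left D hPI)
    have m2 : X + ξ * Y ∈ P * D * G := by
      rw [← dvd_span_singleton, hI, hJ ξ hξ, mul_comm (P * D) G, mul_comm P D]
      exact mul_dvd_mul_left G (mul_dvd_mul_left D hPJ)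
    have m3 : (ζ - ξ) * Y ∈ P * D * G := by
      have : (ζ - ξ) * Y = (X + ζ * Y) - (X + ξ * Y) := by ring
      rw [this]
      exact sub_mem m1 m2
    have m4 : (ζ - ξ) * X ∈ P * D * G := by
      have : (ζ - ξ) * X = ζ * (X + ξ * Y) - ξ * (X + ζ * Y) := by ring
      rw [this]
      exact sub_mem (mul_mem_left _ _ m2) (mul_mem_left _ _ m1)
    have m5 : span {ζ - ξ} * G ≤ P * D * G := by
      rw [hG, span_mul_span', span_le, ← hG]
      rintro _ ⟨a, ha, b, hb, rfl⟩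
      rw [Set.mem_singleton_iff] at ha
      subst ha
      simp only [Set.mem_insert_iff, Set.mem_singleton_iff] at hb
      rcases hb with rfl | rfl
      · exact m4
      · exact m3
    have m6 : P * D ∣ span {ζ - ξ} := (mul_dvd_mul_iff_right hG0).1 (dvd_iff_le.2 m5)
    have m7 : z - 1 ∈ P * D := by
      have h1 : ζ - ξ ∈ P * D := dvd_span_singleton.1 m6
      exact (P * D).mem_of_dvd ((hass hζ hξ hne').dvd') h1
    -- all factors
    have m8 : ∀ η ∈ S, P * D ∣ I η := by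
      intro η hη
      have h1 : η - ζ ∈ P * D := by
        by_cases he : η = ζ
        · rw [he, sub_self]
          exact zero_mem _
        · exact (P * D).mem_of_dvd ((hass hη hζ he).dvd) m7
      have h2 : X + η * Y ∈ P * D * G := by
        have : X + η * Y = (X + ζ * Y) + (η - ζ) * Y := by ring
        rw [this]
        exact add_mem m1 (mul_mem_mul h1 hYG)
      rw [← dvd_span_singleton, hI, mul_comm G] at h2
      exact (mul_dvd_mul_iff_right hG0).1 h2
    have m9 : D ≤ P * D := Finset.sup_le fun η hη => dvd_iff_le.1 (m8 η hη)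
    have m10 : P * D ∣ D := dvd_iff_le.2 m9
    have m11 : P ∣ 1 := by
      have : P * D ∣ 1 * D := by rwa [one_mul]
      exact (mul_dvd_mul_iff_right hD0).1 this
    have m12 : P = 1 := by
      rw [← isUnit_iff_eq_one] at *
      exact isUnit_of_dvd_one m11
    apply hP.ne_top
    rw [m12, one_eq_top]
  have hpow := Finset.exists_eq_pow_of_mul_eq_pow_of_coprime hcop hprodJ
  obtain ⟨B, hB⟩ := hpow 1 h1S
  obtain ⟨A, hA⟩ := hpow z hzS
  refine ⟨A, B, ?_, ?_, ?_⟩
  · rintro rfl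
    apply hJ0 z hzS
    rw [hA]
    exact zero_pow hp0
  · rintro rfl
    apply hJ0 1 h1S
    rw [hB]
    exact zero_pow hp0
  · have h1 := hI 1
    rw [one_mul] at h1
    rw [hI z, h1, hJ z hzS, hJ 1 h1S, hA, hB]
    ring

end

section

variable {p : ℕ} [Fact p.Prime] {E : Type} [Field E] [NumberField E]
  {K N : Type} [Field K] [NumberField K] [Field N] [NumberField N]

/-- the norm of `x + z y` in the cyclotomic field -/
theorem fldA (hp2 : p ≠ 2) (c : Cyc p E) (i : E →+* N)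
    (hD : Dn p E N i) (X Y Z : 𝓞 K) (hX : X ≠ 0) (hY : Y ≠ 0) (hZ : Z ≠ 0)
    (h : X ^ p + Y ^ p + Z ^ p = 0)
    (f : Polynomial ℤ) (hf : f.map (Int.castRingHom (𝓞 N)) = nrmP K N X Y) :
    aeval c.z f ≠ 0 ∧ f.eval 1 ≠ 0 ∧
    ∀ P : HeightOneSpectrum (𝓞 E), ∃ m : ℤ, P.valuation E (aeval c.z f) =
      P.valuation E ((f.eval 1 : ℤ) : E) * WithZero.exp ((p : ℤ) * m) := by
  classical
  have hpp : p.Prime := Fact.out
  have hodd : Odd p := hpp.odd_of_ne_two hp2
  -- the root of unity in the integers of N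
  have hzint : IsIntegral ℤ (i c.z) := by
    have h1 : (i c.z) ^ p = 1 := by rw [← map_pow, c.prim.pow_eq_one, map_one]
    exact ⟨Polynomial.X ^ p - 1, Polynomial.monic_X_pow_sub_C 1 hpp.ne_zero, by simp [h1]⟩
  obtain ⟨zN, hzN⟩ : ∃ w : 𝓞 N, (w : N) = i c.z := ⟨⟨i c.z, hzint⟩, rfl⟩
  have hzprim : IsPrimitiveRoot zN p := by
    apply IsPrimitiveRoot.of_map_of_injective (f := algebraMap (𝓞 N) N) _
      RingOfIntegers.coe_injective
    have h1 : algebraMap (𝓞 N) N zN = i c.z := hzN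
    rw [h1]
    exact c.prim.map_of_injective i.injective
  have key : ∀ τ : K →+* N,
      (RingOfIntegers.mapRingHom τ X + RingOfIntegers.mapRingHom τ Y ≠ 0 ∧
        RingOfIntegers.mapRingHom τ X + zN * RingOfIntegers.mapRingHom τ Y ≠ 0) ∧
      ∃ I J : Ideal (𝓞 N), I ≠ ⊥ ∧ J ≠ ⊥ ∧
        Ideal.span {RingOfIntegers.mapRingHom τ X + zN * RingOfIntegers.mapRingHom τ Y} * J ^ p =
          Ideal.span {RingOfIntegers.mapRingHom τ X + RingOfIntegers.mapRingHom τ Y} * I ^ p := by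
    intro τ
    have finj := mapRingHom_inj τ
    generalize RingOfIntegers.mapRingHom τ = φ at finj
    have habd : φ X ^ p + φ Y ^ p + φ Z ^ p = 0 := by
      rw [← map_pow, ← map_pow, ← map_pow, ← map_add, ← map_add, h, map_zero]
    obtain ⟨I, J, hI0, hJ0, hIJ⟩ := ideA p hp2 zN hzprim (φ X) (φ Y) (φ Z)
      (fun h0 => hX (finj (by rw [h0, map_zero]))) (fun h0 => hY (finj (by rw [h0, map_zero])))
      (fun h0 => hZ (finj (by rw [h0, map_zero]))) habd
    have h1 : φ X + φ Y ≠ 0 := by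
      intro h0
      have h2 : φ X = -φ Y := eq_neg_of_add_eq_zero_left h0
      have h3 : φ Z ^ p = 0 := by
        rw [h2, hodd.neg_pow, neg_add_cancel, zero_add] at habd
        exact habd
      have h5 := (pow_eq_zero_iff hpp.ne_zero).1 h3
      exact hZ (finj (by rw [h5, map_zero]))
    refine ⟨⟨h1, ?_⟩, I, J, hI0, hJ0, hIJ⟩
    intro h0
    rw [h0, Ideal.span_singleton_eq_bot.2 rfl, Ideal.bot_mul] at hIJ
    have h2 := hIJ.symm
    rw [Ideal.mul_eq_bot, Ideal.span_singleton_eq_bot] at h2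
    rcases h2 with h2 | h2
    · exact h1 h2
    · exact hI0 ((pow_eq_zero_iff hpp.ne_zero).1 h2)
  choose h1 I J hI0 hJ0 hIJ using key
  have eU : ((∏ τ : K →+* N, (RingOfIntegers.mapRingHom τ X +
      zN * RingOfIntegers.mapRingHom τ Y) : 𝓞 N) : N) = i (aeval c.z f) := by
    rw [← eval_f hf zN]
    have e1 : algebraMap (𝓞 N) N (aeval zN f) = aeval (algebraMap (𝓞 N) N zN) f :=
      (aeval_algebraMap_apply N zN f).symm
    have e2 : algebraMap (𝓞 N) N zN = i c.z := hzN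
    rw [e2] at e1
    refine e1.trans ?_
    rw [aeval_def, aeval_def, hom_eval₂]
    congr 1
    exact RingHom.ext_int _ _
  have eV : ((∏ τ : K →+* N, (RingOfIntegers.mapRingHom τ X +
      RingOfIntegers.mapRingHom τ Y) : 𝓞 N) : N) = i ((f.eval 1 : ℤ) : E) := by
    have e0 : (∏ τ : K →+* N, (RingOfIntegers.mapRingHom τ X + RingOfIntegers.mapRingHom τ Y)) =
        ((f.eval 1 : ℤ) : 𝓞 N) := by
      have e1 := eval_f hf (1 : 𝓞 N)
      simp only [one_mul] at e1
      rw [← e1]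
      have e2 := aeval_algebraMap_apply (𝓞 N) (1 : ℤ) f
      rw [map_one] at e2
      rw [e2]
      rfl
    rw [e0, map_intCast]
    exact map_intCast (algebraMap (𝓞 N) N) _
  have hU0 : (∏ τ : K →+* N, (RingOfIntegers.mapRingHom τ X +
      zN * RingOfIntegers.mapRingHom τ Y)) ≠ 0 := Finset.prod_ne_zero_iff.2 fun τ _ => (h1 τ).2
  have hV0 : (∏ τ : K →+* N, (RingOfIntegers.mapRingHom τ X +
      RingOfIntegers.mapRingHom τ Y)) ≠ 0 := Finset.prod_ne_zero_iff.2 fun τ _ => (h1 τ).1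
  have hu0 : aeval c.z f ≠ 0 := by
    intro h0
    rw [h0, map_zero] at eU
    exact hU0 (RingOfIntegers.coe_injective (by rw [map_zero]; exact eU))
  have hv0 : ((f.eval 1 : ℤ) : E) ≠ 0 := by
    intro h0
    rw [h0, map_zero] at eV
    exact hV0 (RingOfIntegers.coe_injective (by rw [map_zero]; exact eV))
  refine ⟨hu0, fun h0 => hv0 (by rw [h0, Int.cast_zero]), ?_⟩
  apply hD _ _ hu0 hv0 _ _ eU eV (∏ τ : K →+* N, I τ) (∏ τ : K →+* N, J τ)
  · rw [← Ideal.zero_eq_bot]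
    exact Finset.prod_ne_zero_iff.2 fun τ _ => hI0 τ
  · rw [← Ideal.zero_eq_bot]
    exact Finset.prod_ne_zero_iff.2 fun τ _ => hJ0 τ
  · rw [← Ideal.prod_span_singleton, ← Ideal.prod_span_singleton, ← Finset.prod_pow,
      ← Finset.prod_pow, ← Finset.prod_mul_distrib, ← Finset.prod_mul_distrib]
    exact Finset.prod_congr rfl fun τ _ => hIJ τ

end

end Pool.Agent.Q290.FW
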