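import Pool.Agent.Y546.WQ.All

/-!
# The criterion of Kummer and Eichler over number fields: few primes above `p`
-/

set_option autoImplicit false
set_option linter.all false

namespace Pool.Agent.Q290.FW

open NumberField IsDedekindDomain Polynomial Pool.Agent.Y546.WQ Pool.Agent.Y546

section fin

variable {p : ℕ} [Fact p.Prime] {k F : Type} [Field k] [Finite k] [Field F]
  [Algebra (ZMod p) k] [Algebra (ZMod p) F]

/-- two elements of a finite field with a common conjugate in another field are conjugate -/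
theorem exists_aut (φ ψ : k →+* F) (a b : k) (h : φ a = ψ b) :
    ∃ σ : k ≃ₐ[ZMod p] k, σ b = a := by
  have hφ : ∀ (φ : k →+* F) (r : ZMod p), φ (algebraMap (ZMod p) k r) = algebraMap (ZMod p) F r := by
    intro φ r
    exact RingHom.congr_fun (RingHom.ext_zmod (φ.comp (algebraMap (ZMod p) k))
      (algebraMap (ZMod p) F)) r
  let φ' : k →ₐ[ZMod p] F := { φ with commutes' := hφ φ }
  let ψ' : k →ₐ[ZMod p] F := { ψ with commutes' := hφ ψ }
  have h1 : minpoly (ZMod p) (φ' a) = minpoly (ZMod p) a :=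
    minpoly.algHom_eq φ' φ.injective a
  have h2 : minpoly (ZMod p) (ψ' b) = minpoly (ZMod p) b :=
    minpoly.algHom_eq ψ' ψ.injective b
  have h3 : φ' a = ψ' b := h
  have h4 : IsConjRoot (ZMod p) a b := by
    show minpoly (ZMod p) a = minpoly (ZMod p) b
    rw [← h1, ← h2, h3]
  exact isConjRoot_iff_exists_algEquiv.1 h4

/-- the automorphisms of a finite field commute -/
theorem aut_comm (σ τ : k ≃ₐ[ZMod p] k) (a : k) : σ (τ a) = τ (σ a) := by
  obtain ⟨g, hg⟩ := IsCyclic.exists_generator (α := k ≃ₐ[ZMod p] k)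
  obtain ⟨i, rfl⟩ := hg σ
  obtain ⟨j, rfl⟩ := hg τ
  have h := (Commute.refl g).zpow_zpow i j
  exact congrArg (fun f : k ≃ₐ[ZMod p] k => f a) h.eq

/-- if all six anharmonic values are conjugate then the number is a cube root of unity -/
theorem cube_of_conj {a : k} (h0 : a ≠ 0) (h1 : 1 + a ≠ 0) (σ ρ : k ≃ₐ[ZMod p] k)
    (hσ : σ a = a⁻¹) (hρ : ρ (1 + a) = (1 + a)⁻¹) : a ^ 2 + a + 1 = 0 := by
  have e1 : ρ a = (1 + a)⁻¹ - 1 := by
    rw [map_add, map_one] at hρ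
    linear_combination hρ
  have e2 : σ (ρ a) = (1 + a⁻¹)⁻¹ - 1 := by
    rw [e1, map_sub, map_inv₀, map_add, map_one, hσ]
  have e3 : ρ (σ a) = ((1 + a)⁻¹ - 1)⁻¹ := by
    rw [hσ, map_inv₀, e1]
  have e4 := aut_comm σ ρ a
  rw [e2, e3] at e4
  have e5 : (1 + a⁻¹)⁻¹ - 1 = -(1 + a)⁻¹ := by
    have : 1 + a⁻¹ = (1 + a) / a := by field_simp; ring
    rw [this, inv_div]
    field_simp
    ring
  have e6 : ((1 + a)⁻¹ - 1)⁻¹ = -((1 + a) / a) := by
    have : (1 + a)⁻¹ - 1 = -(a / (1 + a)) := by field_simp; ring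
    rw [this, inv_neg, inv_div]
  rw [e5, e6] at e4
  have e7 : (1 + a)⁻¹ = (1 + a) / a := neg_injective e4
  rw [inv_eq_one_div, div_eq_div_iff h1 h0] at e7
  linear_combination -e7

end fin

section

variable {p : ℕ} [Fact p.Prime] {K N : Type} [Field K] [NumberField K] [Field N] [NumberField N]

/-- an integer which is a primitive cube root of unity modulo `p` -/
theorem exists_cube_root (h : p % 3 = 1) : ∃ w : ℤ, (p : ℤ) ∣ w ^ 2 + w + 1 := by
  have hpp : p.Prime := Fact.out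
  have h4 : 3 ∣ Fintype.card (ZMod p)ˣ := by
    rw [ZMod.card_units]
    have := hpp.pos
    omega
  obtain ⟨g, hg⟩ := exists_prime_orderOf_dvd_card 3 h4
  have hg3 : (g : ZMod p) ^ 3 = 1 := by
    have : g ^ 3 = 1 := by rw [← hg]; exact pow_orderOf_eq_one g
    have := congrArg (fun u : (ZMod p)ˣ => (u : ZMod p)) this
    simpa using this
  have hg1 : (g : ZMod p) ≠ 1 := by
    intro h5
    have : g = 1 := Units.ext h5
    rw [this, orderOf_one] at hg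
    norm_num at hg
  have hgg : (g : ZMod p) ^ 2 + g + 1 = 0 := by
    have h6 : ((g : ZMod p) - 1) * ((g : ZMod p) ^ 2 + g + 1) = 0 := by
      linear_combination hg3
    exact (mul_eq_zero.1 h6).resolve_left (sub_ne_zero.2 hg1)
  obtain ⟨v, hv⟩ := ZMod.intCast_surjective (g : ZMod p)
  refine ⟨v, (ZMod.intCast_zmod_eq_zero_iff_dvd _ p).1 ?_⟩
  push_cast
  rw [hv]
  exact hgg

/-- the norm of a prime above `p = 1` modulo three -/
theorem card_mod (h : p % 3 = 1) (P : Ideal (𝓞 K)) (hP : P.IsPrime) (hpP : ((p : ℕ) : 𝓞 K) ∈ P) :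
    Nat.card (𝓞 K ⧸ P) % 3 = 1 := by
  have hpp : p.Prime := Fact.out
  have hP0 : P ≠ ⊥ := by
    rintro rfl
    rw [Ideal.mem_bot, Nat.cast_eq_zero] at hpP
    exact hpp.ne_zero hpP
  have hPm : P.IsMaximal := hP.isMaximal hP0
  let _ : Field (𝓞 K ⧸ P) := Ideal.Quotient.field P
  have hfin : Finite (𝓞 K ⧸ P) := Ideal.finiteQuotientOfFreeOfNeBot P hP0
  have hft : Fintype (𝓞 K ⧸ P) := Fintype.ofFinite _
  have hchP : CharP (𝓞 K ⧸ P) p := charP_quot P hP p hpp hpP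
  obtain ⟨n, -, hn⟩ := FiniteField.card (𝓞 K ⧸ P) p
  rw [Nat.card_eq_fintype_card, hn, Nat.pow_mod, h, one_pow]
  norm_num

/-- only one prime above `p` -/
theorem one_prime (hN : S_NORM) (hcard : Nat.card (K →+* N) = Module.finrank ℚ K)
    (hpal : PalK p K) (h5 : 5 ≤ p)
    (huniq : ∀ P P' : Ideal (𝓞 K), P.IsPrime → P'.IsPrime →
      ((p : ℕ) : 𝓞 K) ∈ P → ((p : ℕ) : 𝓞 K) ∈ P' → P = P')
    (hcard3 : ∀ P : Ideal (𝓞 K), P.IsPrime → ((p : ℕ) : 𝓞 K) ∈ P →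
      p % 3 = 1 ∨ Nat.card (𝓞 K ⧸ P) % 3 ≠ 1) {X Y Z : 𝓞 K} (hs : Sol p K X Y Z) : False := by
  classical
  have hpp : p.Prime := Fact.out
  obtain ⟨Q, hQ, hQp⟩ := exists_above (K := N) p hpp
  have hQ0 : Q ≠ ⊥ := by
    rintro rfl
    rw [Ideal.mem_bot, Nat.cast_eq_zero] at hQp
    exact hpp.ne_zero hQp
  have hQm : Q.IsMaximal := hQ.isMaximal hQ0
  let _ : Field (𝓞 N ⧸ Q) := Ideal.Quotient.field Q
  have hch : CharP (𝓞 N ⧸ Q) p := charP_quot Q hQ p hpp hQp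
  let _ : Algebra (ZMod p) (𝓞 N ⧸ Q) := ZMod.algebra _ p
  -- an embedding
  have hm := Module.finrank_pos (R := ℚ) (M := K)
  rw [← hcard] at hm
  obtain ⟨τ0⟩ := (Nat.card_pos_iff.1 hm).1
  have hPr : ∀ τ : K →+* N, (Q.comap (RingOfIntegers.mapRingHom τ)).IsPrime := fun τ => hQ.comap _
  have hPp : ∀ τ : K →+* N, ((p : ℕ) : 𝓞 K) ∈ Q.comap (RingOfIntegers.mapRingHom τ) := by
    intro τ
    rw [Ideal.mem_comap, map_natCast]
    exact hQp
  obtain ⟨P, hPdef⟩ : ∃ P : Ideal (𝓞 K), P = Q.comap (RingOfIntegers.mapRingHom τ0) := ⟨_, rfl⟩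
  have hP : P.IsPrime := hPdef ▸ hPr τ0
  have hpP : ((p : ℕ) : 𝓞 K) ∈ P := hPdef ▸ hPp τ0
  have hPall : ∀ τ : K →+* N, P = Q.comap (RingOfIntegers.mapRingHom τ) :=
    fun τ => huniq _ _ hP (hPr τ) hpP (hPp τ)
  have hP0 : P ≠ ⊥ := by
    rintro rfl
    rw [Ideal.mem_bot, Nat.cast_eq_zero] at hpP
    exact hpp.ne_zero hpP
  have hPm : P.IsMaximal := hP.isMaximal hP0
  let _ : Field (𝓞 K ⧸ P) := Ideal.Quotient.field P
  have hfin : Finite (𝓞 K ⧸ P) := Ideal.finiteQuotientOfFreeOfNeBot P hP0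
  have hchP : CharP (𝓞 K ⧸ P) p := charP_quot P hP p hpp hpP
  let _ : Algebra (ZMod p) (𝓞 K ⧸ P) := ZMod.algebra _ p
  let φ : (K →+* N) → (𝓞 K ⧸ P →+* 𝓞 N ⧸ Q) := fun τ =>
    Ideal.Quotient.lift P ((Ideal.Quotient.mk Q).comp (RingOfIntegers.mapRingHom τ)) (by
      intro w hw
      rw [hPall τ] at hw
      exact Ideal.Quotient.eq_zero_iff_mem.2 hw)
  have hφ : ∀ (τ : K →+* N) (w : 𝓞 K), φ τ (Ideal.Quotient.mk P w) =
      Ideal.Quotient.mk Q (RingOfIntegers.mapRingHom τ w) := fun τ w => Ideal.Quotient.lift_mk _ _ _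
  set mX := Ideal.Quotient.mk P X with hmX
  set mY := Ideal.Quotient.mk P Y with hmY
  set mZ := Ideal.Quotient.mk P Z with hmZ
  have hX0 : mX ≠ 0 := fun h => (hs.cp P hP hpP).1 (Ideal.Quotient.eq_zero_iff_mem.1 h)
  have hY0 : mY ≠ 0 := fun h => (hs.cp P hP hpP).2.1 (Ideal.Quotient.eq_zero_iff_mem.1 h)
  have hZ0 : mZ ≠ 0 := fun h => (hs.cp P hP hpP).2.2 (Ideal.Quotient.eq_zero_iff_mem.1 h)
  have hlin : mX + mY + mZ = 0 := by
    have := lin_p hpp P hP hpP hs.eq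
    rw [hmX, hmY, hmZ, ← map_add, ← map_add]
    exact Ideal.Quotient.eq_zero_iff_mem.2 this
  set a := mX / mY with ha
  have ha0 : a ≠ 0 := div_ne_zero hX0 hY0
  have haZ : 1 + a = -(mZ / mY) := by
    rw [ha]
    field_simp
    linear_combination hlin
  have ha1 : 1 + a ≠ 0 := by
    rw [haZ]
    exact neg_ne_zero.2 (div_ne_zero hZ0 hY0)
  -- first involution
  have inv : ∀ {X Y Z : 𝓞 K}, Sol p K X Y Z → ∃ τ : K →+* N,
      φ τ0 (Ideal.Quotient.mk P X / Ideal.Quotient.mk P Y) =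
        φ τ (Ideal.Quotient.mk P Y / Ideal.Quotient.mk P X) := by
    intro X Y Z hs
    have hX0 : Ideal.Quotient.mk P X ≠ 0 :=
      fun h => (hs.cp P hP hpP).1 (Ideal.Quotient.eq_zero_iff_mem.1 h)
    have hY0 : Ideal.Quotient.mk P Y ≠ 0 :=
      fun h => (hs.cp P hP hpP).2.1 (Ideal.Quotient.eq_zero_iff_mem.1 h)
    set u := φ τ0 (Ideal.Quotient.mk P X / Ideal.Quotient.mk P Y) with hu
    have hu0 : u ≠ 0 := by
      rw [hu]
      exact (map_ne_zero (φ τ0)).2 (div_ne_zero hX0 hY0)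
    have h1 := pal_eval hN hcard hpal (Ideal.Quotient.mk Q) hs (-u) (neg_ne_zero.2 hu0)
    have h2 : ∏ τ : K →+* N, (Ideal.Quotient.mk Q (RingOfIntegers.mapRingHom τ X) +
        -u * Ideal.Quotient.mk Q (RingOfIntegers.mapRingHom τ Y)) = 0 := by
      apply Finset.prod_eq_zero (Finset.mem_univ τ0)
      rw [← hφ, ← hφ, hu, map_div₀]
      have : φ τ0 (Ideal.Quotient.mk P Y) ≠ 0 := (map_ne_zero (φ τ0)).2 hY0
      field_simp
      ring
    rw [h2] at h1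
    obtain ⟨τ, -, h3⟩ := Finset.prod_eq_zero_iff.1 h1.symm
    refine ⟨τ, ?_⟩
    rw [map_div₀, hφ, hφ]
    have h4 : (Ideal.Quotient.mk Q (RingOfIntegers.mapRingHom τ X)) ≠ 0 := by
      rw [← hφ]
      exact (map_ne_zero (φ τ)).2 hX0
    rw [eq_div_iff h4]
    linear_combination -h3
  obtain ⟨τ1, hτ1⟩ := inv hs
  obtain ⟨τ2, hτ2⟩ := inv hs.rot
  obtain ⟨σ, hσ⟩ := exists_aut (p := p) (φ τ0) (φ τ1) _ _ hτ1
  obtain ⟨ρ, hρ⟩ := exists_aut (p := p) (φ τ0) (φ τ2) _ _ hτ2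
  have e1 : σ a = a⁻¹ := by
    have h1 : σ a⁻¹ = a := by
      rw [ha, inv_div]
      exact hσ
    rw [map_inv₀] at h1
    exact inv_eq_iff_eq_inv.1 h1
  have e2 : ρ (1 + a) = (1 + a)⁻¹ := by
    rw [haZ, map_neg, ← neg_inv, inv_div]
    congr 1
  have e3 := cube_of_conj ha0 ha1 σ ρ e1 e2
  have h3P : (3 : 𝓞 K ⧸ P) ≠ 0 := by
    have h : ((3 : ℕ) : 𝓞 K ⧸ P) ≠ 0 := by
      rw [Ne, CharP.cast_eq_zero_iff (𝓞 K ⧸ P) p]
      intro hd
      have := Nat.le_of_dvd (by norm_num) hd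
      omega
    exact_mod_cast h
  rcases hcard3 P hP hpP with h | h
  · obtain ⟨w, hw⟩ := exists_cube_root h
    have h7 : ((w : 𝓞 K ⧸ P)) ^ 2 + w + 1 = 0 := by
      have h8 : ((w ^ 2 + w + 1 : ℤ) : 𝓞 K ⧸ P) = 0 := by
        rw [CharP.intCast_eq_zero_iff (𝓞 K ⧸ P) p]
        exact hw
      push_cast at h8
      exact h8
    have h8 : (a - w) * (a - (-1 - w)) = 0 := by
      linear_combination e3 - h7
    have h9 : σ a = a := by
      rcases mul_eq_zero.1 h8 with h9 | h9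
      · rw [sub_eq_zero.1 h9, map_intCast]
      · rw [sub_eq_zero.1 h9, map_sub, map_neg, map_one, map_intCast]
    rw [e1] at h9
    have h10 : a * a = 1 := by
      nth_rewrite 1 [← h9]
      exact inv_mul_cancel₀ ha0
    apply h3P
    have h11 : a = -2 := by linear_combination e3 - h10
    rw [h11] at h10
    linear_combination h10
  · exact h (three_card a e3 h3P)

/-- odd degree: each pair is congruent modulo some prime above `p` -/
theorem odd_pair (hN : S_NORM) (hcard : Nat.card (K →+* N) = Module.finrank ℚ K)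
    (hpal : PalK p K) (hp2 : p ≠ 2) (hm : Odd (Module.finrank ℚ K)) {X Y Z : 𝓞 K}
    (hs : Sol p K X Y Z) :
    ∃ P : Ideal (𝓞 K), P.IsPrime ∧ ((p : ℕ) : 𝓞 K) ∈ P ∧ X - Y ∈ P := by
  have hpp : p.Prime := Fact.out
  obtain ⟨f, hdeg, hc0, hcm, hev, hf⟩ := hN K X Y
  have h1 := hpal X Y Z hs f hdeg hc0 hcm hev hf
  -- the value at minus one
  have h2 : (f.map (Int.castRingHom (ZMod p))).eval (-1) = 0 := by
    let _ : Invertible (-1 : ZMod p) := ⟨-1, by ring, by ring⟩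
    have h3 := eval₂_reflect_mul_pow (RingHom.id (ZMod p)) (-1) (Module.finrank ℚ K)
      (f.map (Int.castRingHom (ZMod p))) (natDegree_map_le.trans hdeg)
    have h4 : (⅟(-1) : ZMod p) = -1 := rfl
    rw [h4, h1, hm.neg_one_pow, eval₂_id] at h3
    have h5 : (2 : ZMod p) ≠ 0 := by
      have h : ((2 : ℕ) : ZMod p) ≠ 0 := by
        rw [Ne, ZMod.natCast_eq_zero_iff]
        intro hd
        exact hp2 ((Nat.prime_dvd_prime_iff_eq hpp Nat.prime_two).1 hd)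
      exact_mod_cast h
    have h6 : (2 : ZMod p) * (f.map (Int.castRingHom (ZMod p))).eval (-1) = 0 := by
      linear_combination -h3
    exact (mul_eq_zero.1 h6).resolve_left h5
  have h3 : (p : ℤ) ∣ Algebra.norm ℤ (X - Y) := by
    have e1 : (f.map (Int.castRingHom (ZMod p))).eval (-1) =
        (Int.castRingHom (ZMod p)) (f.eval (-1)) := by
      have : (-1 : ZMod p) = (Int.castRingHom (ZMod p)) (-1) := by simp
      rw [this, eval_map, eval₂_hom]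
    rw [e1, hev] at h2
    have e2 : X + ((-1 : ℤ) : 𝓞 K) * Y = X - Y := by
      push_cast
      ring
    rw [e2] at h2
    exact (ZMod.intCast_zmod_eq_zero_iff_dvd _ p).1 h2
  by_contra hcon
  push Not at hcon
  exact norm_coprime hcard hN p hpp (X - Y) (fun P hP hpP hXY => hcon P hP hpP hXY) h3

/-- odd degree: at least three primes above `p` -/
theorem two_primes (hN : S_NORM) (hcard : Nat.card (K →+* N) = Module.finrank ℚ K)
    (hpal : PalK p K) (h5 : 5 ≤ p) (hm : Odd (Module.finrank ℚ K))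
    (htwo : ∀ P P' P'' : Ideal (𝓞 K), P.IsPrime → P'.IsPrime → P''.IsPrime →
      ((p : ℕ) : 𝓞 K) ∈ P → ((p : ℕ) : 𝓞 K) ∈ P' → ((p : ℕ) : 𝓞 K) ∈ P'' →
      P = P' ∨ P' = P'' ∨ P'' = P) {X Y Z : 𝓞 K} (hs : Sol p K X Y Z) : False := by
  have hpp : p.Prime := Fact.out
  obtain ⟨P1, q1, r1, s1⟩ := odd_pair hN hcard hpal (by omega) hm hs
  obtain ⟨P2, q2, r2, s2⟩ := odd_pair hN hcard hpal (by omega) hm hs.rot
  obtain ⟨P3, q3, r3, s3⟩ := odd_pair hN hcard hpal (by omega) hm hs.rot.rot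
  -- no prime contains two of the differences
  have key : ∀ {X Y Z : 𝓞 K}, Sol p K X Y Z → ∀ P : Ideal (𝓞 K), P.IsPrime →
      ((p : ℕ) : 𝓞 K) ∈ P → X - Y ∈ P → Y - Z ∈ P → False := by
    intro X Y Z hs P hP hpP h1 h2
    have h3 := lin_p hpp P hP hpP hs.eq
    have h4 : (3 : 𝓞 K) * Y ∈ P := by
      have e : (3 : 𝓞 K) * Y = (X + Y + Z) - (X - Y) + (Y - Z) := by ring
      rw [e]
      exact P.add_mem (P.sub_mem h3 h1) h2
    rcases hP.mem_or_mem h4 with h | h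
    · have := int_notMem P hP p hpp hpP 3 (by
        intro hd
        have := Int.le_of_dvd (by norm_num) hd
        omega)
      exact this (by exact_mod_cast h)
    · exact (hs.cp P hP hpP).2.1 h
  rcases htwo P1 P2 P3 q1 q2 q3 r1 r2 r3 with h | h | h
  · exact key hs P1 q1 r1 s1 (h ▸ s2)
  · exact key hs.rot P2 q2 r2 s2 (h ▸ s3)
  · exact key hs.rot.rot P3 q3 r3 s3 (h ▸ s1)

end

/-- the criterion of Kummer and Eichler over number fields -/
theorem critK {p : ℕ} (hp : p.Prime) {K : Type} [Field K] [NumberField K]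
    (hreg : (2 * Module.finrank ℚ K + 3 ≤ p ∧ ∀ k ∈ irr p, k + 2 * Module.finrank ℚ K + 1 < p) ∨
      Module.finrank ℚ K * (((irr p).card + 1) * ((irr p).card + 2)) + 3 ≤ p)
    (hK : (¬ 3 ∣ Module.finrank ℚ K ∧ ∀ P : Ideal (𝓞 K), P.IsPrime → ((p : ℕ) : 𝓞 K) ∈ P →
        Nat.card (𝓞 K ⧸ P) % 3 ≠ 1) ∨
      ((∀ P P' : Ideal (𝓞 K), P.IsPrime → P'.IsPrime →
        ((p : ℕ) : 𝓞 K) ∈ P → ((p : ℕ) : 𝓞 K) ∈ P' → P = P') ∧
        ∀ P : Ideal (𝓞 K), P.IsPrime → ((p : ℕ) : 𝓞 K) ∈ P →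
          p % 3 = 1 ∨ Nat.card (𝓞 K ⧸ P) % 3 ≠ 1) ∨
      (Odd (Module.finrank ℚ K) ∧ ∀ P P' P'' : Ideal (𝓞 K), P.IsPrime → P'.IsPrime →
        P''.IsPrime → ((p : ℕ) : 𝓞 K) ∈ P → ((p : ℕ) : 𝓞 K) ∈ P' → ((p : ℕ) : 𝓞 K) ∈ P'' →
        P = P' ∨ P' = P'' ∨ P'' = P))
    {x y z : K} (hx : x ≠ 0) (hy : y ≠ 0) (hz : z ≠ 0) (h : x ^ p + y ^ p + z ^ p = 0)
    (hv : ∀ v : HeightOneSpectrum (𝓞 K), ((p : ℕ) : 𝓞 K) ∈ v.asIdeal →
      v.valuation K x = v.valuation K y ∧ v.valuation K y = v.valuation K z) : False := by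
  have hfact : Fact p.Prime := ⟨hp⟩
  have hm := Module.finrank_pos (R := ℚ) (M := K)
  have h5 : 2 * Module.finrank ℚ K + 3 ≤ p := by
    rcases hreg with h | h
    · exact h.1
    · have e : 2 ≤ ((irr p).card + 1) * ((irr p).card + 2) := by nlinarith [(irr p).card.zero_le]
      have := Nat.mul_le_mul_left (Module.finrank ℚ K) e
      omega
  have hp2 : p ≠ 2 := by omega
  obtain ⟨E, _, _, ⟨c⟩⟩ := Y978.WQ.main p hp2
  obtain ⟨N, _, _, i, hcard, hD⟩ := Y258.WQ.mainDOWNG p E c K (by omega)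
  have hD' : Dn p E N i := hD
  obtain ⟨X, Y, Z, hX, hY0, hZ, hXYZ, hcp, h2⟩ := prep hp hx hy hz h hv
  have hs : Sol p K X Y Z := ⟨hX, hY0, hZ, hXYZ, hcp⟩
  have hN := Y290.WQ.mainNORM
  have hpal : PalK p K := palK aUNITA Y261.WQ.main Y919.WQ.mainLAMA hN
    (Y510.WQ.mainPOLBA Y275.WQ.mainCOREA)
    (Y590.WQ.mainPOLE Y780.WQ.mainPOLE1 Y286.WQ.mainPOLE2) Y61.WQ.mainBER c i hD' hcard hreg
  rcases hK with ⟨h3, h4⟩ | ⟨h3, h4⟩ | ⟨h3, h4⟩
  · refine case_cube hN hcard hpal (by omega) h3 (fun h => ?_) (fun _ => h4) hs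
    obtain ⟨P, hP, hpP⟩ := exists_above (K := K) p hp
    exact absurd (card_mod h P hP hpP) (h4 P hP hpP)
  · exact one_prime hN hcard hpal (by omega) h3 h4 hs
  · exact two_primes hN hcard hpal (by omega) h3 h4 hs

end Pool.Agent.Q290.FW
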