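import Pool.Agent.Q290.FW.Miri
import Pool.Agent.Y546.WQ.FinQ

/-!
# Quadratic fields: solutions of mixed type
-/

set_option autoImplicit false
set_option linter.all false

namespace Pool.Agent.Q290.FW

open NumberField IsDedekindDomain Polynomial Pool.Agent.Y546.WQ Pool.Agent.Y546

/-- a solution whose third term is prime to `p` -/
structure SolT (p : ℕ) (K : Type) [Field K] [NumberField K] (X Y Z : 𝓞 K) : Prop where
  X0 : X ≠ 0
  Y0 : Y ≠ 0
  Z0 : Z ≠ 0
  eq : X ^ p + Y ^ p + Z ^ p = 0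
  cp : ∀ P : Ideal (𝓞 K), P.IsPrime → ((p : ℕ) : 𝓞 K) ∈ P → Z ∉ P

section

variable {p : ℕ} [Fact p.Prime] {E : Type} [Field E] [NumberField E]
  {K N : Type} [Field K] [NumberField K] [Field N] [NumberField N]

/-- the norm of the sum is prime to `p` -/
theorem baseT (hcard : Nat.card (K →+* N) = Module.finrank ℚ K)
    {x y z : 𝓞 K} (hs : SolT p K x y z) (f : Polynomial ℤ)
    (hev : ∀ t : ℤ, f.eval t = Algebra.norm ℤ (x + (t : 𝓞 K) * y)) : ¬ (p : ℤ) ∣ f.eval 1 := by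
  have hpp : p.Prime := Fact.out
  have h2 := hev 1
  rw [Int.cast_one, one_mul] at h2
  rw [h2]
  refine norm_coprime hcard Y290.WQ.mainNORM p hpp _ fun P hP hpP hXY => ?_
  have h1 := lin_p hpp P hP hpP hs.eq
  exact hs.cp P hP hpP ((Ideal.add_mem_iff_right P hXY).1 h1)

/-- the exponents of all relations -/
theorem expoT (hp2 : p ≠ 2) {q : ℕ} (hq : q.Prime) (hqp : q ≠ p)
    (hW : ¬ p ^ 2 ∣ q ^ (p - 1) - 1) (c : Cyc p E) (i : E →+* N) (hD : Dn p E N i)
    (hcard : Nat.card (K →+* N) = Module.finrank ℚ K)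
    (Q : Ideal (𝓞 N)) (hQ : Q.IsPrime) (hqQ : ((q : ℕ) : 𝓞 N) ∈ Q)
    {x y z : 𝓞 K} (hs : SolT p K x y z) (hG : Good q K x y) (f : Polynomial ℤ)
    (hdeg : f.natDegree ≤ Module.finrank ℚ K)
    (hev : ∀ t : ℤ, f.eval t = Algebra.norm ℤ (x + (t : 𝓞 K) * y))
    (hf : f.map (Int.castRingHom (𝓞 N)) = nrmP K N x y) (a : ℕ) (ha : 0 < a) (hap : a + 2 ≤ p) :
    ∃ (k : ℕ) (r : ZMod p), r ≠ 0 ∧
      (X - 1) ^ (p - 1) ∣ thPa p a (f.map (Int.castRingHom (ZMod p))) - Polynomial.C r * X ^ k ∧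
      2 * (k : ZMod p) = ((Module.finrank ℚ K : ZMod p) +
        (Nat.card {τ : K →+* N // RingOfIntegers.mapRingHom τ x ∈ Q} : ℕ) -
        (Nat.card {τ : K →+* N // RingOfIntegers.mapRingHom τ y ∈ Q} : ℕ)) * hsa p a 1 := by
  have hpp : p.Prime := Fact.out
  have b5 := baseT hcard hs f hev
  obtain ⟨h1, h2, h3⟩ := fldG Y261.WQ.main hp2 c i hD x y z hs.X0 hs.Y0 hs.Z0 hs.eq
    hs.cp f hf
  obtain ⟨ε, hε, hloc⟩ := loc hq hcard Q hQ hqQ hG f hf
  have hcop := cop hp2 hq hqp c i hG f hf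
  obtain ⟨s, n, hn, hsn⟩ := exists_q_part hq (f.eval 1) h2
  have hpn : ¬ (p : ℤ) ∣ n := fun h => b5 (hsn ▸ dvd_mul_of_dvd_right h _)
  obtain ⟨w, hwz, hw⟩ := exists_zint c
  have hΛ : algebraMap (𝓞 E) E (aeval w f) = aeval c.z f := by
    have hwz' : algebraMap (𝓞 E) E w = c.z := hwz
    rw [← hwz']
    exact (aeval_algebraMap_apply E w f).symm
  obtain ⟨g, hg, k, hk⟩ := relGA aUNITA hp2 a ha hap c f n hpn b5 h1 (by
    intro P
    by_cases h2P : ((q : ℕ) : 𝓞 E) ∈ P.asIdeal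
    · refine ⟨0, ?_⟩
      have hn1 : P.valuation E ((n : ℤ) : E) = 1 := by
        have := val_one P ((n : ℤ) : 𝓞 E) (int_notMem P.asIdeal P.isPrime q hq h2P n hn)
        simpa using this
      rw [hn1, mul_zero, WithZero.exp_zero, mul_one, ← hΛ]
      exact val_one P _ (hcop P.asIdeal P.isPrime h2P _ hΛ)
    · obtain ⟨m, hm⟩ := h3 P
      refine ⟨m, ?_⟩
      rw [hm, hsn]
      congr 1
      push_cast
      rw [map_mul, map_pow]
      have h3 : P.valuation E ((q : ℕ) : E) = 1 := by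
        have h10 : (((q : ℕ) : 𝓞 E) : E) = ((q : ℕ) : E) := map_natCast (algebraMap (𝓞 E) E) q
        have := val_one P ((q : ℕ) : 𝓞 E) h2P
        rwa [h10] at this
      rw [h3, one_pow, one_mul])
  obtain ⟨r, hr, hdv⟩ := Y919.WQ.mainLAMA p hp2 a ha hap E c f n hpn b5 g hg k hk
  exact ⟨k, r, hr, hdv, relQ hp2 c hq hqp f n hn (Module.finrank ℚ K) _ _ ε hε hdeg hloc hcop a g
    k hk hW⟩

/-- the linear relation -/
theorem linT (hp2 : p ≠ 2) {q : ℕ} (hq : q.Prime) (hqp : q ≠ p)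
    (hW : ¬ p ^ 2 ∣ q ^ (p - 1) - 1) (c : Cyc p E) (i : E →+* N) (hD : Dn p E N i)
    (hcard : Nat.card (K →+* N) = Module.finrank ℚ K)
    (Q : Ideal (𝓞 N)) (hQ : Q.IsPrime) (hqQ : ((q : ℕ) : 𝓞 N) ∈ Q)
    {x y z : 𝓞 K} (hs : SolT p K x y z) (hG : Good q K x y) (f : Polynomial ℤ)
    (hdeg : f.natDegree ≤ Module.finrank ℚ K)
    (hev : ∀ t : ℤ, f.eval t = Algebra.norm ℤ (x + (t : 𝓞 K) * y))
    (hf : f.map (Int.castRingHom (𝓞 N)) = nrmP K N x y) :
    ((Module.finrank ℚ K : ZMod p) +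
        (Nat.card {τ : K →+* N // RingOfIntegers.mapRingHom τ x ∈ Q} : ℕ) -
        (Nat.card {τ : K →+* N // RingOfIntegers.mapRingHom τ y ∈ Q} : ℕ)) *
        (f.map (Int.castRingHom (ZMod p))).eval 1 =
      2 * (f.map (Int.castRingHom (ZMod p))).derivative.eval 1 := by
  obtain ⟨a, ha, hap, hne⟩ := exists_hsa (p := p) hp2
  obtain ⟨k, r, hr, hdv, hk⟩ := expoT hp2 hq hqp hW c i hD hcard Q hQ hqQ hs hG f hdeg hev
    hf a ha hap
  have h1 := lin_of hp2 a k _ r hr hdv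
  apply mul_right_cancel₀ hne
  rw [mul_right_comm, ← hk]
  linear_combination 2 * h1

/-- the norm polynomials satisfy all relations -/
theorem relT (c : Cyc p E) (i : E →+* N) (hD : Dn p E N i)
    (hcard : Nat.card (K →+* N) = Module.finrank ℚ K)
    (hp2 : p ≠ 2) {x y z : 𝓞 K} (hs : SolT p K x y z) (f : Polynomial ℤ)
    (hev : ∀ t : ℤ, f.eval t = Algebra.norm ℤ (x + (t : 𝓞 K) * y))
    (hf : f.map (Int.castRingHom (𝓞 N)) = nrmP K N x y) :
    Rel p (f.map (Int.castRingHom (ZMod p))) := by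
  have b5 := baseT hcard hs f hev
  obtain ⟨h1, h2, h3⟩ := fldG Y261.WQ.main hp2 c i hD x y z hs.X0 hs.Y0 hs.Z0 hs.eq
    hs.cp f hf
  intro a ha hap
  obtain ⟨g, hg, k, hk⟩ := relGA aUNITA hp2 a ha hap c f (f.eval 1) b5 b5 h1 h3
  obtain ⟨r, hr, hdv⟩ := Y919.WQ.mainLAMA p hp2 a ha hap E c f (f.eval 1) b5 b5 g hg k hk
  exact ⟨k, r, hr, hdv⟩

/-- the norm of `x + y` modulo `p` -/
theorem norm_sumT (σ : 𝓞 K →+* 𝓞 K)
    (hN : ∀ a : 𝓞 K, ((Algebra.norm ℤ a : ℤ) : 𝓞 K) = a * σ a)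
    (hT : ∀ a : 𝓞 K, ((Algebra.trace ℤ (𝓞 K) a : ℤ) : 𝓞 K) = a + σ a) {x y z : 𝓞 K}
    (s : x ^ p + y ^ p + z ^ p = 0) :
    ((Algebra.norm ℤ (x + y) : ℤ) : ZMod p) = (Algebra.norm ℤ z : ℤ) := by
  have hpp : p.Prime := Fact.out
  have hp := norm_rel σ hN hT p hpp (X := x) (Y := y) (Z := z)
    (fun P hP hpP => lin_p hpp P hP hpP s)
  have := (ZMod.intCast_zmod_eq_zero_iff_dvd _ p).2 hp
  rw [norm_add' σ hN hT]
  push_cast at this ⊢
  linear_combination this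

/-- the linear relation for one pair -/
theorem pairT (hK : Module.finrank ℚ K = 2) (σ : 𝓞 K →+* 𝓞 K)
    (hN : ∀ a : 𝓞 K, ((Algebra.norm ℤ a : ℤ) : 𝓞 K) = a * σ a)
    (hT : ∀ a : 𝓞 K, ((Algebra.trace ℤ (𝓞 K) a : ℤ) : 𝓞 K) = a + σ a)
    (hp2 : p ≠ 2) {q : ℕ} (hq : q.Prime) (hqp : q ≠ p)
    (hW : ¬ p ^ 2 ∣ q ^ (p - 1) - 1) (c : Cyc p E) (i : E →+* N) (hD : Dn p E N i)
    (hcard : Nat.card (K →+* N) = Module.finrank ℚ K)
    (Q : Ideal (𝓞 N)) (hQ : Q.IsPrime) (hqQ : ((q : ℕ) : 𝓞 N) ∈ Q)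
    {x y z : 𝓞 K} (hs : SolT p K x y z) (hG : Good q K x y) :
    ((cnt Q x : ZMod p) - cnt Q y) * (Algebra.norm ℤ z : ℤ) =
      2 * ((Algebra.norm ℤ y : ℤ) - (Algebra.norm ℤ x : ℤ)) := by
  obtain ⟨f, hdeg, hc0, hcm, hev, hf'⟩ := Y290.WQ.mainNORM K x y
  have h := linT hp2 hq hqp hW c i hD hcard Q hQ hqQ hs hG f hdeg hev (hf' N hcard)
  rw [hK] at hdeg hcm h
  have e1 : (f.map (Int.castRingHom (ZMod p))).eval 1 = (Algebra.norm ℤ z : ℤ) := by
    rw [← norm_sumT σ hN hT hs.eq, eval_map, ← map_one (Int.castRingHom (ZMod p)), eval₂_hom]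
    have h2 := hev 1
    rw [Int.cast_one, one_mul] at h2
    rw [h2]
    rfl
  have e2 := der_two (f.map (Int.castRingHom (ZMod p))) (natDegree_map_le.trans hdeg)
  rw [e1, coeff_map, coeff_map, hc0, hcm] at e2
  rw [e1, e2] at h
  simp only [eq_intCast] at h
  unfold cnt
  push_cast at h
  linear_combination h

/-- the relation of order three for a pair whose second norm is divisible by `p` -/
theorem palT (hK : Module.finrank ℚ K = 2) (σ : 𝓞 K →+* 𝓞 K)
    (hN : ∀ a : 𝓞 K, ((Algebra.norm ℤ a : ℤ) : 𝓞 K) = a * σ a)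
    (hT : ∀ a : 𝓞 K, ((Algebra.trace ℤ (𝓞 K) a : ℤ) : 𝓞 K) = a + σ a)
    (h5 : 5 ≤ p) (c : Cyc p E) (i : E →+* N) (hD : Dn p E N i)
    (hcard : Nat.card (K →+* N) = Module.finrank ℚ K)
    (hreg : (7 ≤ p ∧ Reg p 3) ∨ ((irr p).card + 1) * ((irr p).card + 2) + 3 ≤ p)
    {x y z : 𝓞 K} (hs : SolT p K x y z)
    (hx : ((Algebra.norm ℤ x : ℤ) : ZMod p) ≠ 0) (hy : ((Algebra.norm ℤ y : ℤ) : ZMod p) = 0)
    (hxz : ((Algebra.norm ℤ x : ℤ) : ZMod p) ≠ (Algebra.norm ℤ z : ℤ)) :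
    ((Algebra.norm ℤ z : ℤ) : ZMod p) = 2 * (Algebra.norm ℤ x : ℤ) := by
  have hpp : p.Prime := Fact.out
  obtain ⟨f, hdeg, hc0, hcm, hev, hf'⟩ := Y290.WQ.mainNORM K x y
  have hrel := relT c i hD hcard (by omega) hs f hev (hf' N hcard)
  have b5 := baseT hcard hs f hev
  rw [hK] at hdeg hcm
  set g := f.map (Int.castRingHom (ZMod p)) with hg
  have e1 : g.eval 1 = (Algebra.norm ℤ z : ℤ) := by
    rw [← norm_sumT σ hN hT hs.eq, hg, eval_map, ← map_one (Int.castRingHom (ZMod p)), eval₂_hom]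
    have h2 := hev 1
    rw [Int.cast_one, one_mul] at h2
    rw [h2]
    rfl
  have c0 : g.coeff 0 = (Algebra.norm ℤ x : ℤ) := by
    rw [hg, coeff_map, hc0]
    rfl
  have c2 : g.coeff 2 = 0 := by
    rw [hg, coeff_map, hcm]
    exact hy
  have hd2 : g.natDegree ≤ 2 := natDegree_map_le.trans hdeg
  have hd1 : g.natDegree ≤ 1 := by
    rw [natDegree_le_iff_coeff_eq_zero]
    intro n hn
    by_cases h2 : n = 2
    · rw [h2]
      exact c2
    · exact coeff_eq_zero_of_natDegree_lt (by omega)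
  have hgf : g = C (g.coeff 0) + C (g.coeff 1) * X := by
    conv_lhs => rw [as_sum_range_C_mul_X_pow' g (Nat.lt_succ_of_le hd1)]
    rw [Finset.sum_range_succ, Finset.sum_range_one, pow_zero, mul_one, pow_one]
  have e3 : g.coeff 1 = (Algebra.norm ℤ z : ℤ) - (Algebra.norm ℤ x : ℤ) := by
    have h1 : g.eval 1 = g.coeff 0 + g.coeff 1 := by
      conv_lhs => rw [hgf]
      simp
    rw [e1, c0] at h1
    linear_combination -h1
  have n1 : g.eval 1 ≠ 0 := by
    have e : g.eval 1 = (Int.castRingHom (ZMod p)) (f.eval 1) := by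
      rw [hg, eval_map, ← map_one (Int.castRingHom (ZMod p)), eval₂_hom]
    rw [e]
    intro h0
    exact b5 ((ZMod.intCast_zmod_eq_zero_iff_dvd _ p).1 h0)
  have n2 : g.coeff 1 ≠ 0 := by
    rw [e3]
    intro h0
    exact hxz (sub_eq_zero.1 h0).symm
  have hpal : g.reflect 1 = g := by
    rcases hreg with ⟨h7, h3⟩ | h
    · refine Y510.WQ.mainPOLBA Y275.WQ.mainCOREA p 1 g (by omega) hd1 (by rw [c0]; exact hx) n2 n1
        hrel fun j hj h3j hjm => ?_
      have : j = 3 := by omega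
      rw [this]
      exact h3
    · refine Y590.WQ.mainPOLE Y780.WQ.mainPOLE1 Y286.WQ.mainPOLE2 p 1 g
        ((irr p).image fun k => p - k) one_pos hd1 (by rw [c0]; exact hx) n2 n1 hrel ?_ ?_
      · intro j hj h3j hjp hjJ
        apply reg_of Y61.WQ.mainBER j hj h3j hjp
        intro hk
        apply hjJ
        rw [Finset.mem_image]
        exact ⟨p - j, hk, by omega⟩
      · have e : ((irr p).image fun k => p - k).card ≤ (irr p).card := Finset.card_image_le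
        have e2 : (((irr p).image fun k => p - k).card + 1) *
            (((irr p).image fun k => p - k).card + 2) ≤ ((irr p).card + 1) * ((irr p).card + 2) :=
          Nat.mul_le_mul (by omega) (by omega)
        omega
  have h1 := congrArg (fun h => h.coeff 0) hpal
  simp only [coeff_reflect] at h1
  rw [revAt_le (by norm_num), Nat.sub_zero, e3, c0] at h1
  linear_combination h1

end

/-- the numbers of conjugates in the mixed case -/
theorem enum {p : ℕ} [Fact p.Prime] (h5 : 5 ≤ p) (A B : ZMod p) (hA : A ≠ 0) (hB : B ≠ 0)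
    (hAB : A ≠ B) (a b e : ℕ) (hsum : a + b + e ≤ 2) (h1 : ((a : ZMod p) - e) * B = 2 * (0 - A))
    (h2 : ((b : ZMod p) - e) * A = 2 * (0 - B)) : False := by
  have t2 := two_ne h5
  have t3 := three_ne h5
  have ha : a ≤ 2 := by omega
  have hb : b ≤ 2 := by omega
  have he : e ≤ 2 := by omega
  have k1 : (2 : ZMod p) * A = 0 → False := fun h => hA ((mul_eq_zero.1 h).resolve_left t2)
  have k2 : (2 : ZMod p) * B = 0 → False := fun h => hB ((mul_eq_zero.1 h).resolve_left t2)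
  have k3 : (3 : ZMod p) * A = 0 → False := fun h => hA ((mul_eq_zero.1 h).resolve_left t3)
  interval_cases a <;> interval_cases b <;> interval_cases e <;>
    first
    | omega
    | (push_cast at h1 h2; exact k1 (by linear_combination h1))
    | (push_cast at h1 h2; exact k2 (by linear_combination h2))
    | (push_cast at h1 h2; exact k3 (by linear_combination 2 * h1 - h2))
    | (push_cast at h1 h2; exact k3 (by linear_combination -2 * h1 - h2))
    | (push_cast at h1 h2; exact k3 (by linear_combination 2 * h1 + h2))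
    | (push_cast at h1 h2; exact k3 (by linear_combination -2 * h1 + h2))
    | (push_cast at h1 h2
       exact hAB (mul_left_cancel₀ t2 (by linear_combination -h1)))
    | (push_cast at h1 h2
       exact hAB (mul_left_cancel₀ t2 (by linear_combination h1)))

end Pool.Agent.Q290.FW
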