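import Pool.Agent.Q290.FW.Mix2
import Pool.Agent.Y546.WQ.QCrit

/-!
# Quadratic fields: solutions of mixed type, valuations
-/

set_option autoImplicit false
set_option linter.all false

namespace Pool.Agent.Q290.FW

open NumberField IsDedekindDomain Pool.Agent.Y546.WQ Pool.Agent.Y546

section

variable {K : Type} [Field K] [NumberField K]

/-- scaling a solution at finitely many primes -/
theorem prepM {p M : ℕ} (hM : M ≠ 0) (hp : p.Prime) (hpM : p ∣ M)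
    {x y z : K} (hx : x ≠ 0) (hy : y ≠ 0) (hz : z ≠ 0) (h : x ^ p + y ^ p + z ^ p = 0) :
    ∃ X Y Z : 𝓞 K, X ≠ 0 ∧ Y ≠ 0 ∧ Z ≠ 0 ∧ X ^ p + Y ^ p + Z ^ p = 0 ∧
      (∀ P : Ideal (𝓞 K), P.IsPrime → ((M : ℕ) : 𝓞 K) ∈ P → ¬ (X ∈ P ∧ Y ∈ P ∧ Z ∈ P)) ∧
      ∃ a : K, a ≠ 0 ∧ algebraMap (𝓞 K) K X = a * x ∧ algebraMap (𝓞 K) K Y = a * y ∧
        algebraMap (𝓞 K) K Z = a * z := by
  have hp0 : p ≠ 0 := hp.ne_zero
  obtain ⟨T, hT⟩ := finite_primes (K := K) M hM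
  obtain ⟨a, X, Y, Z, hXa, hYa, hZa, hn⟩ := scaleT (y := y) (z := z) hx T
  have hne : ∀ (P : Ideal (𝓞 K)), P.IsPrime → ((M : ℕ) : 𝓞 K) ∈ P →
      ∃ h0 : P ≠ ⊥, ∀ hP : P.IsPrime, (⟨P, hP, h0⟩ : HeightOneSpectrum (𝓞 K)) ∈ T := by
    intro P hP hm
    have h0 : P ≠ ⊥ := by
      rintro rfl
      rw [Ideal.mem_bot] at hm
      exact hM (by exact_mod_cast hm)
    exact ⟨h0, fun hP' => hT _ hm⟩
  obtain ⟨R, hR, hRp⟩ := exists_above (K := K) p hp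
  have hmemp : ∀ P : Ideal (𝓞 K), ((p : ℕ) : 𝓞 K) ∈ P → ((M : ℕ) : 𝓞 K) ∈ P := by
    intro P hP
    obtain ⟨d, rfl⟩ := hpM
    rw [Nat.cast_mul]
    exact P.mul_mem_right _ hP
  have ha : a ≠ 0 := by
    rintro rfl
    rw [zero_mul] at hXa hYa hZa
    have h1 : X = 0 := RingOfIntegers.coe_injective (by rw [map_zero]; exact hXa)
    have h2 : Y = 0 := RingOfIntegers.coe_injective (by rw [map_zero]; exact hYa)
    have h3 : Z = 0 := RingOfIntegers.coe_injective (by rw [map_zero]; exact hZa)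
    obtain ⟨h0, h4⟩ := hne R hR (hmemp R hRp)
    apply hn _ (h4 hR)
    rw [h1, h2, h3]
    exact ⟨zero_mem _, zero_mem _, zero_mem _⟩
  have hX0 : X ≠ 0 := by
    rintro rfl
    rw [map_zero] at hXa
    exact mul_ne_zero ha hx hXa.symm
  have hY0 : Y ≠ 0 := by
    rintro rfl
    rw [map_zero] at hYa
    exact mul_ne_zero ha hy hYa.symm
  have hZ0 : Z ≠ 0 := by
    rintro rfl
    rw [map_zero] at hZa
    exact mul_ne_zero ha hz hZa.symm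
  have hXYZ : X ^ p + Y ^ p + Z ^ p = 0 := by
    apply RingOfIntegers.coe_injective
    rw [map_zero, map_add, map_add, map_pow, map_pow, map_pow]
    have e : a ^ p * (x ^ p + y ^ p + z ^ p) = 0 := by rw [h, mul_zero]
    rw [hXa, hYa, hZa, mul_pow, mul_pow, mul_pow]
    linear_combination e
  refine ⟨X, Y, Z, hX0, hY0, hZ0, hXYZ, ?_, a, ha, hXa, hYa, hZa⟩
  intro P hP hqP
  obtain ⟨h0, h4⟩ := hne P hP hqP
  exact hn _ (h4 hP)

/-- equal valuations and divisibility of the scaled numbers -/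
theorem eqv {p : ℕ} (hp : p.Prime) {X Y Z : 𝓞 K} (hs : X ^ p + Y ^ p + Z ^ p = 0)
    (v : HeightOneSpectrum (𝓞 K))
    (hn : ¬ (X ∈ v.asIdeal ∧ Y ∈ v.asIdeal ∧ Z ∈ v.asIdeal)) {a x y z : K} (ha : a ≠ 0)
    (hX : algebraMap (𝓞 K) K X = a * x) (hY : algebraMap (𝓞 K) K Y = a * y)
    (hZ : algebraMap (𝓞 K) K Z = a * z) :
    (v.valuation K x = v.valuation K y ∧ v.valuation K y = v.valuation K z) ↔
      (X ∉ v.asIdeal ∧ Y ∉ v.asIdeal ∧ Z ∉ v.asIdeal) := by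
  have hs' : Y ^ p + Z ^ p + X ^ p = 0 := by rw [← hs]; ring
  have hs'' : Z ^ p + X ^ p + Y ^ p = 0 := by rw [← hs]; ring
  constructor
  · rintro ⟨h1, h2⟩
    refine ⟨fun h => ?_, fun h => ?_, fun h => ?_⟩
    · exact absurd ((mem_iff hp hs v hn ha hX hY).1 h) (by rw [h1]; exact lt_irrefl _)
    · exact absurd ((mem_iff hp hs' v (fun k => hn ⟨k.2.2, k.1, k.2.1⟩) ha hY hZ).1 h)
        (by rw [h2]; exact lt_irrefl _)
    · exact absurd ((mem_iff hp hs'' v (fun k => hn ⟨k.2.1, k.2.2, k.1⟩) ha hZ hX).1 h)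
        (by rw [h1, h2]; exact lt_irrefl _)
  · rintro ⟨h1, h2, h3⟩
    exact ⟨val_eq (p := p) v h1 h2 ha hX hY, val_eq (p := p) v h2 h3 ha hY hZ⟩

/-- no solution of mixed type -/
theorem mixK {p : ℕ} (hp : p.Prime) (h5 : 5 ≤ p) (hK : Module.finrank ℚ K = 2)
    (hC : Cond p (NumberField.discr K)) {x y z : K} (hx : x ≠ 0) (hy : y ≠ 0) (hz : z ≠ 0)
    (h : x ^ p + y ^ p + z ^ p = 0) (v₀ : HeightOneSpectrum (𝓞 K))
    (h₀ : ((p : ℕ) : 𝓞 K) ∈ v₀.asIdeal)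
    (hv₀ : v₀.valuation K x = v₀.valuation K y ∧ v₀.valuation K y = v₀.valuation K z)
    (v : HeightOneSpectrum (𝓞 K)) (hpv : ((p : ℕ) : 𝓞 K) ∈ v.asIdeal) :
    v.valuation K x = v.valuation K y ∧ v.valuation K y = v.valuation K z := by
  obtain ⟨X, Y, Z, hX, hY, hZ, hXYZ, hn, a, ha, hXa, hYa, hZa⟩ :=
    prepM (M := 6 * p) (by have := hp.pos; omega) hp (Dvd.intro_left _ rfl) hx hy hz h
  have hmp : ∀ P : Ideal (𝓞 K), ((p : ℕ) : 𝓞 K) ∈ P → ((6 * p : ℕ) : 𝓞 K) ∈ P := by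
    intro P hP
    rw [Nat.cast_mul]
    exact P.mul_mem_left _ hP
  have n0 := hn _ v₀.isPrime (hmp _ h₀)
  have n1 := hn _ v.isPrime (hmp _ hpv)
  obtain ⟨o1, o2, o3⟩ := (eqv hp hXYZ v₀ n0 ha hXa hYa hZa).1 hv₀
  rw [eqv hp hXYZ v n1 ha hXa hYa hZa]
  refine ⟨fun hm => ?_, fun hm => ?_, fun hm => ?_⟩
  · exact mixO hp h5 hK hC hY hZ hX (by rw [← hXYZ]; ring)
      (fun P hP hh k => hn P hP hh ⟨k.2.2, k.1, k.2.1⟩) v₀.asIdeal v.asIdeal v₀.isPrime v.isPrime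
      h₀ hpv o2 o3 o1 hm
  · exact mixO hp h5 hK hC hZ hX hY (by rw [← hXYZ]; ring)
      (fun P hP hh k => hn P hP hh ⟨k.2.1, k.2.2, k.1⟩) v₀.asIdeal v.asIdeal v₀.isPrime v.isPrime
      h₀ hpv o3 o1 o2 hm
  · exact mixO hp h5 hK hC hX hY hZ hXYZ hn v₀.asIdeal v.asIdeal v₀.isPrime v.isPrime
      h₀ hpv o1 o2 o3 hm

end

end Pool.Agent.Q290.FW
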