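import Pool.Agent.Y546.WQ.Prep
import Pool.Agent.Y546.WQ.Pal

/-!
# Scaling a solution at the primes above `q` and `p`
-/

set_option autoImplicit false
set_option linter.all false

namespace Pool.Agent.Q290.FW

open NumberField IsDedekindDomain Pool.Agent.Y546.WQ

/-- scaling a solution in the first case -/
theorem prepQ {K : Type} [Field K] [NumberField K] {p q : ℕ} (hp : p.Prime) (hq : q.Prime)
    {x y z : K} (hx : x ≠ 0) (hy : y ≠ 0) (hz : z ≠ 0) (h : x ^ p + y ^ p + z ^ p = 0)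
    (hv : ∀ v : HeightOneSpectrum (𝓞 K), ((p : ℕ) : 𝓞 K) ∈ v.asIdeal →
      v.valuation K x = v.valuation K y ∧ v.valuation K y = v.valuation K z) :
    ∃ X Y Z : 𝓞 K, Sol p K X Y Z ∧
      (∀ P : Ideal (𝓞 K), P.IsPrime → ((q : ℕ) : 𝓞 K) ∈ P → ¬ (X ∈ P ∧ Y ∈ P ∧ Z ∈ P)) ∧
      ∃ a : K, a ≠ 0 ∧ algebraMap (𝓞 K) K X = a * x ∧ algebraMap (𝓞 K) K Y = a * y ∧
        algebraMap (𝓞 K) K Z = a * z := by
  have hp0 : p ≠ 0 := hp.ne_zero
  have hq0 : q ≠ 0 := hq.ne_zero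
  obtain ⟨T, hT⟩ := finite_primes (K := K) (q * p) (by positivity)
  obtain ⟨a, X, Y, Z, hXa, hYa, hZa, hn⟩ := scaleT (y := y) (z := z) hx T
  have hne : ∀ (P : Ideal (𝓞 K)), P.IsPrime → ((q * p : ℕ) : 𝓞 K) ∈ P →
      ∃ h0 : P ≠ ⊥, ∀ hP : P.IsPrime, (⟨P, hP, h0⟩ : HeightOneSpectrum (𝓞 K)) ∈ T := by
    intro P hP hm
    have h0 : P ≠ ⊥ := by
      rintro rfl
      rw [Ideal.mem_bot] at hm
      have h1 : (q * p : ℕ) = 0 := by exact_mod_cast hm
      rcases Nat.mul_eq_zero.1 h1 with h2 | h2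
      · exact hq0 h2
      · exact hp0 h2
    exact ⟨h0, fun hP' => hT _ hm⟩
  obtain ⟨M, hM, hMp⟩ := exists_above (K := K) p hp
  have hmemp : ∀ P : Ideal (𝓞 K), ((p : ℕ) : 𝓞 K) ∈ P → ((q * p : ℕ) : 𝓞 K) ∈ P := by
    intro P hP
    rw [Nat.cast_mul]
    exact P.mul_mem_left _ hP
  have ha : a ≠ 0 := by
    rintro rfl
    rw [zero_mul] at hXa hYa hZa
    have h1 : X = 0 := RingOfIntegers.coe_injective (by rw [map_zero]; exact hXa)
    have h2 : Y = 0 := RingOfIntegers.coe_injective (by rw [map_zero]; exact hYa)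
    have h3 : Z = 0 := RingOfIntegers.coe_injective (by rw [map_zero]; exact hZa)
    obtain ⟨h0, h4⟩ := hne M hM (hmemp M hMp)
    apply hn _ (h4 hM)
    rw [h1, h2, h3]
    exact ⟨zero_mem _, zero_mem _, zero_mem _⟩
  have hX0 : X ≠ 0 := by
    rintro rfl
    rw [map_zero] at hXa
    exact mul_ne_zero ha hx hXa.symm
  have hY0 : Y ≠ 0 := by
    rintro rfl
    rw [map_zero] at hYa
    exact mul_ne_zero ha hy hYa.symm
  have hZ0 : Z ≠ 0 := by
    rintro rfl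
    rw [map_zero] at hZa
    exact mul_ne_zero ha hz hZa.symm
  have hXYZ : X ^ p + Y ^ p + Z ^ p = 0 := by
    apply RingOfIntegers.coe_injective
    rw [map_zero, map_add, map_add, map_pow, map_pow, map_pow]
    have e : a ^ p * (x ^ p + y ^ p + z ^ p) = 0 := by rw [h, mul_zero]
    rw [hXa, hYa, hZa, mul_pow, mul_pow, mul_pow]
    linear_combination e
  refine ⟨X, Y, Z, ⟨hX0, hY0, hZ0, hXYZ, ?_⟩, ?_, a, ha, hXa, hYa, hZa⟩
  · intro P hP hpP
    obtain ⟨h0, h4⟩ := hne P hP (hmemp P hpP)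
    have h5 := hn _ (h4 hP)
    obtain ⟨h1, h2⟩ := hv ⟨P, hP, h0⟩ hpP
    have e : ∀ (w : K) (W : 𝓞 K), algebraMap (𝓞 K) K W = a * w →
        (W ∈ P ↔ (⟨P, hP, h0⟩ : HeightOneSpectrum (𝓞 K)).valuation K a *
          (⟨P, hP, h0⟩ : HeightOneSpectrum (𝓞 K)).valuation K w < 1) := by
      intro w W hW
      rw [← map_mul, ← hW]
      exact ((⟨P, hP, h0⟩ : HeightOneSpectrum (𝓞 K)).valuation_lt_one_iff_mem (K := K) W).symm
    have e1 : X ∈ P ↔ Y ∈ P := by rw [e x X hXa, e y Y hYa, h1]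
    have e2 : Y ∈ P ↔ Z ∈ P := by rw [e y Y hYa, e z Z hZa, h2]
    change ¬ (X ∈ P ∧ Y ∈ P ∧ Z ∈ P) at h5
    tauto
  · intro P hP hqP
    have h3 : ((q * p : ℕ) : 𝓞 K) ∈ P := by
      rw [Nat.cast_mul]
      exact P.mul_mem_right _ hqP
    obtain ⟨h0, h4⟩ := hne P hP h3
    exact hn _ (h4 hP)

section

variable {K : Type} [Field K] [NumberField K] {p : ℕ} {X Y Z : 𝓞 K}

/-- at a prime above `q` at most one of the three is divisible by it -/
theorem two_of (hp : p.Prime) (hs : X ^ p + Y ^ p + Z ^ p = 0) {P : Ideal (𝓞 K)}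
    (hP : P.IsPrime) (hn : ¬ (X ∈ P ∧ Y ∈ P ∧ Z ∈ P)) (hX : X ∈ P) : Y ∉ P ∧ Z ∉ P := by
  have hXp : X ^ p ∈ P := P.pow_mem_of_mem hX p hp.pos
  constructor
  · intro hY
    have hYp : Y ^ p ∈ P := P.pow_mem_of_mem hY p hp.pos
    refine hn ⟨hX, hY, hP.mem_of_pow_mem p ?_⟩
    have e : Z ^ p = 0 - (X ^ p + Y ^ p) := by rw [← hs]; ring
    rw [e]
    exact P.sub_mem P.zero_mem (P.add_mem hXp hYp)
  · intro hZ
    have hZp : Z ^ p ∈ P := P.pow_mem_of_mem hZ p hp.pos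
    refine hn ⟨hX, hP.mem_of_pow_mem p ?_, hZ⟩
    have e : Y ^ p = 0 - (X ^ p + Z ^ p) := by rw [← hs]; ring
    rw [e]
    exact P.sub_mem P.zero_mem (P.add_mem hXp hZp)

/-- a prime divides one of three scaled numbers if it divides it to a higher power than another -/
theorem mem_iff (hp : p.Prime) (hs : X ^ p + Y ^ p + Z ^ p = 0) (v : HeightOneSpectrum (𝓞 K))
    (hn : ¬ (X ∈ v.asIdeal ∧ Y ∈ v.asIdeal ∧ Z ∈ v.asIdeal)) {a x y : K} (ha : a ≠ 0)
    (hX : algebraMap (𝓞 K) K X = a * x) (hY : algebraMap (𝓞 K) K Y = a * y) :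
    X ∈ v.asIdeal ↔ v.valuation K x < v.valuation K y := by
  have hva : 0 < v.valuation K a := (Valuation.pos_iff _).2 ha
  have e1 : v.valuation K x < v.valuation K y ↔ v.valuation K (algebraMap (𝓞 K) K X) <
      v.valuation K (algebraMap (𝓞 K) K Y) := by
    rw [hX, hY, map_mul, map_mul]
    exact (mul_lt_mul_iff_right₀ hva).symm
  rw [e1]
  constructor
  · intro h
    have h1 := (two_of hp hs v.isPrime hn h).1
    rw [val_one v Y h1]
    exact (v.valuation_lt_one_iff_mem (K := K) X).2 h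
  · intro h
    exact (v.valuation_lt_one_iff_mem (K := K) X).1 (h.trans_le (v.valuation_le_one (K := K) Y))

end

end Pool.Agent.Q290.FW
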