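import Pool.Agent.Q290.FW.Expo
import Pool.Agent.Q290.FW.Prep
import Pool.Agent.Y546.WQ.Fin

/-!
# Quadratic fields: the linear relations between the norms
-/

set_option autoImplicit false
set_option linter.all false

namespace Pool.Agent.Q290.FW

open NumberField IsDedekindDomain Polynomial Pool.Agent.Y546.WQ

/-- the number of conjugates of `x` in `Q` -/
noncomputable def cnt {K N : Type} [Field K] [NumberField K] [Field N] [NumberField N]
    (Q : Ideal (𝓞 N)) (x : 𝓞 K) : ℕ :=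
  Nat.card {τ : K →+* N // RingOfIntegers.mapRingHom τ x ∈ Q}

theorem der_two {R : Type*} [CommRing R] (f : Polynomial R) (hf : f.natDegree ≤ 2) :
    f.derivative.eval 1 = f.eval 1 - f.coeff 0 + f.coeff 2 := by
  have h := as_sum_range_C_mul_X_pow' f (Nat.lt_succ_of_le hf)
  rw [Finset.sum_range_succ, Finset.sum_range_succ, Finset.sum_range_one] at h
  have e1 : f.eval 1 = f.coeff 0 + f.coeff 1 + f.coeff 2 := by
    conv_lhs => rw [h]
    simp
  have e2 : f.derivative.eval 1 = f.coeff 1 + 2 * f.coeff 2 := by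
    conv_lhs => rw [h]
    simp
    ring
  rw [e1, e2]
  ring

section

variable {p : ℕ} [Fact p.Prime] {E : Type} [Field E] [NumberField E]
  {K N : Type} [Field K] [NumberField K] [Field N] [NumberField N]

/-- the norm of a sum -/
theorem norm_add' (σ : 𝓞 K →+* 𝓞 K)
    (hN : ∀ a : 𝓞 K, ((Algebra.norm ℤ a : ℤ) : 𝓞 K) = a * σ a)
    (hT : ∀ a : 𝓞 K, ((Algebra.trace ℤ (𝓞 K) a : ℤ) : 𝓞 K) = a + σ a) (x y : 𝓞 K) :
    Algebra.norm ℤ (x + y) = Algebra.norm ℤ x + Algebra.norm ℤ y +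
      Algebra.trace ℤ (𝓞 K) (x * σ y) := by
  have e : ((Algebra.norm ℤ (x + y) : ℤ) : 𝓞 K) = ((Algebra.norm ℤ x + Algebra.norm ℤ y +
      Algebra.trace ℤ (𝓞 K) (x * σ y) : ℤ) : 𝓞 K) := by
    push_cast
    rw [hN, hN, hN, hT, map_mul, conj_conj σ hT, map_add]
    ring
  exact_mod_cast e

/-- the norm of `x + y` modulo `p` -/
theorem norm_sum (hs : Type) (σ : 𝓞 K →+* 𝓞 K)
    (hN : ∀ a : 𝓞 K, ((Algebra.norm ℤ a : ℤ) : 𝓞 K) = a * σ a)
    (hT : ∀ a : 𝓞 K, ((Algebra.trace ℤ (𝓞 K) a : ℤ) : 𝓞 K) = a + σ a) {x y z : 𝓞 K}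
    (s : Sol p K x y z) :
    ((Algebra.norm ℤ (x + y) : ℤ) : ZMod p) = (Algebra.norm ℤ z : ℤ) := by
  have hpp : p.Prime := Fact.out
  have hp := norm_rel σ hN hT p hpp (X := x) (Y := y) (Z := z)
    (fun P hP hpP => lin_p hpp P hP hpP s.eq)
  have := (ZMod.intCast_zmod_eq_zero_iff_dvd _ p).2 hp
  rw [norm_add' σ hN hT]
  push_cast at this ⊢
  linear_combination this

/-- the linear relation for one pair -/
theorem pair (hK : Module.finrank ℚ K = 2) (σ : 𝓞 K →+* 𝓞 K)
    (hN : ∀ a : 𝓞 K, ((Algebra.norm ℤ a : ℤ) : 𝓞 K) = a * σ a)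
    (hT : ∀ a : 𝓞 K, ((Algebra.trace ℤ (𝓞 K) a : ℤ) : 𝓞 K) = a + σ a)
    (hp2 : p ≠ 2) {q : ℕ} (hq : q.Prime) (hqp : q ≠ p)
    (hW : ¬ p ^ 2 ∣ q ^ (p - 1) - 1) (c : Cyc p E) (i : E →+* N) (hD : Dn p E N i)
    (hcard : Nat.card (K →+* N) = Module.finrank ℚ K)
    (Q : Ideal (𝓞 N)) (hQ : Q.IsPrime) (hqQ : ((q : ℕ) : 𝓞 N) ∈ Q)
    {x y z : 𝓞 K} (hs : Sol p K x y z) (hG : Good q K x y) :
    ((cnt Q x : ZMod p) - cnt Q y) * (Algebra.norm ℤ z : ℤ) =
      2 * ((Algebra.norm ℤ y : ℤ) - (Algebra.norm ℤ x : ℤ)) := by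
  obtain ⟨f, hdeg, hc0, hcm, hev, hf'⟩ := Y290.WQ.mainNORM K x y
  have h := lin hp2 hq hqp hW c i hD hcard Q hQ hqQ hs hG f hdeg hc0 hcm hev (hf' N hcard)
  rw [hK] at hdeg hcm h
  have e1 : (f.map (Int.castRingHom (ZMod p))).eval 1 = (Algebra.norm ℤ z : ℤ) := by
    rw [← norm_sum ℕ σ hN hT hs, eval_map, ← map_one (Int.castRingHom (ZMod p)), eval₂_hom]
    have h2 := hev 1
    rw [Int.cast_one, one_mul] at h2
    rw [h2]
    rfl
  have e2 := der_two (f.map (Int.castRingHom (ZMod p))) (natDegree_map_le.trans hdeg)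
  rw [e1, coeff_map, coeff_map, hc0, hcm] at e2
  rw [e1, e2] at h
  simp only [eq_intCast] at h
  unfold cnt
  push_cast at h
  linear_combination h

/-- the discriminant -/
theorem dsc (hK : Module.finrank ℚ K = 2) (σ : 𝓞 K →+* 𝓞 K)
    (hN : ∀ a : 𝓞 K, ((Algebra.norm ℤ a : ℤ) : 𝓞 K) = a * σ a)
    (hT : ∀ a : 𝓞 K, ((Algebra.trace ℤ (𝓞 K) a : ℤ) : 𝓞 K) = a + σ a) {x y z : 𝓞 K}
    (s : Sol p K x y z) : ∃ m : ℤ,
      (((Algebra.norm ℤ z : ℤ) : ZMod p) - (Algebra.norm ℤ x : ℤ) - (Algebra.norm ℤ y : ℤ)) ^ 2 -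
        4 * ((Algebra.norm ℤ x : ℤ) * (Algebra.norm ℤ y : ℤ)) =
      (m : ZMod p) ^ 2 * (NumberField.discr K : ℤ) := by
  obtain ⟨m, hm⟩ := disc_eq hK σ hN hT (x * σ y)
  refine ⟨m, ?_⟩
  have e : Algebra.norm ℤ (x * σ y) = Algebra.norm ℤ x * Algebra.norm ℤ y := by
    have e1 : ((Algebra.norm ℤ (x * σ y) : ℤ) : 𝓞 K) =
        ((Algebra.norm ℤ x * Algebra.norm ℤ y : ℤ) : 𝓞 K) := by
      push_cast
      rw [hN, hN, hN, map_mul, conj_conj σ hT]
      ring
    exact_mod_cast e1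
  rw [e] at hm
  have h1 := norm_sum ℕ σ hN hT s
  rw [norm_add' σ hN hT] at h1
  have h2 := congrArg (fun t : ℤ => (t : ZMod p)) hm
  push_cast at h1 h2
  rw [← h1]
  linear_combination h2

end

/-- the possible ratios of the norms -/
theorem classify {p : ℕ} [Fact p.Prime] (h5 : 5 ≤ p) (A B C : ZMod p) (hA : A ≠ 0) (hB : B ≠ 0)
    (hC : C ≠ 0) (a b e : ℕ) (hsum : a + b + e ≤ 2) (h1 : ((a : ZMod p) - b) * C = 2 * (B - A))
    (h2 : ((b : ZMod p) - e) * A = 2 * (C - B)) (h3 : ((e : ZMod p) - a) * B = 2 * (A - C)) :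
    (a + b + e = 0 ∧ ∃ s : ZMod p, s ≠ 0 ∧ (C - A - B) ^ 2 - 4 * (A * B) = -3 * s ^ 2) ∨
    (a + b + e = 1 ∧ ∃ s : ZMod p, s ≠ 0 ∧ (C - A - B) ^ 2 - 4 * (A * B) = -7 * s ^ 2) ∨
    (a + b + e = 2 ∧ ∃ s : ZMod p, s ≠ 0 ∧ (C - A - B) ^ 2 - 4 * (A * B) = -15 * s ^ 2) := by
  have t2 := two_ne h5
  have key : ∀ A B C : ZMod p, A ≠ 0 → B ≠ 0 → C ≠ 0 → (2 : ZMod p) * C = 2 * (B - A) →
      (-2 : ZMod p) * B = 2 * (A - C) → False := by
    intro A B C hA hB hC e1 e2
    apply hA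
    have e3 : (2 : ZMod p) * (2 * A) = 0 := by linear_combination e1 - e2
    rcases mul_eq_zero.1 e3 with e4 | e4
    · exact absurd e4 t2
    · exact (mul_eq_zero.1 e4).resolve_left t2
  have key1 : ∀ A B C : ZMod p, A ≠ 0 → B ≠ 0 → C ≠ 0 → C = 2 * (B - A) → 0 = 2 * (C - B) →
      -B = 2 * (A - C) → B = 2 * A ∧ C = 2 * A := by
    intro A B C hA hB hC e1 e2 e3
    have e4 : C = B := by
      have := (mul_eq_zero.1 e2.symm).resolve_left t2
      exact sub_eq_zero.1 this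
    subst e4
    have e5 : C = 2 * A := by linear_combination -e1
    exact ⟨e5, e5⟩
  have key2 : ∀ A B C : ZMod p, A ≠ 0 → B ≠ 0 → C ≠ 0 → 0 = 2 * (B - A) → A = 2 * (C - B) →
      B = A ∧ 2 * C = 3 * A := by
    intro A B C hA hB hC e1 e2
    have e4 : B = A := by
      have := (mul_eq_zero.1 e1.symm).resolve_left t2
      exact sub_eq_zero.1 this
    subst e4
    exact ⟨rfl, by linear_combination -e2⟩
  have ha : a ≤ 2 := by omega
  have hb : b ≤ 2 := by omega
  have he : e ≤ 2 := by omega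
  interval_cases a <;> interval_cases b <;> interval_cases e <;>
    first
    | (exfalso; omega)
    | skip
  · -- 0 0 0
    left
    refine ⟨rfl, A, hA, ?_⟩
    push_cast at h1 h2
    have e1 : B = A := by
      have := (mul_eq_zero.1 (show (2 : ZMod p) * (B - A) = 0 by linear_combination -h1)).resolve_left
        t2
      exact sub_eq_zero.1 this
    have e2 : C = B := by
      have := (mul_eq_zero.1 (show (2 : ZMod p) * (C - B) = 0 by linear_combination -h2)).resolve_left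
        t2
      exact sub_eq_zero.1 this
    rw [e2, e1]
    ring
  · -- 0 0 1
    right; left
    refine ⟨rfl, C, hC, ?_⟩
    push_cast at h1 h2 h3
    obtain ⟨e1, e2⟩ := key1 C A B hC hA hB (by linear_combination h3) (by linear_combination h1)
      (by linear_combination h2)
    rw [e1, e2]
    ring
  · -- 0 0 2
    exfalso
    push_cast at h1 h2 h3
    exact key C A B hC hA hB (by linear_combination h3) (by linear_combination h2)
  · -- 0 1 0
    right; left
    refine ⟨rfl, B, hB, ?_⟩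
    push_cast at h1 h2 h3
    obtain ⟨e1, e2⟩ := key1 B C A hB hC hA (by linear_combination h2) (by linear_combination h3)
      (by linear_combination h1)
    rw [e1, e2]
    ring
  · -- 0 1 1
    right; right
    push_cast at h1 h2 h3
    obtain ⟨e1, e2⟩ := key2 B C A hB hC hA (by linear_combination h2) (by linear_combination h3)
    refine ⟨rfl, A - B, ?_, ?_⟩
    · intro h
      apply hB
      linear_combination -e2 + 2 * h
    · have e3 : B = 2 * (A - B) := by linear_combination -e2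
      have e4 : A = 3 * (A - B) := by linear_combination -e2
      rw [e1]
      have e5 : ∀ s : ZMod p, (2 * s - 3 * s - 2 * s) ^ 2 - 4 * ((3 * s) * (2 * s)) = -15 * s ^ 2 := by
        intro s
        ring
      rw [← e5 (A - B), ← e3, ← e4]
  · -- 0 2 0
    exfalso
    push_cast at h1 h2 h3
    exact key B C A hB hC hA (by linear_combination h2) (by linear_combination h1)
  · -- 1 0 0
    right; left
    refine ⟨rfl, A, hA, ?_⟩
    push_cast at h1 h2 h3
    obtain ⟨e1, e2⟩ := key1 A B C hA hB hC (by linear_combination h1) (by linear_combination h2)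
      (by linear_combination h3)
    rw [e1, e2]
    ring
  · -- 1 0 1
    right; right
    push_cast at h1 h2 h3
    obtain ⟨e1, e2⟩ := key2 C A B hC hA hB (by linear_combination h3) (by linear_combination h1)
    refine ⟨rfl, B - A, ?_, ?_⟩
    · intro h
      apply hA
      linear_combination -e2 + 2 * h + 3 * e1
    · have e3 : A = 2 * (B - A) := by linear_combination -e2 + 3 * e1
      have e4 : B = 3 * (B - A) := by linear_combination -e2 + 3 * e1
      have e6 : C = 2 * (B - A) := by rw [← e1]; exact e3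
      have e5 : ∀ s : ZMod p, (2 * s - 2 * s - 3 * s) ^ 2 - 4 * ((2 * s) * (3 * s)) = -15 * s ^ 2 := by
        intro s
        ring
      rw [← e5 (B - A), ← e4, ← e3, ← e1]
  · -- 1 1 0
    right; right
    push_cast at h1 h2 h3
    obtain ⟨e1, e2⟩ := key2 A B C hA hB hC (by linear_combination h1) (by linear_combination h2)
    refine ⟨rfl, C - A, ?_, ?_⟩
    · intro h
      apply hA
      linear_combination -e2 + 2 * h
    · have e3 : A = 2 * (C - A) := by linear_combination -e2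
      have e4 : C = 3 * (C - A) := by linear_combination -e2
      have e5 : ∀ s : ZMod p, (3 * s - 2 * s - 2 * s) ^ 2 - 4 * ((2 * s) * (2 * s)) = -15 * s ^ 2 := by
        intro s
        ring
      rw [e1, ← e5 (C - A), ← e4, ← e3]
  · -- 2 0 0
    exfalso
    push_cast at h1 h2 h3
    exact key A B C hA hB hC (by linear_combination h1) (by linear_combination h3)

/-- squares -/
theorem sq_of {p : ℕ} [Fact p.Prime] {D d m s k : ZMod p} (h1 : D = m ^ 2 * d)
    (h2 : D = -k * s ^ 2) (hk : k ≠ 0) (hs : s ≠ 0) : ∃ r : ZMod p, r ≠ 0 ∧ r ^ 2 = -k * d := by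
  have hm : m ≠ 0 := by
    rintro rfl
    rw [h1] at h2
    have h3 : k * s ^ 2 = 0 := by linear_combination h2
    exact mul_ne_zero hk (pow_ne_zero 2 hs) h3
  refine ⟨k * s / m, div_ne_zero (mul_ne_zero hk hs) hm, ?_⟩
  rw [div_pow, div_eq_iff (pow_ne_zero 2 hm)]
  rw [h1] at h2
  linear_combination k * h2

end Pool.Agent.Q290.FW
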