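import Pool.Agent.Y546.WQ.Stm3
import Pool.Agent.Y546.WQ.Pal

/-!
# The Stickelberger relations of all Jacobi sums modulo a prime above `q`

For a polynomial which is palindromic modulo `q` up to a power of the variable and a sign.
-/

set_option autoImplicit false
set_option linter.all false

namespace Pool.Agent.Q290.FW

open NumberField IsDedekindDomain Polynomial Pool.Agent.Y546.WQ

/-- the sum of the representatives of the inverses -/
def SSa (p : ℕ) [Fact p.Prime] (a : ℕ) : ℕ := ∑ t ∈ hf p a, ((t⁻¹ : (ZMod p)ˣ) : ZMod p).val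

theorem SSa_cast (p : ℕ) [Fact p.Prime] (a : ℕ) : ((SSa p a : ℕ) : ZMod p) = hsa p a 1 := by
  unfold SSa hsa
  push_cast
  refine Finset.sum_congr rfl fun t _ => ?_
  rw [ZMod.natCast_val, ZMod.cast_id', id, pow_one]

/-- the value of the polynomial and its reflection in characteristic `q` -/
theorem refl_val {q : ℕ} [Fact q.Prime] {F : Type} [Field F] [CharP F q] (f : Polynomial ℤ)
    (m a b : ℕ) (ε : ℤ) (hf : f.natDegree ≤ m)
    (h : X ^ b * f.map (Int.castRingHom (ZMod q)) =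
      Polynomial.C (ε : ZMod q) * (X ^ a * (f.reflect m).map (Int.castRingHom (ZMod q))))
    (y : F) (hy : y ≠ 0) :
    y ^ b * f.eval₂ (Int.castRingHom F) y =
      ε * (y ^ (a + m) * f.eval₂ (Int.castRingHom F) y⁻¹) := by
  let ι : ZMod q →+* F := ZMod.castHom (dvd_refl q) F
  have h1 : ∀ g : Polynomial ℤ, (g.map (Int.castRingHom (ZMod q))).eval₂ ι y =
      g.eval₂ (Int.castRingHom F) y := by
    intro g
    rw [Polynomial.eval₂_map]
    congr 1
    exact RingHom.ext_int _ _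
  have h3 := congrArg (Polynomial.eval₂ ι y) h
  rw [Polynomial.eval₂_mul, Polynomial.eval₂_mul, Polynomial.eval₂_mul, Polynomial.eval₂_X_pow,
    Polynomial.eval₂_X_pow, Polynomial.eval₂_C, h1, h1, map_intCast] at h3
  rw [h3]
  letI : Invertible y⁻¹ := invertibleOfNonzero (inv_ne_zero hy)
  have h4 := Polynomial.eval₂_reflect_mul_pow (Int.castRingHom F) y⁻¹ m f hf
  rw [invOf_eq_inv, inv_inv] at h4
  rw [← h4, pow_add, inv_pow]
  have h5 : y ^ m ≠ 0 := pow_ne_zero _ hy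
  field_simp

/-- the relation in a field of characteristic `q` -/
theorem rel_F {p : ℕ} [Fact p.Prime] {E : Type} [Field E] [NumberField E] (c : Cyc p E)
    {q : ℕ} (hq : q.Prime) (f : Polynomial ℤ) (n : ℤ) (hn : n ≠ 0)
    (hP : ∀ P : Ideal (𝓞 E), P.IsPrime → ((q : ℕ) : 𝓞 E) ∈ P →
      ∀ w : 𝓞 E, (w : E) = aeval c.z f → w ∉ P)
    (g : E) (a i : ℕ) (hrel : tha c a (aeval c.z f / (n : E)) = c.z ^ i * g ^ p)
    (zO : 𝓞 E) (hz : (zO : E) = c.z) {F : Type} [Field F] (hqF : ((q : ℕ) : F) = 0)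
    (ψ : 𝓞 E →+* F) (hnF : ((n : ℤ) : F) ≠ 0) :
    ∃ d : F, d ≠ 0 ∧ ∏ t ∈ hf p a, f.eval₂ (Int.castRingHom F)
      (ψ zO ^ ((t⁻¹ : (ZMod p)ˣ) : ZMod p).val) = (n : F) ^ (hf p a).card * (ψ zO ^ i * d ^ p) := by
  have hpp : p.Prime := Fact.out
  have hp0 : p ≠ 0 := hpp.ne_zero
  have hzp : zO ^ p = 1 := by
    apply RingOfIntegers.coe_injective
    show (algebraMap (𝓞 E) E) _ = (algebraMap (𝓞 E) E) _
    have e2 : (algebraMap (𝓞 E) E) zO = c.z := hz
    rw [map_pow, map_one, e2, c.prim.pow_eq_one]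
  have hw0 : ψ zO ≠ 0 := by
    intro h
    have h1 := congrArg ψ hzp
    rw [map_pow, h, zero_pow hp0, map_one] at h1
    exact zero_ne_one h1
  have h2k : ((q : ℕ) : 𝓞 E) ∈ RingHom.ker ψ := by
    rw [RingHom.mem_ker, map_natCast]
    exact hqF
  have hkb : RingHom.ker ψ ≠ ⊥ := by
    intro h
    rw [h, Ideal.mem_bot] at h2k
    exact hq.ne_zero (by exact_mod_cast h2k)
  let v : HeightOneSpectrum (𝓞 E) := ⟨RingHom.ker ψ, RingHom.ker_isPrime ψ, hkb⟩
  have hab : ∃ al be : 𝓞 E, ¬ (ψ al = 0 ∧ ψ be = 0) ∧ g * (be : E) = (al : E) := by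
    obtain ⟨x, d, h | h⟩ := v.exists_primeCompl_mul_eq_or_mul_eq g
    · refine ⟨x, d, fun hh => ?_, h⟩
      exact d.2 hh.2
    · refine ⟨d, x, fun hh => ?_, h⟩
      exact d.2 hh.1
  obtain ⟨al, be, h0, hgab⟩ := hab
  have hn0 : (n : E) ≠ 0 := by exact_mod_cast hn
  have hae : ∀ k : ℕ, algebraMap (𝓞 E) E (aeval (zO ^ k) f) = aeval (c.z ^ k) f := by
    intro k
    rw [← Polynomial.aeval_algebraMap_apply, map_pow]
    rw [show algebraMap (𝓞 E) E zO = c.z from hz]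
  have hsig : ∀ t : (ZMod p)ˣ, c.σ t (aeval c.z f) = aeval (c.z ^ (t : ZMod p).val) f := by
    intro t
    have e1 := Polynomial.map_aeval_eq_aeval_map (φ := Int.castRingHom ℤ)
      (ψ := ((c.σ t : E ≃ₐ[ℚ] E) : E →+* E)) (RingHom.ext_int _ _) f c.z
    rw [show (Int.castRingHom ℤ) = RingHom.id ℤ from rfl, Polynomial.map_id] at e1
    rw [← c.σ_z t]
    exact e1
  have hR : (∏ t ∈ hf p a, aeval (zO ^ ((t⁻¹ : (ZMod p)ˣ) : ZMod p).val) f) * be ^ p =
      (n : 𝓞 E) ^ (hf p a).card * (zO ^ i * al ^ p) := by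
    apply RingOfIntegers.coe_injective
    have e1 : tha c a (aeval c.z f / (n : E)) =
        (∏ t ∈ hf p a, aeval (c.z ^ ((t⁻¹ : (ZMod p)ˣ) : ZMod p).val) f) /
          (n : E) ^ (hf p a).card := by
      unfold tha
      rw [← Finset.prod_const, ← Finset.prod_div_distrib]
      refine Finset.prod_congr rfl fun t _ => ?_
      rw [map_div₀, map_intCast, hsig]
    rw [e1, div_eq_iff (pow_ne_zero _ hn0)] at hrel
    show (algebraMap (𝓞 E) E) _ = (algebraMap (𝓞 E) E) _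
    have e2 : (algebraMap (𝓞 E) E) zO = c.z := hz
    simp only [map_mul, map_pow, map_prod, map_intCast, e2, hae]
    rw [hrel]
    have e3 : (algebraMap (𝓞 E) E) al = g * (algebraMap (𝓞 E) E) be := hgab.symm
    rw [e3, mul_pow]
    ring
  have hRF := congrArg ψ hR
  have hψ : ∀ x : 𝓞 E, ψ (aeval x f) = f.eval₂ (Int.castRingHom F) (ψ x) := by
    intro x
    rw [Polynomial.aeval_def, Polynomial.hom_eval₂]
    congr 1
    exact RingHom.ext_int _ _
  simp only [map_mul, map_pow, map_prod, map_intCast, hψ] at hRF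
  -- the product is not zero
  have hne : ∏ t ∈ hf p a, f.eval₂ (Int.castRingHom F)
      (ψ zO ^ ((t⁻¹ : (ZMod p)ˣ) : ZMod p).val) ≠ 0 := by
    refine Finset.prod_ne_zero_iff.2 fun t _ hh => ?_
    have e1 : rs c t⁻¹ (aeval zO f) = aeval (zO ^ ((t⁻¹ : (ZMod p)ˣ) : ZMod p).val) f := by
      apply RingOfIntegers.coe_injective
      have e2 : ((rs c t⁻¹ (aeval zO f) : 𝓞 E) : E) = c.σ t⁻¹ ((aeval zO f : 𝓞 E) : E) := rfl
      refine e2.trans ?_
      have e3 := hae 1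
      rw [pow_one, pow_one] at e3
      have e4 : ((aeval zO f : 𝓞 E) : E) = aeval c.z f := e3
      rw [e4, hsig]
      exact (hae _).symm
    have e5 : ψ (rs c t⁻¹ (aeval zO f)) = 0 := by
      rw [e1, hψ, map_pow]
      exact hh
    refine hP (RingHom.ker (ψ.comp (rs c t⁻¹ : 𝓞 E →+* 𝓞 E))) (RingHom.ker_isPrime _) ?_
      (aeval zO f) ?_ ?_
    · rw [RingHom.mem_ker, map_natCast]
      exact hqF
    · have e3 := hae 1
      rw [pow_one, pow_one] at e3
      exact e3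
    · rw [RingHom.mem_ker]
      exact e5
  have hnc : (n : F) ^ (hf p a).card ≠ 0 := pow_ne_zero _ hnF
  have hbe : ψ be ≠ 0 := by
    intro h
    rw [h, zero_pow hp0, mul_zero] at hRF
    have h1 : ψ al ^ p = 0 := (mul_eq_zero.1 ((mul_eq_zero.1 hRF.symm).resolve_left
      hnc)).resolve_left (pow_ne_zero _ hw0)
    exact h0 ⟨pow_eq_zero_iff hp0 |>.1 h1, h⟩
  have hal : ψ al ≠ 0 := by
    intro h
    rw [h, zero_pow hp0, mul_zero, mul_zero] at hRF
    have h1 : ψ be ^ p = 0 := (mul_eq_zero.1 hRF).resolve_left hne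
    exact h0 ⟨h, pow_eq_zero_iff hp0 |>.1 h1⟩
  refine ⟨ψ al / ψ be, div_ne_zero hal hbe, ?_⟩
  rw [div_pow, ← mul_div_assoc, ← mul_div_assoc, eq_div_iff (pow_ne_zero _ hbe)]
  exact hRF

/-- if a power of a primitive `p`-th root of unity with exponent prime to `p` is a `p`-th power in a
field in which `x ^ q ^ (p - 1) = x` for all `x` then `p ^ 2` divides `q ^ (p - 1) - 1` -/
theorem core {p : ℕ} [Fact p.Prime] {F : Type} [Field F] {w : F} (hw : w ^ p = 1) (hw1 : w ≠ 1)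
    {q : ℕ} (hq : 0 < q) (hF : ∀ x : F, x ^ q ^ (p - 1) = x) (u : ℕ) (hu : ¬ p ∣ u) {v : F}
    (hv : v ^ p = w ^ u) : p ^ 2 ∣ q ^ (p - 1) - 1 := by
  have hpp : p.Prime := Fact.out
  have hp0 : p ≠ 0 := hpp.ne_zero
  have how : orderOf w = p := orderOf_eq_prime hw hw1
  have hw0 : w ≠ 0 := by
    rintro rfl
    rw [zero_pow hp0] at hw
    exact zero_ne_one hw
  have hv0 : v ≠ 0 := by
    rintro rfl
    rw [zero_pow hp0] at hv
    exact pow_ne_zero _ hw0 hv.symm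
  have h5 : orderOf v = p ^ 2 := by
    refine orderOf_eq_prime_pow (n := 1) ?_ ?_
    · rw [pow_one, hv]
      intro h
      apply hu
      rw [← how]
      exact orderOf_dvd_of_pow_eq_one h
    · rw [pow_succ, pow_one, pow_mul, hv, ← pow_mul, mul_comm, pow_mul, hw, one_pow]
  rw [← h5]
  refine orderOf_dvd_of_pow_eq_one ?_
  have h7 : v ^ (q ^ (p - 1) - 1) * v = v := by
    rw [← pow_succ, Nat.sub_add_cancel (Nat.one_le_pow _ _ hq)]
    exact hF v
  exact mul_right_cancel₀ hv0 (by rw [h7, one_mul])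

/-- the relation modulo a prime above `q` -/
theorem relQ {p : ℕ} [Fact p.Prime] (hp2 : p ≠ 2) {E : Type} [Field E] [NumberField E]
    (c : Cyc p E) {q : ℕ} (hq : q.Prime) (hqp : q ≠ p) (f : Polynomial ℤ) (n : ℤ)
    (hn : ¬ (q : ℤ) ∣ n) (m a' b : ℕ) (ε : ℤ) (hε : ε = 1 ∨ ε = -1) (hdeg : f.natDegree ≤ m)
    (hab : X ^ b * f.map (Int.castRingHom (ZMod q)) =
      Polynomial.C (ε : ZMod q) * (X ^ a' * (f.reflect m).map (Int.castRingHom (ZMod q))))
    (hP : ∀ P : Ideal (𝓞 E), P.IsPrime → ((q : ℕ) : 𝓞 E) ∈ P →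
      ∀ w : 𝓞 E, (w : E) = aeval c.z f → w ∉ P)
    (a : ℕ) (g : E) (i : ℕ) (hrel : tha c a (aeval c.z f / (n : E)) = c.z ^ i * g ^ p)
    (hW : ¬ p ^ 2 ∣ q ^ (p - 1) - 1) :
    2 * (i : ZMod p) = ((m : ZMod p) + a' - b) * hsa p a 1 := by
  have hpp : p.Prime := Fact.out
  have hp1 := hpp.one_lt
  have hodd : Odd p := hpp.odd_of_ne_two hp2
  haveI hqf : Fact q.Prime := ⟨hq⟩
  obtain ⟨M, hM', hqM⟩ := exists_above (K := E) q hq
  have hMbot : M ≠ ⊥ := by
    rintro rfl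
    rw [Ideal.mem_bot] at hqM
    exact hq.ne_zero (by exact_mod_cast hqM)
  have hM : M.IsMaximal := hM'.isMaximal hMbot
  let _ : Field (𝓞 E ⧸ M) := Ideal.Quotient.field M
  let φ : 𝓞 E →+* (𝓞 E ⧸ M) := Ideal.Quotient.mk M
  have hqF : ((q : ℕ) : 𝓞 E ⧸ M) = 0 := by
    have : φ ((q : ℕ) : 𝓞 E) = 0 := Ideal.Quotient.eq_zero_iff_mem.2 hqM
    rwa [map_natCast] at this
  haveI hchar : CharP (𝓞 E ⧸ M) q := charP_quot M hM' q hq hqM
  have hn0 : n ≠ 0 := by
    rintro rfl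
    exact hn (dvd_zero _)
  have hnF : ((n : ℤ) : 𝓞 E ⧸ M) ≠ 0 := by
    intro h
    exact hn ((CharP.intCast_eq_zero_iff (𝓞 E ⧸ M) q n).1 h)
  -- the root of unity as an integer
  let zO : 𝓞 E := ⟨c.z, c.prim.isIntegral hpp.pos⟩
  have hzO : (zO : E) = c.z := rfl
  have hzprim : IsPrimitiveRoot zO p :=
    IsPrimitiveRoot.of_map_of_injective (f := algebraMap (𝓞 E) E) c.prim
      (RingOfIntegers.coe_injective)
  set w : 𝓞 E ⧸ M := φ zO with hwdef
  have hw : w ^ p = 1 := by rw [hwdef, ← map_pow, hzprim.pow_eq_one, map_one]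
  have hw0 : w ≠ 0 := by
    intro h
    rw [h, zero_pow hpp.ne_zero] at hw
    exact zero_ne_one hw
  have hw1 : w ≠ 1 := by
    intro h
    have h1 : 1 - zO ∈ M := by
      rw [← Ideal.Quotient.eq_zero_iff_mem, map_sub, map_one]
      rw [hwdef] at h
      exact sub_eq_zero.2 h.symm
    have h2 := p_mem_of_one_sub_mem zO hzprim M h1
    refine int_notMem M hM' q hq hqM (p : ℤ) ?_ (by exact_mod_cast h2)
    intro h3
    have h4 : q ∣ p := by exact_mod_cast h3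
    exact hqp ((Nat.prime_dvd_prime_iff_eq hq hpp).1 h4)
  -- the Frobenius
  have hF : ∀ x : 𝓞 E ⧸ M, x ^ q ^ (p - 1) = x := by
    intro x
    obtain ⟨y, rfl⟩ := Ideal.Quotient.mk_surjective x
    obtain ⟨f, hf⟩ := c.gen (y : E) y.2
    have h1 : y = Polynomial.aeval zO f := by
      apply RingOfIntegers.coe_injective
      have := Polynomial.aeval_algebraMap_apply E zO f
      exact hf.trans this
    have h3 : ∀ ψ : 𝓞 E →+* (𝓞 E ⧸ M), ψ (Polynomial.aeval zO f) =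
        Polynomial.eval₂ (Int.castRingHom _) (ψ zO) f := by
      intro ψ
      rw [Polynomial.aeval_def, Polynomial.hom_eval₂]
      congr 1
      exact RingHom.ext_int _ _
    have h4 := h3 φ
    have h5 := h3 ((iterateFrobenius (𝓞 E ⧸ M) q (p - 1)).comp φ)
    rw [RingHom.comp_apply, RingHom.comp_apply, iterateFrobenius_def, iterateFrobenius_def] at h5
    have h6 : (φ zO) ^ q ^ (p - 1) = φ zO := by
      have e1 : q ^ (p - 1) % p = 1 := by
        have e2 : ((q ^ (p - 1) : ℕ) : ZMod p) = ((1 : ℕ) : ZMod p) := by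
          push_cast
          refine ZMod.pow_card_sub_one_eq_one ?_
          rw [Ne, ZMod.natCast_eq_zero_iff]
          intro hd
          exact hqp ((Nat.prime_dvd_prime_iff_eq hpp hq).1 hd).symm
        rw [ZMod.natCast_eq_natCast_iff] at e2
        have e3 : q ^ (p - 1) % p = 1 % p := e2
        rw [e3, Nat.mod_eq_of_lt hpp.one_lt]
      rw [pow_eq_pow_mod _ hw, e1, pow_one]
    rw [h6, ← h4] at h5
    have h7 : Ideal.Quotient.mk M y = φ (Polynomial.aeval zO f) := by rw [← h1]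
    rw [h7]
    exact h5
  -- the two relations
  obtain ⟨d1, hd1, hr1⟩ := rel_F c hq f n hn0 hP g a i hrel zO hzO hqF φ hnF
  obtain ⟨d2, hd2, hr2⟩ := rel_F c hq f n hn0 hP g a i hrel zO hzO hqF
    (φ.comp (rs c (-1) : 𝓞 E →+* 𝓞 E)) hnF
  have hw' : (φ.comp (rs c (-1) : 𝓞 E →+* 𝓞 E)) zO = w⁻¹ := by
    have e1 : rs c (-1) zO = zO ^ ((-1 : (ZMod p)ˣ) : ZMod p).val := by
      apply RingOfIntegers.coe_injective
      have e2 : ((rs c (-1) zO : 𝓞 E) : E) = c.σ (-1) ((zO : 𝓞 E) : E) := rfl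
      refine e2.trans ?_
      rw [hzO, c.σ_z]
      rfl
    have e3 : (φ.comp (rs c (-1) : 𝓞 E →+* 𝓞 E)) zO = φ (rs c (-1) zO) := rfl
    rw [e3, e1, map_pow, Units.val_neg, Units.val_one]
    apply eq_inv_of_mul_eq_one_left
    rw [← hwdef, ← pow_succ]
    have e4 : (-1 : ZMod p).val + 1 = p := by
      rw [ZMod.neg_val, if_neg one_ne_zero]
      haveI : Fact (1 < p) := ⟨hp1⟩
      rw [ZMod.val_one]
      omega
    rw [e4, hw]
  rw [hw'] at hr2
  rw [← hwdef] at hr1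
  have hpw : ∀ k : ℕ, ∏ t ∈ hf p a, (w ^ ((t⁻¹ : (ZMod p)ˣ) : ZMod p).val) ^ k =
      (w ^ SSa p a) ^ k := by
    intro k
    rw [Finset.prod_pow, Finset.prod_pow_eq_pow_sum]
    rfl
  have hprod : (w ^ SSa p a) ^ b * ((n : 𝓞 E ⧸ M) ^ (hf p a).card * (w ^ i * d1 ^ p)) =
      (ε : 𝓞 E ⧸ M) ^ (hf p a).card * ((w ^ SSa p a) ^ (a' + m) *
        ((n : 𝓞 E ⧸ M) ^ (hf p a).card * ((w⁻¹) ^ i * d2 ^ p))) := by
    rw [← hr1, ← hr2, ← hpw, ← hpw, ← Finset.prod_const, ← Finset.prod_mul_distrib,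
      ← Finset.prod_mul_distrib, ← Finset.prod_mul_distrib]
    refine Finset.prod_congr rfl fun t _ => ?_
    have := refl_val (q := q) f m a' b ε hdeg hab (w ^ ((t⁻¹ : (ZMod p)ˣ) : ZMod p).val)
      (pow_ne_zero _ hw0)
    rw [inv_pow]
    exact this
  by_contra hk
  set Δ : ZMod p := ((m : ZMod p) + a' - b) * hsa p a 1 - 2 * (i : ZMod p) with hΔ
  have hΔ0 : Δ ≠ 0 := sub_ne_zero.2 (Ne.symm hk)
  have hε2 : ((ε : 𝓞 E ⧸ M) ^ (hf p a).card) ^ p = (ε : 𝓞 E ⧸ M) ^ (hf p a).card := by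
    rw [← pow_mul, mul_comm, pow_mul]
    congr 1
    rcases hε with rfl | rfl
    · simp
    · rw [Int.cast_neg, Int.cast_one, hodd.neg_one_pow]
  have hnc : (n : 𝓞 E ⧸ M) ^ (hf p a).card ≠ 0 := pow_ne_zero _ hnF
  have hεc : (ε : 𝓞 E ⧸ M) ^ (hf p a).card ≠ 0 := by
    apply pow_ne_zero
    rcases hε with rfl | rfl
    · simp
    · simp
  -- the exponent
  have hkey : w ^ (SSa p a * (a' + m)) * (ε : 𝓞 E ⧸ M) ^ (hf p a).card * d2 ^ p =
      w ^ (SSa p a * b + 2 * i) * d1 ^ p := by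
    have e1 : (w ^ SSa p a) ^ b * (w ^ i * d1 ^ p) =
        (ε : 𝓞 E ⧸ M) ^ (hf p a).card * ((w ^ SSa p a) ^ (a' + m) * ((w⁻¹) ^ i * d2 ^ p)) := by
      apply mul_left_cancel₀ hnc
      linear_combination hprod
    have e2 : w ^ i * (w⁻¹) ^ i = 1 := by
      rw [← mul_pow, mul_inv_cancel₀ hw0, one_pow]
    have e3 : w ^ (SSa p a * (a' + m)) = (w ^ SSa p a) ^ (a' + m) := pow_mul _ _ _
    have e4 : w ^ (SSa p a * b + 2 * i) = (w ^ SSa p a) ^ b * (w ^ i * w ^ i) := by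
      rw [pow_add, pow_mul, two_mul, pow_add]
    rw [e3, e4]
    linear_combination (-(w ^ i)) * e1 + (-((ε : 𝓞 E ⧸ M) ^ (hf p a).card *
      ((w ^ SSa p a) ^ (a' + m) * d2 ^ p))) * e2
  apply hW
  -- write the quotient as a power of w
  set u : ℕ := Δ.val with hu
  have huc : ((u : ℕ) : ZMod p) = Δ := by
    rw [hu, ZMod.natCast_val, ZMod.cast_id', id]
  have hmod : w ^ (SSa p a * (a' + m)) = w ^ (SSa p a * b + 2 * i) * w ^ u := by
    rw [← pow_add]
    rw [pow_eq_pow_mod _ hw, pow_eq_pow_mod (SSa p a * b + 2 * i + u) hw]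
    congr 1
    have e1 : ((SSa p a * (a' + m) : ℕ) : ZMod p) = ((SSa p a * b + 2 * i + u : ℕ) : ZMod p) := by
      push_cast
      rw [huc, hΔ, SSa_cast]
      ring
    rw [ZMod.natCast_eq_natCast_iff] at e1
    exact e1
  refine core hw hw1 hq.pos hF u ?_ (v := d1 / (d2 * (ε : 𝓞 E ⧸ M) ^ (hf p a).card)) ?_
  · intro h
    apply hΔ0
    rw [← huc]
    exact (ZMod.natCast_eq_zero_iff _ _).2 h
  · rw [div_pow, mul_pow, hε2, div_eq_iff (mul_ne_zero (pow_ne_zero _ hd2) hεc)]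
    apply mul_left_cancel₀ (pow_ne_zero (SSa p a * b + 2 * i) hw0)
    rw [hmod] at hkey
    linear_combination -hkey

end Pool.Agent.Q290.FW
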