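import Pool.Agent.Q290.FW.Mix3

/-!
# Quadratic fields: the second case
-/

set_option autoImplicit false
set_option linter.all false

namespace Pool.Agent.Q290.FW

open NumberField IsDedekindDomain Polynomial Pool.Agent.Y546.WQ Pool.Agent.Y546

section

variable {K N : Type} [Field K] [NumberField K] [Field N] [NumberField N]

/-- all primes above `q` divide `z` if all conjugates are in `Q` -/
theorem all_of_cnt {q : ℕ} (hq : q.Prime) (σ : 𝓞 K →+* 𝓞 K)
    (hN : ∀ a : 𝓞 K, ((Algebra.norm ℤ a : ℤ) : 𝓞 K) = a * σ a)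
    (hcard : Nat.card (K →+* N) = Module.finrank ℚ K) (Q : Ideal (𝓞 N)) (hQ : Q.IsPrime)
    (hqQ : ((q : ℕ) : 𝓞 N) ∈ Q) {z : 𝓞 K} (h : cnt (K := K) Q z = Module.finrank ℚ K)
    (P : Ideal (𝓞 K)) (hP : P.IsPrime) (hqP : ((q : ℕ) : 𝓞 K) ∈ P) : z ∈ P := by
  classical
  haveI : Finite (K →+* N) := Nat.finite_of_card_ne_zero (by
    rw [hcard]
    exact Module.finrank_pos.ne')
  have hall : ∀ τ : K →+* N, RingOfIntegers.mapRingHom τ z ∈ Q := by
    by_contra hcon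
    push Not at hcon
    obtain ⟨τ, hτ⟩ := hcon
    unfold cnt at h
    rw [← hcard] at h
    have h1 : Nat.card {τ : K →+* N // RingOfIntegers.mapRingHom τ z ∈ Q} < Nat.card (K →+* N) := by
      haveI : Fintype (K →+* N) := Fintype.ofFinite _
      rw [Nat.card_eq_fintype_card, Nat.card_eq_fintype_card]
      exact Fintype.card_subtype_lt hτ
    omega
  obtain ⟨f, -, -, -, hev, hf'⟩ := Y290.WQ.mainNORM K z 1
  have hf := hf' N hcard
  haveI := hQ
  have key : ∀ t : ℤ, (q : ℤ) ∣ f.eval t - t ^ Nat.card (K →+* N) := by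
    intro t
    by_contra hcon
    apply int_notMem Q hQ q hq hqQ _ hcon
    rw [← Ideal.Quotient.eq_zero_iff_mem]
    have e1 := eval_f hf ((t : ℤ) : 𝓞 N)
    have e2 : aeval ((t : ℤ) : 𝓞 N) f = ((f.eval t : ℤ) : 𝓞 N) := by
      have e3 := aeval_algebraMap_apply (𝓞 N) t f
      have e4 : algebraMap ℤ (𝓞 N) t = ((t : ℤ) : 𝓞 N) := rfl
      rw [e4] at e3
      rw [e3]
      rfl
    rw [Int.cast_sub, ← e2, e1, Int.cast_pow, map_sub, map_prod, sub_eq_zero]
    rw [map_pow, Nat.card_eq_fintype_card, ← Finset.card_univ, ← Finset.prod_const]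
    refine Finset.prod_congr rfl fun τ _ => ?_
    rw [map_add, Ideal.Quotient.eq_zero_iff_mem.2 (hall τ), map_one, mul_one, zero_add]
  have k0 := key 0
  have k1 := key 1
  have hc0 : Nat.card (K →+* N) ≠ 0 := by
    rw [hcard]
    exact Module.finrank_pos.ne'
  rw [hev, zero_pow hc0, Int.cast_zero, zero_mul, add_zero, sub_zero] at k0
  rw [hev, one_pow, Int.cast_one, one_mul] at k1
  have m0 : z * σ z ∈ P := by
    obtain ⟨d, hd⟩ := k0
    rw [← hN, hd, Int.cast_mul, Int.cast_natCast]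
    exact P.mul_mem_right _ hqP
  have m1 : (z + 1) * σ (z + 1) - 1 ∈ P := by
    obtain ⟨d, hd⟩ := k1
    rw [← hN]
    have e : ((Algebra.norm ℤ (z + 1) : ℤ) : 𝓞 K) - 1 = ((Algebra.norm ℤ (z + 1) - 1 : ℤ) : 𝓞 K) := by
      push_cast
      rfl
    rw [e, hd, Int.cast_mul, Int.cast_natCast]
    exact P.mul_mem_right _ hqP
  have m2 : z + σ z ∈ P := by
    have e : z + σ z = ((z + 1) * σ (z + 1) - 1) - z * σ z := by
      rw [map_add, map_one]
      ring
    rw [e]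
    exact P.sub_mem m1 m0
  rcases hP.mem_or_mem m0 with h1 | h1
  · exact h1
  · exact (Ideal.add_mem_iff_left P h1).1 m2

/-- the second case: `z` is divisible by all primes above `p` -/
theorem secO {p : ℕ} (hp : p.Prime) (h5 : 5 ≤ p) (hK : Module.finrank ℚ K = 2)
    {q : ℕ} (hq : q.Prime) (hqp : q ≠ p) (hW : ¬ p ^ 2 ∣ q ^ (p - 1) - 1)
    {x y z : 𝓞 K} (hx0 : x ≠ 0) (hy0 : y ≠ 0) (hz0 : z ≠ 0)
    (h : x ^ p + y ^ p + z ^ p = 0)
    (hn : ∀ P : Ideal (𝓞 K), P.IsPrime → ((p : ℕ) : 𝓞 K) ∈ P → x ∉ P ∧ y ∉ P ∧ z ∈ P)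
    (hnq : ∀ P : Ideal (𝓞 K), P.IsPrime → ((q : ℕ) : 𝓞 K) ∈ P → ¬ (x ∈ P ∧ y ∈ P ∧ z ∈ P)) :
    (Good q K x z → ∀ P : Ideal (𝓞 K), P.IsPrime → ((q : ℕ) : 𝓞 K) ∈ P → z ∈ P) ∧
      (q = 2 → Good q K x z) := by
  have hfact : Fact p.Prime := ⟨hp⟩
  have hp2 : p ≠ 2 := by omega
  obtain ⟨σ, hN, hT⟩ := SG.exists_conj hK
  have Sx : SolT p K x z y := ⟨hx0, hz0, hy0, by rw [← h]; ring, fun P hP hpP => (hn P hP hpP).2.1⟩
  have hA0 : ((Algebra.norm ℤ x : ℤ) : ZMod p) ≠ 0 := fun h0 =>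
    norm_ncp hp σ hN (fun P hP hpP => (hn P hP hpP).1) ((ZMod.intCast_zmod_eq_zero_iff_dvd _ p).1 h0)
  have hC0 : ((Algebra.norm ℤ z : ℤ) : ZMod p) = 0 := by
    obtain ⟨P, hP, hpP⟩ := exists_above (K := K) p hp
    rw [ZMod.intCast_zmod_eq_zero_iff_dvd]
    by_contra hcon
    apply int_notMem P hP p hp hpP _ hcon
    rw [hN]
    exact P.mul_mem_right _ (hn P hP hpP).2.2
  have hAB : ((Algebra.norm ℤ x : ℤ) : ZMod p) = (Algebra.norm ℤ y : ℤ) := by
    have h2 : (p : ℤ) ∣ Algebra.norm ℤ x - Algebra.norm ℤ y := by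
      obtain ⟨P, hP, hpP⟩ := exists_above (K := K) p hp
      by_contra hcon
      apply int_notMem P hP p hp hpP _ hcon
      have h3 : ∀ R : Ideal (𝓞 K), R.IsPrime → ((p : ℕ) : 𝓞 K) ∈ R → x + y ∈ R := fun R hR hpR =>
        (Ideal.add_mem_iff_left R (hn R hR hpR).2.2).1 (lin_p hp R hR hpR h)
      have h4 := h3 P hP hpP
      have h5 : σ (x + y) ∈ P := h3 (P.comap σ) (hP.comap σ)
        (by rw [Ideal.mem_comap, map_natCast]; exact hpP)
      push_cast
      rw [hN, hN]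
      have e : x * σ x - y * σ y = σ x * (x + y) - y * σ (x + y) := by
        rw [map_add]
        ring
      rw [e]
      exact P.sub_mem (P.mul_mem_left _ h4) (P.mul_mem_left _ h5)
    have := (ZMod.intCast_zmod_eq_zero_iff_dvd _ p).2 h2
    push_cast at this
    exact sub_eq_zero.1 this
  obtain ⟨E, _, _, ⟨c⟩⟩ := Y978.WQ.main p hp2
  constructor
  · intro g1
    obtain ⟨N, _, _, i, hcard, hD⟩ := Y258.WQ.mainDOWNG p E c K (by omega)
    have hD' : Dn p E N i := hD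
    obtain ⟨Q, hQ, hqQ⟩ := exists_above (K := N) q hq
    have r1 := pairT hK σ hN hT hp2 hq hqp hW c i hD' hcard Q hQ hqQ Sx g1
    have c1 := cnt_le (K := K) hcard Q x
    have c2 := cnt_le (K := K) hcard Q z
    rw [hK] at c1 c2
    rw [hC0, ← hAB] at r1
    have r2 : (((cnt (K := K) Q x + 2 : ℕ) : ℕ) : ZMod p) = ((cnt (K := K) Q z : ℕ) : ZMod p) := by
      apply mul_right_cancel₀ hA0
      push_cast
      linear_combination r1
    have r3 := (ZMod.natCast_eq_natCast_iff' _ _ p).1 r2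
    rw [Nat.mod_eq_of_lt (by omega), Nat.mod_eq_of_lt (by omega)] at r3
    exact all_of_cnt hq σ hN hcard Q hQ hqQ (by rw [hK]; omega)
  · rintro rfl
    by_contra hG
    apply hA0
    rw [badT h5 hW hK σ hN hT c Sx (fun P hP h2P hh => hnq P hP h2P ⟨hh.1, hh.2.2, hh.2.1⟩) hG]
    exact hC0

end

end Pool.Agent.Q290.FW
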