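import Pool.Agent.Q290.FW.Cross3

/-!
# Quadratic fields in which two does not split: all solutions are of one type
-/

set_option autoImplicit false
set_option linter.all false

namespace Pool.Agent.Q290.FW

open NumberField IsDedekindDomain Polynomial Pool.Agent.Y546.WQ Pool.Agent.Y546

section

variable {K : Type} [Field K] [NumberField K]

/-- the types of a solution at a prime above `p` -/
theorem types {p : ℕ} (hp : p.Prime) {x y z : K} (hx : x ≠ 0) (hy : y ≠ 0) (hz : z ≠ 0)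
    (h : x ^ p + y ^ p + z ^ p = 0) (v : HeightOneSpectrum (𝓞 K))
    (hv : ((p : ℕ) : 𝓞 K) ∈ v.asIdeal) :
    (v.valuation K x = v.valuation K y ∧ v.valuation K y = v.valuation K z) ∨
      (v.valuation K x < v.valuation K y ∧ v.valuation K x < v.valuation K z) ∨
      (v.valuation K y < v.valuation K z ∧ v.valuation K y < v.valuation K x) ∨
      (v.valuation K z < v.valuation K x ∧ v.valuation K z < v.valuation K y) := by
  obtain ⟨X, Y, Z, hX, hY, hZ, hXYZ, hn, a, ha, hXa, hYa, hZa⟩ :=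
    prepM (M := p) hp.ne_zero hp dvd_rfl hx hy hz h
  have n0 := hn _ v.isPrime hv
  have s0 : X ^ p + Z ^ p + Y ^ p = 0 := by rw [← hXYZ]; ring
  have s1 : Y ^ p + Z ^ p + X ^ p = 0 := by rw [← hXYZ]; ring
  have s2 : Y ^ p + X ^ p + Z ^ p = 0 := by rw [← hXYZ]; ring
  have s3 : Z ^ p + X ^ p + Y ^ p = 0 := by rw [← hXYZ]; ring
  have s4 : Z ^ p + Y ^ p + X ^ p = 0 := by rw [← hXYZ]; ring
  by_cases h1 : X ∈ v.asIdeal
  · exact Or.inr (Or.inl ⟨(mem_iff hp hXYZ v n0 ha hXa hYa).1 h1,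
      (mem_iff hp s0 v (fun k => n0 ⟨k.1, k.2.2, k.2.1⟩) ha hXa hZa).1 h1⟩)
  by_cases h2 : Y ∈ v.asIdeal
  · exact Or.inr (Or.inr (Or.inl ⟨
      (mem_iff hp s1 v (fun k => n0 ⟨k.2.2, k.1, k.2.1⟩) ha hYa hZa).1 h2,
      (mem_iff hp s2 v (fun k => n0 ⟨k.2.1, k.1, k.2.2⟩) ha hYa hXa).1 h2⟩))
  by_cases h3 : Z ∈ v.asIdeal
  · exact Or.inr (Or.inr (Or.inr ⟨
      (mem_iff hp s3 v (fun k => n0 ⟨k.2.1, k.2.2, k.1⟩) ha hZa hXa).1 h3,
      (mem_iff hp s4 v (fun k => n0 ⟨k.2.2, k.2.1, k.1⟩) ha hZa hYa).1 h3⟩))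
  exact Or.inl ((eqv hp hXYZ v n0 ha hXa hYa hZa).2 ⟨h1, h2, h3⟩)

/-- the type is the same at all primes above `2 p` -/
theorem structK {p : ℕ} (hp : p.Prime) (h5 : 5 ≤ p) (hK : Module.finrank ℚ K = 2)
    (hW : ¬ p ^ 2 ∣ 2 ^ (p - 1) - 1)
    (h2 : ∀ w w' : HeightOneSpectrum (𝓞 K), ((2 : ℕ) : 𝓞 K) ∈ w.asIdeal →
      ((2 : ℕ) : 𝓞 K) ∈ w'.asIdeal → w = w')
    {x y z : K} (hx : x ≠ 0) (hy : y ≠ 0) (hz : z ≠ 0) (h : x ^ p + y ^ p + z ^ p = 0)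
    (v₀ : HeightOneSpectrum (𝓞 K)) (h₀ : ((p : ℕ) : 𝓞 K) ∈ v₀.asIdeal)
    (hv₀ : v₀.valuation K z < v₀.valuation K x ∧ v₀.valuation K z < v₀.valuation K y)
    (v : HeightOneSpectrum (𝓞 K))
    (hv : ((2 : ℕ) : 𝓞 K) ∈ v.asIdeal ∨ ((p : ℕ) : 𝓞 K) ∈ v.asIdeal) :
    v.valuation K z < v.valuation K x ∧ v.valuation K z < v.valuation K y := by
  have hall : ∀ v : HeightOneSpectrum (𝓞 K), ((p : ℕ) : 𝓞 K) ∈ v.asIdeal →
      v.valuation K z < v.valuation K x ∧ v.valuation K z < v.valuation K y := by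
    intro v hv
    rcases types hp hx hy hz h v hv with h1 | h1 | h1 | h1
    · exfalso
      have h3 := mixK hp h5 hK (Or.inl hW) hx hy hz h v hv h1 v₀ h₀
      exact absurd hv₀.2 (by rw [h3.2]; exact lt_irrefl _)
    · exfalso
      obtain ⟨⟨w, hw, k1, -⟩, w', hw', k2, -⟩ := crossK hp h5 hK Nat.prime_two hW hz hx hy
        (by rw [← h]; ring) v₀ v h₀ hv hv₀ ⟨h1.2, h1.1⟩ (Or.inl rfl)
      rw [h2 w w' hw hw'] at k1
      exact lt_asymm k1 k2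
    · exfalso
      obtain ⟨⟨w, hw, k1, -⟩, w', hw', k2, -⟩ := crossK hp h5 hK Nat.prime_two hW hz hy hx
        (by rw [← h]; ring) v₀ v h₀ hv ⟨hv₀.2, hv₀.1⟩ h1 (Or.inl rfl)
      rw [h2 w w' hw hw'] at k1
      exact lt_asymm k1 k2
    · exact h1
  rcases hv with hv | hv
  · exact secK hp h5 hK Nat.prime_two hW hx hy hz h hall (Or.inl rfl) v hv
  · exact hall v hv

end

end Pool.Agent.Q290.FW
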