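import Pool.Agent.Y546.WQ.Stm3
import Pool.Agent.Y388.WQ.HAR

/-!
# First order consequences of the Stickelberger relations of all Jacobi sums

For some `a` the sum of the inverses of the elements of `hf p a` is not zero, and the relation
belonging to `a` modulo `(T - 1) ^ 2`.
-/

set_option autoImplicit false
set_option linter.all false

namespace Pool.Agent.Q290.FW

open Polynomial Pool.Agent.Y546.WQ

variable {p : ℕ} [Fact p.Prime]

/-- the number of `r` with `p < t + r` -/
theorem count (t : (ZMod p)ˣ) :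
    ∑ r : (ZMod p)ˣ, (if p < (t : ZMod p).val + (r : ZMod p).val then (1 : ZMod p) else 0) =
      (t : ZMod p) - 1 := by
  have h0 := Y388.WQ.HAR.val_pos t
  have h1 := ZMod.val_lt (t : ZMod p)
  have h2 := Y388.WQ.HAR.sum_units (p := p)
    (fun k => if p < (t : ZMod p).val + k then (1 : ZMod p) else 0)
  rw [← h2, Finset.sum_ite, Finset.sum_const_zero, add_zero, Finset.sum_const, nsmul_one]
  have h3 : (Finset.Ioo 0 p).filter (fun k => p < (t : ZMod p).val + k) =
      Finset.Ioo (p - (t : ZMod p).val) p := by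
    ext k
    rw [Finset.mem_filter, Finset.mem_Ioo, Finset.mem_Ioo]
    omega
  rw [h3, Nat.card_Ioo]
  have h4 : p - (p - (t : ZMod p).val) - 1 = (t : ZMod p).val - 1 := by omega
  rw [h4, Nat.cast_sub h0, ZMod.natCast_zmod_val, Nat.cast_one]

/-- the sum of all inverses vanishes -/
theorem sum_inv (hp2 : p ≠ 2) : ∑ t : (ZMod p)ˣ, ((t⁻¹ : (ZMod p)ˣ) : ZMod p) = 0 := by
  have h20 : (2 : ZMod p) ≠ 0 := by
    have h1 : ((2 : ℕ) : ZMod p) ≠ 0 := by
      rw [Ne, ZMod.natCast_eq_zero_iff]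
      intro h
      exact hp2 ((Nat.prime_dvd_prime_iff_eq (Fact.out : p.Prime) Nat.prime_two).1 h)
    exact_mod_cast h1
  have h1 : ∑ t : (ZMod p)ˣ, ((t⁻¹ : (ZMod p)ˣ) : ZMod p) =
      ∑ t : (ZMod p)ˣ, (((-t)⁻¹ : (ZMod p)ˣ) : ZMod p) :=
    (Equiv.sum_comp (Equiv.neg (ZMod p)ˣ) fun t => ((t⁻¹ : (ZMod p)ˣ) : ZMod p)).symm
  have h2 : ∀ t : (ZMod p)ˣ, (((-t)⁻¹ : (ZMod p)ˣ) : ZMod p) =
      -((t⁻¹ : (ZMod p)ˣ) : ZMod p) := by
    intro t
    rw [inv_neg, Units.val_neg]
  rw [Finset.sum_congr rfl fun t _ => h2 t, Finset.sum_neg_distrib] at h1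
  have h3 : 2 * ∑ t : (ZMod p)ˣ, ((t⁻¹ : (ZMod p)ˣ) : ZMod p) = 0 := by
    linear_combination h1
  exact (mul_eq_zero.1 h3).resolve_left h20

/-- one of the sums of inverses is not zero -/
theorem exists_hsa (hp2 : p ≠ 2) : ∃ a : ℕ, 0 < a ∧ a + 2 ≤ p ∧ hsa p a 1 ≠ 0 := by
  have hpp : p.Prime := Fact.out
  by_contra hcon
  push Not at hcon
  have h1 : ∀ u : (ZMod p)ˣ, ∑ t : (ZMod p)ˣ, ((t⁻¹ : (ZMod p)ˣ) : ZMod p) *
      (if p < (t : ZMod p).val + ((u * t : (ZMod p)ˣ) : ZMod p).val then (1 : ZMod p) else 0) =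
        0 := by
    intro u
    have hu0 := Y388.WQ.HAR.val_pos u
    have hu1 := ZMod.val_lt (u : ZMod p)
    by_cases hu : (u : ZMod p).val + 2 ≤ p
    · have h2 := hcon _ hu0 hu
      unfold hsa hf at h2
      rw [Finset.sum_filter] at h2
      refine Eq.trans (Finset.sum_congr rfl fun t _ => ?_) h2
      rw [Units.val_mul, ZMod.natCast_zmod_val, pow_one]
      split_ifs <;> ring
    · have h3 : u = -1 := by
        apply Units.ext
        rw [← ZMod.natCast_zmod_val (u : ZMod p), Units.val_neg, Units.val_one]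
        have h4 : (u : ZMod p).val = p - 1 := by omega
        rw [h4, Nat.cast_sub hpp.one_lt.le, ZMod.natCast_self, Nat.cast_one, zero_sub]
      refine Finset.sum_eq_zero fun t _ => ?_
      rw [if_neg, mul_zero]
      rw [h3, neg_one_mul, Units.val_neg, ZMod.neg_val, if_neg t.ne_zero]
      have := ZMod.val_lt (t : ZMod p)
      omega
  have h2 : ∑ u : (ZMod p)ˣ, ∑ t : (ZMod p)ˣ, ((t⁻¹ : (ZMod p)ˣ) : ZMod p) *
      (if p < (t : ZMod p).val + ((u * t : (ZMod p)ˣ) : ZMod p).val then (1 : ZMod p) else 0) =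
        0 := Finset.sum_eq_zero fun u _ => h1 u
  rw [Finset.sum_comm] at h2
  have h3 : ∀ t : (ZMod p)ˣ, ∑ u : (ZMod p)ˣ, ((t⁻¹ : (ZMod p)ˣ) : ZMod p) *
      (if p < (t : ZMod p).val + ((u * t : (ZMod p)ˣ) : ZMod p).val then (1 : ZMod p) else 0) =
        1 - ((t⁻¹ : (ZMod p)ˣ) : ZMod p) := by
    intro t
    rw [← Finset.mul_sum]
    have h4 : ∑ u : (ZMod p)ˣ, (if p < (t : ZMod p).val + ((u * t : (ZMod p)ˣ) : ZMod p).val
        then (1 : ZMod p) else 0) = ∑ r : (ZMod p)ˣ,
          (if p < (t : ZMod p).val + (r : ZMod p).val then (1 : ZMod p) else 0) :=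
      Equiv.sum_comp (Equiv.mulRight t) fun r : (ZMod p)ˣ =>
        (if p < (t : ZMod p).val + (r : ZMod p).val then (1 : ZMod p) else 0)
    rw [h4, count, mul_sub, Units.inv_mul, mul_one]
  rw [Finset.sum_congr rfl fun t _ => h3 t, Finset.sum_sub_distrib, sum_inv hp2, sub_zero,
    Finset.sum_const, Finset.card_univ, ZMod.card_units, nsmul_one, Nat.cast_sub hpp.one_lt.le,
    ZMod.natCast_self, Nat.cast_one, zero_sub] at h2
  exact one_ne_zero (neg_eq_zero.1 h2)

/-- the relation belonging to `a` to the first order -/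
theorem lin_of (hp2 : p ≠ 2) (a i : ℕ) (f : Polynomial (ZMod p)) (r : ZMod p) (hr : r ≠ 0)
    (hdvd : (X - 1) ^ (p - 1) ∣ thPa p a f - Polynomial.C r * X ^ i) :
    (i : ZMod p) * f.eval 1 = f.derivative.eval 1 * hsa p a 1 := by
  have hp2' : 2 ≤ p - 1 := by
    have := (Fact.out : p.Prime).two_le
    omega
  have hdvd2 : (X - 1) ^ 2 ∣ thPa p a f - Polynomial.C r * X ^ i :=
    (pow_dvd_pow _ hp2').trans hdvd
  obtain ⟨g, hg⟩ := hdvd2
  have e1 : (thPa p a f).eval 1 = r := by
    have := congrArg (eval 1) hg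
    simp at this
    exact sub_eq_zero.1 this
  have e2 : (thPa p a f).derivative.eval 1 = r * i := by
    have := congrArg (fun h => eval 1 (derivative h)) hg
    simp only [derivative_sub, derivative_mul, derivative_C, zero_mul, zero_add, derivative_X_pow,
      derivative_pow, derivative_one, derivative_X, eval_sub, eval_mul, eval_C, eval_pow, eval_X,
      one_pow, mul_one, eval_add, eval_one, sub_self, mul_zero, eval_natCast, sub_zero] at this
    norm_num at this
    exact sub_eq_zero.1 this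
  have hval : (thPa p a f).eval 1 = f.eval 1 ^ (hf p a).card := by
    unfold thPa
    rw [eval_prod]
    simp only [eval_comp, eval_pow, eval_X, one_pow, Finset.prod_const]
  have hder : (thPa p a f).derivative.eval 1 * f.eval 1
      = f.derivative.eval 1 * f.eval 1 ^ (hf p a).card * hsa p a 1 := by
    unfold thPa
    rw [derivative_prod_finset, eval_finsetSum]
    unfold hsa
    rw [Finset.sum_mul, Finset.mul_sum]
    refine Finset.sum_congr rfl (fun t ht => ?_)
    rw [eval_mul, eval_prod, derivative_comp, derivative_X_pow]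
    simp only [eval_comp, eval_pow, eval_X, one_pow, eval_mul, eval_C, mul_one,
      Finset.prod_const]
    rw [Finset.card_erase_of_mem ht]
    have h1 : (hf p a).card - 1 + 1 = (hf p a).card :=
      Nat.sub_add_cancel (Finset.card_pos.2 ⟨t, ht⟩)
    have h2 : f.eval 1 ^ (hf p a).card = f.eval 1 ^ ((hf p a).card - 1) * f.eval 1 := by
      rw [← pow_succ, h1]
    have h3 : (((((t⁻¹ : (ZMod p)ˣ) : ZMod p).val : ℕ) : ZMod p))
        = ((t⁻¹ : (ZMod p)ˣ) : ZMod p) := ZMod.natCast_zmod_val _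
    rw [h2, h3]
    ring
  rw [← hval, e1, e2] at hder
  apply mul_left_cancel₀ hr
  linear_combination hder

end Pool.Agent.Q290.FW
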